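import Pool.Agent.Lib.MP_85340c_ag.TwoBasis

/-!
# Systems of parameters and tight closure: the exchange argument

In a Noetherian local ring possessing one regular system of parameters, every system of parameters
is a regular sequence, and tight closedness of parameter ideals can be checked on systems of
parameters taken from a sufficiently rich subset.
-/

namespace MP85340c

open IsLocalRing

section Reg

variable {R : Type*} [CommRing R]

/-- `l` is a weakly regular sequence modulo the ideal `J` -/
def RegSeq : Ideal R → List R → Prop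
  | _, [] => True
  | J, (u :: us) => (∀ r, u * r ∈ J → r ∈ J) ∧ RegSeq (J ⊔ Ideal.span {u}) us

theorem sup_ofList_cons (J : Ideal R) (u : R) (l : List R) :
    J ⊔ Ideal.ofList (u :: l) = J ⊔ Ideal.span {u} ⊔ Ideal.ofList l := by
  rw [Ideal.ofList_cons, sup_assoc]

theorem regSeq_append_singleton (J : Ideal R) (l : List R) (z : R) :
    RegSeq J (l ++ [z]) ↔
      RegSeq J l ∧ ∀ r, z * r ∈ J ⊔ Ideal.ofList l → r ∈ J ⊔ Ideal.ofList l := by
  induction l generalizing J with
  | nil => simp [RegSeq]
  | cons u l ih =>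
    rw [List.cons_append, RegSeq, RegSeq, ih, sup_ofList_cons, and_assoc]

variable [IsLocalRing R] [IsNoetherianRing R]

theorem regSeq_swap {J : Ideal R} {u v : R} {l : List R} (hu : u ∈ maximalIdeal R)
    (h : RegSeq J (u :: v :: l)) : RegSeq J (v :: u :: l) := by
  obtain ⟨h1, h2, h3⟩ := h
  -- `v` is regular modulo `J`
  have hv : ∀ r, v * r ∈ J → r ∈ J := by
    set K : Ideal R := Submodule.colon J {v} with hK
    have hmemK : ∀ r, r ∈ K ↔ v * r ∈ J := by
      intro r
      rw [hK, Submodule.mem_colon_singleton, smul_eq_mul, mul_comm]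
    have hle : K ≤ J ⊔ (Ideal.span {u}) • K := by
      intro r hr
      have h4 : v * r ∈ J := (hmemK r).1 hr
      have h5 : r ∈ J ⊔ Ideal.span {u} := h2 r (Ideal.mem_sup_left h4)
      obtain ⟨j, hj, s, hs, rfl⟩ := Submodule.mem_sup.1 h5
      obtain ⟨s', rfl⟩ := Ideal.mem_span_singleton'.1 hs
      have h6 : u * (v * s') ∈ J := by
        have : u * (v * s') = v * (j + s' * u) - v * j := by ring
        rw [this]
        exact sub_mem h4 (Ideal.mul_mem_left _ _ hj)
      have h7 : s' ∈ K := (hmemK s').2 (h1 _ h6)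
      refine Submodule.add_mem_sup hj ?_
      rw [mul_comm]
      exact Submodule.smul_mem_smul (Ideal.mem_span_singleton_self u) h7
    have hKJ : K ≤ J := by
      refine Submodule.le_of_le_smul_of_le_jacobson_bot (IsNoetherian.noetherian K) ?_ hle
      rw [IsLocalRing.jacobson_eq_maximalIdeal _ bot_ne_top, Ideal.span_singleton_le_iff_mem]
      exact hu
    intro r hr
    exact hKJ ((hmemK r).2 hr)
  refine ⟨hv, ?_, ?_⟩
  · intro r hr
    obtain ⟨j, hj, s, hs, hjs⟩ := Submodule.mem_sup.1 hr
    obtain ⟨s', rfl⟩ := Ideal.mem_span_singleton'.1 hs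
    have h4 : v * s' ∈ J ⊔ Ideal.span {u} := by
      have : v * s' = -j + r * u := by
        linear_combination hjs
      rw [this]
      exact Submodule.add_mem_sup (neg_mem hj) (Ideal.mem_span_singleton'.2 ⟨r, rfl⟩)
    have h5 := h2 _ h4
    obtain ⟨j', hj', s'', hs'', hjs'⟩ := Submodule.mem_sup.1 h5
    obtain ⟨q, rfl⟩ := Ideal.mem_span_singleton'.1 hs''
    have h6 : u * (r - q * v) ∈ J := by
      have : u * (r - q * v) = j + j' * v := by
        linear_combination -hjs - v * hjs'
      rw [this]
      exact add_mem hj (Ideal.mul_mem_right _ _ hj')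
    have h7 := h1 _ h6
    have h8 : r = (r - q * v) + q * v := by ring
    rw [h8]
    exact Submodule.add_mem_sup h7 (Ideal.mem_span_singleton'.2 ⟨q, rfl⟩)
  · rwa [sup_right_comm]

theorem regSeq_cons_iff_append {J : Ideal R} {e : R} {l : List R} (he : e ∈ maximalIdeal R)
    (hl : ∀ u ∈ l, u ∈ maximalIdeal R) : RegSeq J (e :: l) ↔ RegSeq J (l ++ [e]) := by
  induction l generalizing J with
  | nil => simp
  | cons u l ih =>
    have hu : u ∈ maximalIdeal R := hl u (by simp)
    have hl' : ∀ u ∈ l, u ∈ maximalIdeal R := fun v hv => hl v (by simp [hv])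
    constructor
    · intro h
      have h2 := regSeq_swap he h
      refine ⟨h2.1, ?_⟩
      exact (ih hl').1 h2.2
    · intro h
      have h2 : RegSeq J (u :: e :: l) := ⟨h.1, (ih hl').2 h.2⟩
      exact regSeq_swap hu h2

end Reg

section CM

variable {R : Type*} [CommRing R] [IsLocalRing R] [IsNoetherianRing R]

theorem maximalIdeal_notMem_minimalPrimes {d : ℕ} (hd : (maximalIdeal R).height = d)
    {l : List R} (hl : l.length < d) : maximalIdeal R ∉ (Ideal.ofList l).minimalPrimes := by
  classical
  intro h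
  have h1 : Ideal.ofList l = Ideal.span (l.toFinset : Set R) := by
    rw [Ideal.ofList]; congr 1; ext z; simp
  rw [h1] at h
  have h2 := Ideal.height_le_card_of_mem_minimalPrimes_span_finset h
  rw [hd] at h2
  have h3 : d ≤ l.toFinset.card := by exact_mod_cast h2
  have h4 := List.toFinset_card_le l
  omega

/-- if `e` avoids the minimal primes of `J = (l)` and `(l, z)` is primary to the maximal ideal,
then so is `(l, e)` -/
theorem radical_sup_eq {l : List R} {z e : R}
    (hz : (Ideal.ofList l ⊔ Ideal.span {z}).radical = maximalIdeal R)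
    (he : e ∈ maximalIdeal R) (he2 : ∀ P ∈ (Ideal.ofList l).minimalPrimes, e ∉ P) :
    (Ideal.ofList l ⊔ Ideal.span {e}).radical = maximalIdeal R := by
  have hJm : Ideal.ofList l ≤ maximalIdeal R := by
    rw [← hz]
    exact le_sup_left.trans Ideal.le_radical
  refine le_antisymm ?_ ?_
  · refine (Ideal.IsPrime.radical_le_iff inferInstance).2 (sup_le hJm ?_)
    rwa [Ideal.span_singleton_le_iff_mem]
  · rw [Ideal.radical_eq_sInf]
    refine le_sInf ?_
    rintro P ⟨hP, hPp⟩
    by_contra hne
    have hPm : P < maximalIdeal R :=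
      lt_of_le_of_ne (IsLocalRing.le_maximalIdeal hPp.ne_top) (fun h => hne h.ge)
    have hspan : Ideal.span (insert z {r | r ∈ l}) = Ideal.ofList l ⊔ Ideal.span {z} := by
      rw [Ideal.span_insert, sup_comm, Ideal.ofList]
    have hmin : maximalIdeal R ∈ (Ideal.span (insert z {r | r ∈ l})).minimalPrimes := by
      rw [hspan]
      refine ⟨⟨inferInstance, ?_⟩, ?_⟩
      · rw [← hz]; exact Ideal.le_radical
      · rintro Q ⟨hQ, hQ2⟩ _
        rw [← hz]
        exact (hQ.radical_le_iff).2 hQ2
    have hJP : Ideal.ofList l ≤ P := le_sup_left.trans hP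
    have hPmin : P ∈ (Ideal.span {r | r ∈ l}).minimalPrimes := by
      refine Ideal.mem_minimalPrimes_span_of_mem_minimalPrimes_span_insert hPm z {r | r ∈ l} hmin
        {r | r ∈ l} ?_ ?_
      · intro r hr
        exact hJP (Ideal.subset_span hr)
      · intro r hr
        exact Ideal.le_radical (Ideal.subset_span (Set.mem_insert_of_mem _ hr))
    exact he2 P hPmin (hP (Ideal.mem_sup_right (Ideal.mem_span_singleton_self e)))

omit [IsNoetherianRing R] in
/-- exchange of the last element of a regular system of parameters -/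
theorem reg_exchange {J : Ideal R} {u z : R} (hu : ∀ r, u * r ∈ J → r ∈ J)
    (hum : u ∈ maximalIdeal R) (hz : maximalIdeal R ≤ (J ⊔ Ideal.span {z}).radical) :
    ∀ r, z * r ∈ J → r ∈ J := by
  intro r hr
  obtain ⟨n, hn⟩ := hz hum
  obtain ⟨j, hj, s, hs, hjs⟩ := Submodule.mem_sup.1 hn
  obtain ⟨q, rfl⟩ := Ideal.mem_span_singleton'.1 hs
  have h1 : u ^ n * r ∈ J := by
    have : u ^ n * r = j * r + q * (z * r) := by
      linear_combination -r * hjs
    rw [this]
    exact add_mem (Ideal.mul_mem_right _ _ hj) (Ideal.mul_mem_left _ _ hr)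
  clear hn hjs
  induction n with
  | zero => simpa using h1
  | succ n ih =>
    apply ih
    apply hu
    rwa [← mul_assoc, ← pow_succ']

theorem exists_notMem_of_forall_ne {s : Set (Ideal R)} (hs : s.Finite)
    (hp : ∀ P ∈ s, P.IsPrime) (hne : ∀ P ∈ s, P ≠ maximalIdeal R) :
    ∃ e ∈ maximalIdeal R, ∀ P ∈ s, e ∉ P := by
  by_contra hcon
  push Not at hcon
  have hsub : ((maximalIdeal R : Ideal R) : Set R) ⊆ ⋃ P ∈ s, (P : Set R) := by
    intro e he
    obtain ⟨P, hP, heP⟩ := hcon e he
    exact Set.mem_biUnion hP heP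
  obtain ⟨P, hP, hmP⟩ := (Ideal.subset_union_prime_finite (f := fun P : Ideal R => P) hs ⊥ ⊥
    (fun P hP _ _ => hp P hP)).1 hsub
  exact hne P hP (le_antisymm (IsLocalRing.le_maximalIdeal (hp P hP).ne_top) hmP)

/-- In a Noetherian local ring with one regular system of parameters all systems of parameters are
regular sequences. -/
theorem regSeq_of_radical {d : ℕ} (hd : (maximalIdeal R).height = d) (n : ℕ) :
    ∀ es us zs : List R, es.length + n = d → us.length = n → zs.length = n →
      RegSeq (Ideal.ofList es) us →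
      (Ideal.ofList (es ++ us)).radical = maximalIdeal R →
      (Ideal.ofList (es ++ zs)).radical = maximalIdeal R → RegSeq (Ideal.ofList es) zs := by
  induction n with
  | zero =>
    intro es us zs _ _ hzs _ _ _
    rw [List.length_eq_zero_iff] at hzs
    rw [hzs]
    trivial
  | succ n ih =>
    intro es us zs hes hus hzs hreg hu hz
    obtain ⟨us', u, rfl⟩ : ∃ us' u, us = us' ++ [u] := by
      rcases List.eq_nil_or_concat us with h | ⟨l, a, h⟩
      · simp [h] at hus
      · exact ⟨l, a, by simpa using h⟩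
    obtain ⟨zs', z, rfl⟩ : ∃ zs' z, zs = zs' ++ [z] := by
      rcases List.eq_nil_or_concat zs with h | ⟨l, a, h⟩
      · simp [h] at hzs
      · exact ⟨l, a, by simpa using h⟩
    have hus' : us'.length = n := by simpa using hus
    have hzs' : zs'.length = n := by simpa using hzs
    have hu' : (Ideal.ofList (es ++ us') ⊔ Ideal.span {u}).radical = maximalIdeal R := by
      rw [← List.append_assoc, Ideal.ofList_append, Ideal.ofList_singleton] at hu
      exact hu
    have hz' : (Ideal.ofList (es ++ zs') ⊔ Ideal.span {z}).radical = maximalIdeal R := by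
      rw [← List.append_assoc, Ideal.ofList_append, Ideal.ofList_singleton] at hz
      exact hz
    have hne1 : ∀ P ∈ (Ideal.ofList (es ++ us')).minimalPrimes, P ≠ maximalIdeal R := by
      rintro P hP rfl
      exact maximalIdeal_notMem_minimalPrimes hd (by simp; omega) hP
    have hne2 : ∀ P ∈ (Ideal.ofList (es ++ zs')).minimalPrimes, P ≠ maximalIdeal R := by
      rintro P hP rfl
      exact maximalIdeal_notMem_minimalPrimes hd (by simp; omega) hP
    obtain ⟨e, hem, he⟩ := exists_notMem_of_forall_ne
      (s := (Ideal.ofList (es ++ us')).minimalPrimes ∪ (Ideal.ofList (es ++ zs')).minimalPrimes)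
      ((Ideal.finite_minimalPrimes_of_isNoetherianRing R _).union
        (Ideal.finite_minimalPrimes_of_isNoetherianRing R _))
      (by rintro P (hP | hP) <;> exact hP.1.1)
      (by rintro P (hP | hP); exacts [hne1 P hP, hne2 P hP])
    have hue := radical_sup_eq hu' hem (fun P hP => he P (Or.inl hP))
    have hze := radical_sup_eq hz' hem (fun P hP => he P (Or.inr hP))
    have hmem : ∀ {I : Ideal R} {w : R}, I.radical = maximalIdeal R → w ∈ I →
        w ∈ maximalIdeal R := by
      intro I w hI hw
      rw [← hI]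
      exact Ideal.le_radical hw
    have husm : ∀ w ∈ us', w ∈ maximalIdeal R := by
      intro w hw
      refine hmem hu' (Ideal.mem_sup_left (Ideal.subset_span ?_))
      simp [hw]
    have hzsm : ∀ w ∈ zs', w ∈ maximalIdeal R := by
      intro w hw
      refine hmem hz' (Ideal.mem_sup_left (Ideal.subset_span ?_))
      simp [hw]
    have hum : u ∈ maximalIdeal R :=
      hmem hu' (Ideal.mem_sup_right (Ideal.mem_span_singleton_self u))
    -- exchange `u` for `e`
    rw [regSeq_append_singleton, ← Ideal.ofList_append] at hreg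
    have h1 : RegSeq (Ideal.ofList es) (us' ++ [e]) := by
      rw [regSeq_append_singleton, ← Ideal.ofList_append]
      exact ⟨hreg.1, reg_exchange hreg.2 hum hue.ge⟩
    have h2 := (regSeq_cons_iff_append hem husm).2 h1
    have hes' : Ideal.ofList (es ++ [e]) = Ideal.ofList es ⊔ Ideal.span {e} := by
      rw [Ideal.ofList_append, Ideal.ofList_singleton]
    have h3 : RegSeq (Ideal.ofList (es ++ [e])) zs' := by
      refine ih (es ++ [e]) us' zs' (by simp; omega) hus' hzs' ?_ ?_ ?_
      · rw [hes']
        exact h2.2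
      · rw [← hue]
        congr 1
        simp only [Ideal.ofList_append, Ideal.ofList_singleton]
        rw [sup_right_comm]
      · rw [← hze]
        congr 1
        simp only [Ideal.ofList_append, Ideal.ofList_singleton]
        rw [sup_right_comm]
    have h4 : RegSeq (Ideal.ofList es) (e :: zs') := ⟨h2.1, by rw [← hes']; exact h3⟩
    have h5 := (regSeq_cons_iff_append hem hzsm).1 h4
    rw [regSeq_append_singleton, ← Ideal.ofList_append] at h5
    rw [regSeq_append_singleton, ← Ideal.ofList_append]
    exact ⟨h5.1, reg_exchange h5.2 hem hz'.ge⟩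

end CM

section TC

variable {R : Type*} [CommRing R]

/-- tight closedness of an ideal, with an arbitrary nonzero multiplier -/
def TC (I : Ideal R) : Prop :=
  ∀ c w : R, c ≠ 0 → (∃ N : ℕ, ∀ e : ℕ, N ≤ e → c * w ^ (2 ^ e) ∈ bracketPow I (2 ^ e)) → w ∈ I

theorem mul_pow_mem_bracketPow {I I' : Ideal R} {l : R} (h : ∀ i ∈ I, l * i ∈ I') (q : ℕ) {v : R}
    (hv : v ∈ bracketPow I q) : l ^ q * v ∈ bracketPow I' q := by
  refine Submodule.span_induction ?_ ?_ ?_ ?_ hv
  · rintro _ ⟨i, hi, rfl⟩
    simp only
    rw [← mul_pow]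
    exact pow_mem_bracketPow (h i hi) q
  · simp
  · intro x y _ _ hx hy
    rw [mul_add]
    exact add_mem hx hy
  · intro r x _ hx
    rw [smul_eq_mul, mul_left_comm]
    exact Ideal.mul_mem_left _ _ hx

theorem tc_step {J : Ideal R} {u z : R} (hu : ∀ r, u * r ∈ J → r ∈ J)
    (hmem : u ∈ J ⊔ Ideal.span {z}) (htc : TC (J ⊔ Ideal.span {u})) :
    TC (J ⊔ Ideal.span {z}) := by
  rintro c w hc ⟨N, hN⟩
  obtain ⟨j, hj, s, hs, hjs⟩ := Submodule.mem_sup.1 hmem
  obtain ⟨l, rfl⟩ := Ideal.mem_span_singleton'.1 hs
  have hlI : ∀ i ∈ J ⊔ Ideal.span {z}, l * i ∈ J ⊔ Ideal.span {u} := by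
    intro i hi
    obtain ⟨j', hj', s', hs', rfl⟩ := Submodule.mem_sup.1 hi
    obtain ⟨α, rfl⟩ := Ideal.mem_span_singleton'.1 hs'
    have : l * (j' + α * z) = (l * j' - α * j) + α * u := by
      linear_combination α * hjs
    rw [this]
    exact Submodule.add_mem_sup (sub_mem (Ideal.mul_mem_left _ _ hj') (Ideal.mul_mem_left _ _ hj))
      (Ideal.mem_span_singleton'.2 ⟨α, rfl⟩)
  have h1 : l * w ∈ J ⊔ Ideal.span {u} := by
    refine htc c (l * w) hc ⟨N, fun e he => ?_⟩
    have := mul_pow_mem_bracketPow hlI _ (hN e he)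
    rw [mul_pow]
    rwa [mul_left_comm] at this
  obtain ⟨j', hj', s', hs', hjs'⟩ := Submodule.mem_sup.1 h1
  obtain ⟨α, rfl⟩ := Ideal.mem_span_singleton'.1 hs'
  have h2 : l * (w - α * z) ∈ J := by
    have : l * (w - α * z) = j' + α * j := by
      linear_combination -hjs' - α * hjs
    rw [this]
    exact add_mem hj' (Ideal.mul_mem_left _ _ hj)
  have h3 : w - α * z ∈ J := by
    apply hu
    have : u * (w - α * z) = j * (w - α * z) + z * (l * (w - α * z)) := by
      linear_combination -(w - α * z) * hjs
    rw [this]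
    exact add_mem (Ideal.mul_mem_right _ _ hj) (Ideal.mul_mem_left _ _ h2)
  have h4 : w = (w - α * z) + α * z := by ring
  rw [h4]
  exact Submodule.add_mem_sup h3 (Ideal.mem_span_singleton'.2 ⟨α, rfl⟩)

variable [IsLocalRing R] [IsNoetherianRing R]

/-- Tight closedness of all parameter ideals follows from that of the parameter ideals generated
by elements of a rich enough set `T`. -/
theorem tc_of_rich {d : ℕ} (hd : (maximalIdeal R).height = d) {us : List R}
    (hus : us.length = d) (hreg : RegSeq ⊥ us) (hurad : (Ideal.ofList us).radical = maximalIdeal R)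
    (T : Set R)
    (hT : ∀ (N : ℕ) (s : Set (Ideal R)), s.Finite → (∀ P ∈ s, P.IsPrime) →
      (∀ P ∈ s, P ≠ maximalIdeal R) → ∃ e ∈ T, e ∈ maximalIdeal R ^ N ∧ ∀ P ∈ s, e ∉ P)
    (hTC : ∀ es : List R, (∀ e ∈ es, e ∈ T) → TC (Ideal.ofList es)) (n : ℕ) :
    ∀ zs es : List R, zs.length = n → n + es.length = d → (∀ e ∈ es, e ∈ T) →
      (Ideal.ofList (zs ++ es)).radical = maximalIdeal R → TC (Ideal.ofList (zs ++ es)) := by
  induction n with
  | zero =>
    intro zs es hzs _ hes _
    rw [List.length_eq_zero_iff] at hzs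
    rw [hzs]
    exact hTC es hes
  | succ n ih =>
    intro zs es hzs hd' hes hrad
    obtain ⟨zs', z, rfl⟩ : ∃ zs' z, zs = zs' ++ [z] := by
      rcases List.eq_nil_or_concat zs with h | ⟨l, a, h⟩
      · simp [h] at hzs
      · exact ⟨l, a, by simpa using h⟩
    have hzs' : zs'.length = n := by simpa using hzs
    have hJ : ∀ w : R, Ideal.ofList ((zs' ++ [w]) ++ es) =
        Ideal.ofList (zs' ++ es) ⊔ Ideal.span {w} := by
      intro w
      simp only [Ideal.ofList_append, Ideal.ofList_singleton]
      rw [sup_right_comm]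
    have hJ' : ∀ w : R, Ideal.ofList (zs' ++ (w :: es)) =
        Ideal.ofList (zs' ++ es) ⊔ Ideal.span {w} := by
      intro w
      rw [← hJ w]
      simp
    rw [hJ z] at hrad ⊢
    have hne : ∀ P ∈ (Ideal.ofList (zs' ++ es)).minimalPrimes, P ≠ maximalIdeal R := by
      rintro P hP rfl
      exact maximalIdeal_notMem_minimalPrimes hd (by simp; omega) hP
    obtain ⟨N, hN⟩ := Ideal.exists_pow_le_of_le_radical_of_fg hrad.ge
      (IsNoetherian.noetherian (maximalIdeal R))
    obtain ⟨e, heT, heN, he⟩ := hT (max N 1) _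
      (Ideal.finite_minimalPrimes_of_isNoetherianRing R (Ideal.ofList (zs' ++ es)))
      (fun P hP => hP.1.1) hne
    have hem : e ∈ maximalIdeal R := by
      have := Ideal.pow_le_pow_right (I := maximalIdeal R) (le_max_right N 1) heN
      simpa using this
    have heI : e ∈ Ideal.ofList (zs' ++ es) ⊔ Ideal.span {z} :=
      hN (Ideal.pow_le_pow_right (le_max_left N 1) heN)
    have hrad_e := radical_sup_eq hrad hem he
    have htc_e : TC (Ideal.ofList (zs' ++ es) ⊔ Ideal.span {e}) := by
      rw [← hJ' e]
      refine ih zs' (e :: es) hzs' (by simp; omega) ?_ ?_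
      · intro w hw
        rcases List.mem_cons.1 hw with rfl | hw
        · exact heT
        · exact hes w hw
      · rw [hJ' e]
        exact hrad_e
    have hreg_e : ∀ r, e * r ∈ Ideal.ofList (zs' ++ es) → r ∈ Ideal.ofList (zs' ++ es) := by
      have h1 : RegSeq (Ideal.ofList []) ((zs' ++ es) ++ [e]) := by
        refine regSeq_of_radical hd d [] us _ (by simp) hus (by simp; omega) ?_ ?_ ?_
        · simpa using hreg
        · simpa using hurad
        · rw [List.nil_append, Ideal.ofList_append, Ideal.ofList_singleton]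
          exact hrad_e
      rw [regSeq_append_singleton, Ideal.ofList_nil, bot_sup_eq] at h1
      exact h1.2
    exact tc_step hreg_e heI htc_e

end TC

end MP85340c
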