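import Pool.Agent.Lib.MP_85340c_ag.Hyperplane

/-!
# F-rationality does not satisfy the second theorem of Bertini

For an affine scheme `X = Spec R` over `k` and `x₁, …, xₙ ∈ R` consider the morphism
`φ = (1 : x₁ : … : xₙ) : X → ℙⁿ`. The pre-image of the hyperplane
`β₀ X₀ + β₁ X₁ + … + βₙ Xₙ = 0` is `Spec R ⧸ (β₀ + β₁ x₁ + … + βₙ xₙ)`.
-/

namespace Pool.Agent.Results.MP_85340c_ag.FRationalBertiniFails

open MP85340c

universe v

/-- The ideal of the pre-image of the hyperplane `∑ βᵢ Xᵢ = 0` of `ℙⁿ` under the morphism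
`(1 : x₁ : … : xₙ) : Spec R → ℙⁿ`: it is generated by `β₀ + ∑ βᵢ xᵢ`. (The `i`-th coordinate
function `xᵢ₊₁` is written `x i`, `i = 0, …, n - 1`.) -/
def hyperplaneIdeal {k R : Type*} [Field k] [CommRing R] [Algebra k R] {n : ℕ} (x : Fin n → R)
    (β : Fin (n + 1) → k) : Ideal R :=
  Ideal.span {algebraMap k R (β 0) + ∑ i : Fin n, algebraMap k R (β i.succ) * x i}

/-- the coordinate functions `t, a, b, c, x, y` -/
noncomputable def coords (k : Type v) [Field k] : Fin 6 → Ex k :=
  ![Quad.of (tB k), Quad.of (aB k), Quad.b, Quad.of (cB k), Quad.x, Quad.y]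

theorem hyperplaneIdeal_coords (k : Type v) [Field k] (β : Fin 7 → k) :
    hyperplaneIdeal (coords k) β =
      Ideal.span {hyp (β 0) (β 1) (β 2) (β 3) (β 4) (β 5) (β 6)} := by
  rw [hyperplaneIdeal, hyp, Fin.sum_univ_six]
  congr 2
  change algebraMap k (Ex k) (β 0) + (algebraMap k (Ex k) (β 1) * Quad.of (tB k) +
    algebraMap k (Ex k) (β 2) * Quad.of (aB k) + algebraMap k (Ex k) (β 3) * Quad.b +
    algebraMap k (Ex k) (β 4) * Quad.of (cB k) + algebraMap k (Ex k) (β 5) * Quad.x +
    algebraMap k (Ex k) (β 6) * Quad.y) = _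
  ring

theorem adjoin_coords (k : Type v) [Field k] (u : Ex k) (hu : u * coords k 0 = 1) :
    Algebra.adjoin k (insert u (Set.range (coords k))) = ⊤ := by
  set A := Algebra.adjoin k (insert u (Set.range (coords k))) with hA
  have hx : ∀ i, coords k i ∈ A := fun i =>
    Algebra.subset_adjoin (Set.mem_insert_of_mem _ (Set.mem_range_self i))
  have huA : u ∈ A := Algebra.subset_adjoin (Set.mem_insert _ _)
  have hp : ∀ p : MvPolynomial (Fin 3) k,
      (Quad.of (algebraMap (MvPolynomial (Fin 3) k) (Base k) p) : Ex k) ∈ A := by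
    intro p
    induction p using MvPolynomial.induction_on with
    | C r =>
      have : (Quad.of (algebraMap (MvPolynomial (Fin 3) k) (Base k) (MvPolynomial.C r)) : Ex k) =
          algebraMap k (Ex k) r := by
        rw [Quad.algebraMap_apply', IsScalarTower.algebraMap_apply k (MvPolynomial (Fin 3) k)
          (Base k), MvPolynomial.algebraMap_eq]
      rw [this]
      exact A.algebraMap_mem r
    | add p q hp hq =>
      rw [map_add, map_add]
      exact A.add_mem hp hq
    | mul_X p i hp =>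
      rw [map_mul, map_mul]
      refine A.mul_mem hp ?_
      fin_cases i
      · exact hx 0
      · exact hx 1
      · exact hx 3
  have hs : ∀ s : Base k, (Quad.of s : Ex k) ∈ A := by
    intro s
    obtain ⟨n, p, hp'⟩ := IsLocalization.Away.surj
      (MvPolynomial.X 0 : MvPolynomial (Fin 3) k) s
    have h1 : (Quad.of s : Ex k) =
        Quad.of (algebraMap (MvPolynomial (Fin 3) k) (Base k) p) * u ^ n := by
      rw [← hp', map_mul, map_pow]
      have h2 : (Quad.of (algebraMap (MvPolynomial (Fin 3) k) (Base k) (MvPolynomial.X 0)) :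
          Ex k) = coords k 0 := rfl
      rw [h2, mul_assoc, ← mul_pow, mul_comm (coords k 0) u, hu, one_pow, mul_one]
    rw [h1]
    exact A.mul_mem (hp p) (A.pow_mem huA n)
  rw [eq_top_iff]
  intro w _
  rw [Quad.eq_sum w]
  exact A.add_mem (A.add_mem (A.add_mem (hs _) (A.mul_mem (hs _) (hx 2)))
    (A.mul_mem (hs _) (hx 4))) (A.mul_mem (hs _) (hx 5))

/-- **F-rationality does not satisfy the second theorem of Bertini.** For every algebraically
closed field `k` of characteristic two there are a `k`-algebra `R` all of whose local rings are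
F-rational and `x₁, …, x₆ ∈ R` such that

* `x₁` is a unit and `R` is generated as a `k`-algebra by `x₁⁻¹, x₁, …, x₆`, so that the morphism
  `(1 : x₁ : … : x₆) : Spec R → ℙ⁶` is a locally closed immersion;
* the pre-image `Spec R ⧸ (β₀ + β₁ x₁ + … + β₆ x₆)` of the hyperplane `β` is not F-rational for
  any `β` with `β₀ ≠ 0` and `β₁ ≠ 0`;
* hence no dense open set of hyperplanes has F-rational pre-images: for every nonzero polynomial
  `G` in the seven coordinates of `β` there is `β` with `G(β) ≠ 0` whose pre-image is not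
  F-rational. -/
theorem result (k : Type v) [Field k] [IsAlgClosed k] [CharP k 2] :
    ∃ (R : Type v) (_ : CommRing R) (_ : Algebra k R) (x : Fin 6 → R) (u : R),
      IsFRational 2 R ∧
      u * x 0 = 1 ∧
      Algebra.adjoin k (insert u (Set.range x)) = ⊤ ∧
      (∀ β : Fin 7 → k, β 0 ≠ 0 → β 1 ≠ 0 → ¬ IsFRational 2 (R ⧸ hyperplaneIdeal x β)) ∧
      (∀ G : MvPolynomial (Fin 7) k, G ≠ 0 → ∃ β : Fin 7 → k, MvPolynomial.eval β G ≠ 0 ∧
        ¬ IsFRational 2 (R ⧸ hyperplaneIdeal x β)) := by
  have key : ∀ β : Fin 7 → k, β 0 ≠ 0 → β 1 ≠ 0 →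
      ¬ IsFRational 2 (Ex k ⧸ hyperplaneIdeal (coords k) β) := by
    intro β h0 h1
    rw [hyperplaneIdeal_coords]
    exact not_isFRational_quotient _ _ _ _ _ _ _ h0 h1
  obtain ⟨u', hu'⟩ := (isUnit_tB k).exists_left_inv
  have hu : (Quad.of u' : Ex k) * coords k 0 = 1 := by
    change (Quad.of u' : Ex k) * Quad.of (tB k) = 1
    rw [← map_mul, hu', map_one]
  refine ⟨Ex k, inferInstance, inferInstance, coords k, Quad.of u', isFRational_ex k, hu,
    adjoin_coords k _ hu, key, ?_⟩
  intro G hG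
  have hG' : G * (MvPolynomial.X 0 * MvPolynomial.X 1) ≠ 0 :=
    mul_ne_zero hG (mul_ne_zero (MvPolynomial.X_ne_zero 0) (MvPolynomial.X_ne_zero 1))
  have hex : ∃ β : Fin 7 → k, MvPolynomial.eval β (G * (MvPolynomial.X 0 * MvPolynomial.X 1)) ≠
      0 := by
    by_contra hcon
    push Not at hcon
    exact hG' (MvPolynomial.funext fun β => by rw [hcon β, map_zero])
  obtain ⟨β, hβ⟩ := hex
  rw [map_mul, map_mul, MvPolynomial.eval_X, MvPolynomial.eval_X] at hβ
  exact ⟨β, left_ne_zero_of_mul hβ, key β (left_ne_zero_of_mul (right_ne_zero_of_mul hβ))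
    (right_ne_zero_of_mul (right_ne_zero_of_mul hβ))⟩

end Pool.Agent.Results.MP_85340c_ag.FRationalBertiniFails
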