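import Pool.Agent.Lib.MP_85340c_ag.Poly

/-!
# Two-bases at the points of `Quad S t a c` off the line `a = c = 0`
-/

namespace MP85340c

open IsLocalRing

section Count

/-- In a field of characteristic two which has a two-basis, any generating triple is a two-basis. -/
theorem isTwoBasis_of_surj {K : Type*} [Field K] [CharP K 2] {w1 w2 w3 z1 z2 z3 : K}
    (h : IsTwoBasis w1 w2 w3) (hz : ∀ v, v ∈ genSubring z1 z2 z3) : IsTwoBasis z1 z2 z3 := by
  refine ⟨hz, ?_⟩
  -- the coefficient matrix
  let mon : Fin 8 → K := ![1, z1, z2, z3, z1 * z2, z1 * z3, z2 * z3, z1 * z2 * z3]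
  choose m hm using fun i => h.surj (mon i)
  let T : (Fin 8 → K) →ₗ[K] (Fin 8 → K) :=
    { toFun := fun f j => ∑ i, f i * m i j
      map_add' := by
        intro f g; funext j; simp [add_mul, Finset.sum_add_distrib]
      map_smul' := by
        intro r f; funext j; simp [Finset.mul_sum, mul_assoc] }
  have hsum : ∀ (g : Fin 8 → K), (∑ i, g i) ^ 2 = ∑ i, g i ^ 2 := by
    intro g
    have := map_sum (frobenius K 2) g Finset.univ
    simp only [frobenius_def] at this
    exact this
  have hphi : ∀ f : Fin 8 → K, phi z1 z2 z3 f = phi w1 w2 w3 (T f) := by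
    intro f
    have h1 : phi z1 z2 z3 f = ∑ i, f i ^ 2 * mon i := by
      rw [Fin.sum_univ_eight]
      simp [phi, mon]
    rw [h1]
    have h2 : ∀ i, f i ^ 2 * mon i = phi w1 w2 w3 (fun j => f i * m i j) := by
      intro i
      rw [← hm i]
      simp only [phi]
      ring
    simp only [h2]
    simp only [phi]
    rw [Finset.sum_add_distrib, Finset.sum_add_distrib, Finset.sum_add_distrib,
      Finset.sum_add_distrib, Finset.sum_add_distrib, Finset.sum_add_distrib,
      Finset.sum_add_distrib]
    simp only [← Finset.sum_mul, ← hsum]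
    rfl
  have hsurj : Function.Surjective T := by
    intro g
    obtain ⟨f, hf⟩ := hz (phi w1 w2 w3 g)
    refine ⟨f, ?_⟩
    rw [hphi] at hf
    exact h.inj' hf
  have hinj : Function.Injective T := LinearMap.injective_iff_surjective.2 hsurj
  intro f hf
  rw [hphi] at hf
  have h1 := h.inj _ hf
  apply hinj
  rw [h1, map_zero]

/-- the same for a domain whose fraction field has a two-basis -/
theorem isTwoBasis_of_fraction {L K : Type*} [CommRing L] [IsDomain L] [CharP L 2] [Field K]
    [CharP K 2] [Algebra L K] [IsFractionRing L K] {w1 w2 w3 : K} {z1 z2 z3 : L}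
    (h : IsTwoBasis w1 w2 w3) (hz : ∀ v, v ∈ genSubring z1 z2 z3) : IsTwoBasis z1 z2 z3 := by
  have hK : IsTwoBasis (algebraMap L K z1) (algebraMap L K z2) (algebraMap L K z3) := by
    refine isTwoBasis_of_surj h ?_
    refine genSubring_eq_top_of_localization (nonZeroDivisors L) ?_
    intro r
    obtain ⟨f, rfl⟩ := hz r
    exact ⟨_, (map_phi z1 z2 z3 f).symm⟩
  refine ⟨hz, ?_⟩
  intro f hf
  have h1 : phi (algebraMap L K z1) (algebraMap L K z2) (algebraMap L K z3)
      (fun i => algebraMap L K (f i)) = 0 := by
    rw [← map_phi, hf, map_zero]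
  have h2 := hK.inj _ h1
  funext i
  have h3 := congrFun h2 i
  exact (IsFractionRing.injective L K) (by simpa using h3)

end Count

theorem IsTwoBasis.z1_ne_zero {L : Type*} [CommRing L] [Nontrivial L] {z1 z2 z3 : L}
    (h : IsTwoBasis z1 z2 z3) : z1 ≠ 0 := by
  intro h0
  have := h.inj ![0, 1, 0, 0, 0, 0, 0, 0] (by simp [phi, h0])
  simpa using congrFun this 1

theorem IsTwoBasis.z2_ne_zero {L : Type*} [CommRing L] [Nontrivial L] {z1 z2 z3 : L}
    (h : IsTwoBasis z1 z2 z3) : z2 ≠ 0 := by
  intro h0
  have := h.inj ![0, 0, 1, 0, 0, 0, 0, 0] (by simp [phi, h0])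
  simpa using congrFun this 2

theorem IsTwoBasis.z3_ne_zero {L : Type*} [CommRing L] [Nontrivial L] {z1 z2 z3 : L}
    (h : IsTwoBasis z1 z2 z3) : z3 ≠ 0 := by
  intro h0
  have := h.inj ![0, 0, 0, 1, 0, 0, 0, 0] (by simp [phi, h0])
  simpa using congrFun this 3

namespace Quad

variable {S : Type*} [CommRing S] [CharP S 2] {t a c : S}

/-- independence of `1, a, b, a * b` over the squares -/
theorem core_inj [IsDomain S] (h : IsTwoBasis t a c) (p q r s : Quad S t a c)
    (h0 : p.sqA + a * q.sqA + a * c * r.sqB + a * (a * c) * s.sqB = 0)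
    (h1 : p.sqB + a * q.sqB + r.sqA + a * s.sqA = 0) : p = 0 ∧ q = 0 ∧ r = 0 ∧ s = 0 := by
  have e0 : phi t a c ![p.w0 + a * c * r.w3, a * c * r.w2, q.w0 + a * c * s.w3,
      a * q.w1 + a * a * s.w2, a * c * s.w2, a * c * s.w3, p.w1 + a * r.w2, c * r.w3] = 0 := by
    rw [← h0]
    simp [phi, sqA, sqB, CharTwo.add_sq]
    ring
  have e1 : phi t a c ![a * p.w2 + r.w0, c * p.w3, a * q.w2 + s.w0, a * q.w3 + a * s.w1,
      c * q.w3, a * q.w2, p.w3 + r.w1, p.w2] = 0 := by
    rw [← h1]
    simp [phi, sqA, sqB, CharTwo.add_sq]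
    ring
  have ha := h.z2_ne_zero
  have hc := h.z3_ne_zero
  have hac : a * c ≠ 0 := mul_ne_zero ha hc
  have g0 := h.inj _ e0
  have g1 := h.inj _ e1
  have a0 : p.w0 + a * c * r.w3 = 0 := congrFun g0 0
  have a1 : a * c * r.w2 = 0 := congrFun g0 1
  have a2 : q.w0 + a * c * s.w3 = 0 := congrFun g0 2
  have a3 : a * q.w1 + a * a * s.w2 = 0 := congrFun g0 3
  have a4 : a * c * s.w2 = 0 := congrFun g0 4
  have a5 : a * c * s.w3 = 0 := congrFun g0 5
  have a6 : p.w1 + a * r.w2 = 0 := congrFun g0 6
  have a7 : c * r.w3 = 0 := congrFun g0 7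
  have b0 : a * p.w2 + r.w0 = 0 := congrFun g1 0
  have b1 : c * p.w3 = 0 := congrFun g1 1
  have b2 : a * q.w2 + s.w0 = 0 := congrFun g1 2
  have b3 : a * q.w3 + a * s.w1 = 0 := congrFun g1 3
  have b4 : c * q.w3 = 0 := congrFun g1 4
  have b5 : a * q.w2 = 0 := congrFun g1 5
  have b6 : p.w3 + r.w1 = 0 := congrFun g1 6
  have b7 : p.w2 = 0 := congrFun g1 7
  have r3 : r.w3 = 0 := (mul_eq_zero.1 a7).resolve_left hc
  have r2 : r.w2 = 0 := (mul_eq_zero.1 a1).resolve_left hac
  have s2 : s.w2 = 0 := (mul_eq_zero.1 a4).resolve_left hac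
  have s3 : s.w3 = 0 := (mul_eq_zero.1 a5).resolve_left hac
  have p3 : p.w3 = 0 := (mul_eq_zero.1 b1).resolve_left hc
  have q3 : q.w3 = 0 := (mul_eq_zero.1 b4).resolve_left hc
  have q2 : q.w2 = 0 := (mul_eq_zero.1 b5).resolve_left ha
  have q1 : q.w1 = 0 := by
    rw [s2] at a3
    exact (mul_eq_zero.1 (by simpa using a3)).resolve_left ha
  have s1 : s.w1 = 0 := by
    rw [q3] at b3
    exact (mul_eq_zero.1 (by simpa using b3)).resolve_left ha
  refine ⟨?_, ?_, ?_, ?_⟩
  · ext
    · simpa [r3] using a0
    · simpa [r2] using a6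
    · exact b7
    · exact p3
  · ext
    · simpa [s3] using a2
    · exact q1
    · exact q2
    · exact q3
  · ext
    · simpa [b7] using b0
    · simpa [p3] using b6
    · exact r2
    · exact r3
  · ext
    · simpa [q2] using b2
    · exact s1
    · exact s2
    · exact s3

theorem phi_eq (f : Fin 8 → Quad S t a c) : phi (of a) b x f =
    ⟨(f 0).sqA + a * (f 1).sqA + a * c * (f 2).sqB + a * (a * c) * (f 4).sqB,
     (f 0).sqB + a * (f 1).sqB + (f 2).sqA + a * (f 4).sqA,
     (f 3).sqA + a * (f 5).sqA + a * c * (f 6).sqB + a * (a * c) * (f 7).sqB,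
     a * ((f 3).sqB + a * (f 5).sqB + (f 6).sqA + a * (f 7).sqA)⟩ := by
  simp only [phi, sq_eq]
  ext <;> simp <;> ring

/-- the triple `a, b, x` is independent over the squares -/
theorem phi_abx_inj [IsDomain S] (h : IsTwoBasis t a c) (f : Fin 8 → Quad S t a c)
    (hf : phi (of a) b x f = 0) : f = 0 := by
  rw [phi_eq] at hf
  have h0 := congrArg Quad.w0 hf
  have h1 := congrArg Quad.w1 hf
  have h2 := congrArg Quad.w2 hf
  have h3 := congrArg Quad.w3 hf
  simp only [zero_w0, zero_w1, zero_w2, zero_w3] at h0 h1 h2 h3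
  have h3' := (mul_eq_zero.1 h3).resolve_left h.z2_ne_zero
  obtain ⟨g0, g1, g2, g4⟩ := core_inj h _ _ _ _ h0 h1
  obtain ⟨g3, g5, g6, g7⟩ := core_inj h _ _ _ _ h2 h3'
  funext i
  fin_cases i <;> assumption

/-- If the images of `t, a, c, b, x, y` are in the subring then everything is. -/
theorem genSubring_eq_top {L : Type*} [CommRing L] [CharP L 2] [Algebra (Quad S t a c) L]
    (W : Submonoid (Quad S t a c)) [IsLocalization W L] (h : IsTwoBasis t a c) {z1 z2 z3 : L}
    (ht : algebraMap (Quad S t a c) L (of t) ∈ genSubring z1 z2 z3)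
    (ha : algebraMap (Quad S t a c) L (of a) ∈ genSubring z1 z2 z3)
    (hc : algebraMap (Quad S t a c) L (of c) ∈ genSubring z1 z2 z3)
    (hb : algebraMap (Quad S t a c) L b ∈ genSubring z1 z2 z3)
    (hx : algebraMap (Quad S t a c) L x ∈ genSubring z1 z2 z3)
    (hy : algebraMap (Quad S t a c) L y ∈ genSubring z1 z2 z3) (v : L) :
    v ∈ genSubring z1 z2 z3 := by
  refine genSubring_eq_top_of_localization W ?_ v
  have hS : ∀ s : S, algebraMap (Quad S t a c) L (of s) ∈ genSubring z1 z2 z3 := by
    intro s
    obtain ⟨f, rfl⟩ := h.surj s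
    have hsq : ∀ i, (algebraMap (Quad S t a c) L (of (f i))) ^ 2 ∈ genSubring z1 z2 z3 :=
      fun i => sq_mem_genSubring _ _ _ _
    simp only [phi, map_add, map_mul, map_pow]
    exact add_mem (add_mem (add_mem (add_mem (add_mem (add_mem (add_mem (hsq 0)
      (mul_mem (hsq 1) ht)) (mul_mem (hsq 2) ha)) (mul_mem (hsq 3) hc))
      (mul_mem (hsq 4) (mul_mem ht ha))) (mul_mem (hsq 5) (mul_mem ht hc)))
      (mul_mem (hsq 6) (mul_mem ha hc))) (mul_mem (hsq 7) (mul_mem (mul_mem ht ha) hc))
  intro r
  rw [eq_sum r, map_add, map_add, map_add, map_mul, map_mul, map_mul]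
  exact add_mem (add_mem (add_mem (hS _) (mul_mem (hS _) hb)) (mul_mem (hS _) hx))
    (mul_mem (hS _) hy)

/-- the fraction field of `Quad S t a c` has the two-basis `a, b, x` -/
theorem isTwoBasis_fractionField [IsDomain S] [IsDomain (Quad S t a c)] (h : IsTwoBasis t a c)
    {K : Type*} [Field K] [CharP K 2] [Algebra (Quad S t a c) K]
    [IsFractionRing (Quad S t a c) K] :
    IsTwoBasis (algebraMap (Quad S t a c) K (of a)) (algebraMap (Quad S t a c) K b)
      (algebraMap (Quad S t a c) K x) := by
  constructor
  · set f := algebraMap (Quad S t a c) K with hf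
    have hfinj : Function.Injective f := IsFractionRing.injective _ _
    have hne : ∀ w : Quad S t a c, w ≠ 0 → f w ≠ 0 := fun w hw h0 =>
      hw (hfinj (by rw [h0, map_zero]))
    have hane : f (of a) ≠ 0 := hne _ (fun h0 => h.z2_ne_zero (by
      simpa using congrArg Quad.w0 h0))
    have hbne : f b ≠ 0 := hne _ (fun h0 => one_ne_zero (α := S) (by
      simpa using congrArg Quad.w1 h0))
    have hbb : f b * f b = f (of a) * f (of c) := by
      rw [← map_mul, b_sq, map_mul, map_mul]
    have hbx : f b * f x = f (of a) * f y := by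
      rw [← map_mul, b_x, map_mul]
    have hxx : f x * f x = f (of a) * (f (of a) + f (of t) * f (of c)) * f b := by
      rw [← map_mul, x_sq]; simp only [map_mul, map_add]
    have ha : f (of a) ∈ genSubring (f (of a)) (f b) (f x) := z1_mem_genSubring _ _ _
    have hb : f b ∈ genSubring (f (of a)) (f b) (f x) := z2_mem_genSubring _ _ _
    have hx : f x ∈ genSubring (f (of a)) (f b) (f x) := z3_mem_genSubring _ _ _
    have hia : (f (of a))⁻¹ ∈ genSubring (f (of a)) (f b) (f x) :=
      inv_mem_genSubring ha (inv_mul_cancel₀ hane)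
    have hib : (f b)⁻¹ ∈ genSubring (f (of a)) (f b) (f x) :=
      inv_mem_genSubring hb (inv_mul_cancel₀ hbne)
    have hc' : f (of c) = f b * f b * (f (of a))⁻¹ := by
      field_simp
      linear_combination -hbb
    have hc : f (of c) ∈ genSubring (f (of a)) (f b) (f x) := by
      rw [hc']; exact mul_mem (mul_mem hb hb) hia
    have hy : f y ∈ genSubring (f (of a)) (f b) (f x) := by
      have : f y = f b * f x * (f (of a))⁻¹ := by
        field_simp
        linear_combination -hbx
      rw [this]; exact mul_mem (mul_mem hb hx) hia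
    have hcne : f (of c) ≠ 0 := by
      rw [hc']
      exact mul_ne_zero (mul_ne_zero hbne hbne) (inv_ne_zero hane)
    have hic : (f (of c))⁻¹ ∈ genSubring (f (of a)) (f b) (f x) :=
      inv_mem_genSubring hc (inv_mul_cancel₀ hcne)
    have ht : f (of t) ∈ genSubring (f (of a)) (f b) (f x) := by
      have : f (of t) = (f x * f x * (f (of a))⁻¹ * (f b)⁻¹ - f (of a)) * (f (of c))⁻¹ := by
        field_simp
        linear_combination -hxx
      rw [this]
      exact mul_mem (sub_mem (mul_mem (mul_mem (mul_mem hx hx) hia) hib) ha) hic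
    exact genSubring_eq_top (nonZeroDivisors (Quad S t a c)) h ht ha hc hb hx hy
  · exact phi_inj_of_localization (nonZeroDivisors (Quad S t a c)) le_rfl (phi_abx_inj h)

/-- At a prime of `Quad S t a c` not containing both `a` and `c` the local ring is generated by
three elements over its squares. -/
theorem exists_gen_off [IsDomain S] (h : IsTwoBasis t a c)
    (htu : IsUnit t) (Q : Ideal (Quad S t a c)) [Q.IsPrime]
    (hQ : ¬ ((of a : Quad S t a c) ∈ Q ∧ (of c : Quad S t a c) ∈ Q))
    {L : Type*} [CommRing L] [CharP L 2] [Algebra (Quad S t a c) L]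
    [IsLocalization.AtPrime L Q] : ∃ z1 z2 z3 : L, ∀ v, v ∈ genSubring z1 z2 z3 := by
  set f := algebraMap (Quad S t a c) L with hf
  have hbb : f b * f b = f (of a) * f (of c) := by
    rw [← map_mul, b_sq, map_mul, map_mul]
  have hbx : f b * f x = f (of a) * f y := by
    rw [← map_mul, b_x, map_mul]
  have hby : f b * f y = f (of c) * f x := by
    rw [← map_mul, b_y, map_mul]
  have hxx : f x * f x = f (of a) * (f (of a) + f (of t) * f (of c)) * f b := by
    rw [← map_mul, x_sq]; simp only [map_mul, map_add]
  have hyy : f y * f y = f (of c) * (f (of a) + f (of t) * f (of c)) * f b := by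
    rw [← map_mul, y_sq]; simp only [map_mul, map_add]
  have htu' : IsUnit (f (of t)) := (htu.map (of : S →+* Quad S t a c)).map f
  obtain ⟨ti, hti⟩ := htu'.exists_left_inv
  have hunit : ∀ w : Quad S t a c, w ∉ Q → ∃ u : L, u * f w = 1 := fun w hw =>
    (IsLocalization.map_units L (⟨w, hw⟩ : Q.primeCompl)).exists_left_inv
  set e : L := f (of a) + f (of t) * f (of c) with he
  by_cases haQ : (of a : Quad S t a c) ∈ Q
  · -- then `c` is a unit
    have hcQ : (of c : Quad S t a c) ∉ Q := fun h' => hQ ⟨haQ, h'⟩
    obtain ⟨ci, hci⟩ := hunit _ hcQ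
    have heQ : (of a + of t * of c : Quad S t a c) ∉ Q := by
      intro h'
      have h1 : (of t * of c : Quad S t a c) ∈ Q := by
        have := sub_mem h' haQ
        simpa using this
      rcases (inferInstance : Q.IsPrime).mem_or_mem h1 with h2 | h2
      · exact (inferInstance : Q.IsPrime).ne_top
          (Ideal.eq_top_of_isUnit_mem _ h2 (htu.map _))
      · exact hcQ h2
    obtain ⟨ei, hei⟩ := hunit _ heQ
    have hei' : ei * e = 1 := by
      rw [← hei, he]; simp only [map_add, map_mul]
    -- `ρ = b / c`, `ε = y / c`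
    set ρ : L := f b * ci with hρ
    set ε : L := f y * ci with hε
    refine ⟨f (of t), ε, e, ?_⟩
    have ht : f (of t) ∈ genSubring (f (of t)) ε e := z1_mem_genSubring _ _ _
    have hεm : ε ∈ genSubring (f (of t)) ε e := z2_mem_genSubring _ _ _
    have hem : e ∈ genSubring (f (of t)) ε e := z3_mem_genSubring _ _ _
    have heim : ei ∈ genSubring (f (of t)) ε e := inv_mem_genSubring hem hei'
    have hρe : ρ = ε * ε * ei := by
      have h1 : ε * ε = ρ * e := by
        rw [hε, hρ]
        linear_combination ci ^ 2 * hyy + (f b * ci * e) * hci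
      rw [h1]
      linear_combination -ρ * hei'
    have hρm : ρ ∈ genSubring (f (of t)) ε e := by
      rw [hρe]; exact mul_mem (mul_mem hεm hεm) heim
    have hac : f (of a) = f (of c) * (ρ * ρ) := by
      rw [hρ]
      linear_combination -(ci * ci * f (of c)) * hbb -
        (f (of a) + f (of a) * ci * f (of c)) * hci
    have hce : f (of c) * (ρ * ρ + f (of t)) = e := by
      rw [he, hac]; ring
    have hu : (ei * f (of c)) * (ρ * ρ + f (of t)) = 1 := by
      linear_combination ei * hce + hei'
    have hcm : f (of c) ∈ genSubring (f (of t)) ε e := by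
      have h1 : ei * f (of c) ∈ genSubring (f (of t)) ε e :=
        inv_mem_genSubring (add_mem (mul_mem hρm hρm) ht) hu
      have h2 : f (of c) = e * (ei * f (of c)) := by
        linear_combination -(f (of c)) * hei'
      rw [h2]
      exact mul_mem hem h1
    have ham : f (of a) ∈ genSubring (f (of t)) ε e := by
      rw [hac]; exact mul_mem hcm (mul_mem hρm hρm)
    have hbm : f b ∈ genSubring (f (of t)) ε e := by
      have : f b = f (of c) * ρ := by
        rw [hρ]; linear_combination -(f b) * hci
      rw [this]; exact mul_mem hcm hρm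
    have hym : f y ∈ genSubring (f (of t)) ε e := by
      have : f y = f (of c) * ε := by
        rw [hε]; linear_combination -(f y) * hci
      rw [this]; exact mul_mem hcm hεm
    have hxm : f x ∈ genSubring (f (of t)) ε e := by
      have : f x = ρ * f y := by
        rw [hρ]; linear_combination -(f x) * hci - ci * hby
      rw [this]; exact mul_mem hρm hym
    exact genSubring_eq_top Q.primeCompl h ht ham hcm hbm hxm hym
  · obtain ⟨ai, hai⟩ := hunit _ haQ
    -- `σ = b / a`, `ε = x / a`
    set σ : L := f b * ai with hσ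
    set ε : L := f x * ai with hε
    have hca : f (of c) = f (of a) * (σ * σ) := by
      rw [hσ]
      linear_combination -(ai * ai * f (of a)) * hbb -
        (f (of c) + f (of c) * ai * f (of a)) * hai
    have hba : f b = f (of a) * σ := by
      rw [hσ]; linear_combination -(f b) * hai
    have hxa : f x = f (of a) * ε := by
      rw [hε]; linear_combination -(f x) * hai
    have hyσ : f y = σ * f x := by
      rw [hσ]; linear_combination -(f y) * hai - ai * hbx
    have hεσ : ε * ε = σ * e := by
      rw [hε, hσ]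
      linear_combination ai ^ 2 * hxx + (f b * ai * e) * hai
    by_cases heQ : (of a + of t * of c : Quad S t a c) ∈ Q
    · -- then `c` and `b` are units
      have hbQ : (b : Quad S t a c) ∉ Q := by
        intro hb'
        have h1 : (of a * of c : Quad S t a c) ∈ Q := by
          rw [← map_mul, ← b_sq]
          exact Ideal.mul_mem_left _ _ hb'
        rcases (inferInstance : Q.IsPrime).mem_or_mem h1 with h2 | h2
        · exact haQ h2
        · apply haQ
          have h3 := sub_mem heQ (Ideal.mul_mem_left _ (of t) h2)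
          simpa using h3
      obtain ⟨bi, hbi⟩ := hunit _ hbQ
      refine ⟨f (of a), σ, ε, ?_⟩
      have ham : f (of a) ∈ genSubring (f (of a)) σ ε := z1_mem_genSubring _ _ _
      have hσm : σ ∈ genSubring (f (of a)) σ ε := z2_mem_genSubring _ _ _
      have hεm : ε ∈ genSubring (f (of a)) σ ε := z3_mem_genSubring _ _ _
      have haim : ai ∈ genSubring (f (of a)) σ ε := inv_mem_genSubring ham hai
      have hσi : (bi * f (of a)) * σ = 1 := by
        rw [hσ]
        linear_combination (f b * bi) * hai + hbi
      have hσim : bi * f (of a) ∈ genSubring (f (of a)) σ ε := inv_mem_genSubring hσm hσi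
      have hem : e ∈ genSubring (f (of a)) σ ε := by
        have : e = ε * ε * (bi * f (of a)) := by
          rw [hεσ]
          linear_combination -e * hσi
        rw [this]; exact mul_mem (mul_mem hεm hεm) hσim
      have hcm : f (of c) ∈ genSubring (f (of a)) σ ε := by
        rw [hca]; exact mul_mem ham (mul_mem hσm hσm)
      have htm : f (of t) ∈ genSubring (f (of a)) σ ε := by
        -- `t = (e - a) / c`
        have : f (of t) = (e - f (of a)) * (ai * (bi * f (of a)) * (bi * f (of a))) := by
          have h1 : (e - f (of a)) = f (of t) * f (of c) := by rw [he]; ring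
          rw [h1, hca]
          have h2 : f (of a) * (σ * σ) * (ai * (bi * f (of a)) * (bi * f (of a))) = 1 := by
            linear_combination (σ * σ * (bi * f (of a)) * (bi * f (of a))) * hai +
              (1 + (bi * f (of a)) * σ) * hσi
          linear_combination -(f (of t)) * h2
        rw [this]
        exact mul_mem (sub_mem hem ham) (mul_mem (mul_mem haim hσim) hσim)
      have hbm : f b ∈ genSubring (f (of a)) σ ε := by
        rw [hba]; exact mul_mem ham hσm
      have hxm : f x ∈ genSubring (f (of a)) σ ε := by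
        rw [hxa]; exact mul_mem ham hεm
      have hym : f y ∈ genSubring (f (of a)) σ ε := by
        rw [hyσ]; exact mul_mem hσm hxm
      exact genSubring_eq_top Q.primeCompl h htm ham hcm hbm hxm hym
    · obtain ⟨ei, hei⟩ := hunit _ heQ
      have hei' : ei * e = 1 := by
        rw [← hei, he]; simp only [map_add, map_mul]
      refine ⟨f (of t), ε, e, ?_⟩
      have ht : f (of t) ∈ genSubring (f (of t)) ε e := z1_mem_genSubring _ _ _
      have hεm : ε ∈ genSubring (f (of t)) ε e := z2_mem_genSubring _ _ _
      have hem : e ∈ genSubring (f (of t)) ε e := z3_mem_genSubring _ _ _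
      have heim : ei ∈ genSubring (f (of t)) ε e := inv_mem_genSubring hem hei'
      have hσm : σ ∈ genSubring (f (of t)) ε e := by
        have : σ = ε * ε * ei := by
          rw [hεσ]
          linear_combination -σ * hei'
        rw [this]; exact mul_mem (mul_mem hεm hεm) heim
      have hae : f (of a) * (1 + f (of t) * (σ * σ)) = e := by
        rw [he, hca]; ring
      have hu : (ei * f (of a)) * (1 + f (of t) * (σ * σ)) = 1 := by
        linear_combination ei * hae + hei'
      have ham : f (of a) ∈ genSubring (f (of t)) ε e := by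
        have h1 : ei * f (of a) ∈ genSubring (f (of t)) ε e :=
          inv_mem_genSubring (add_mem (one_mem _) (mul_mem ht (mul_mem hσm hσm))) hu
        have h2 : f (of a) = e * (ei * f (of a)) := by
          linear_combination -(f (of a)) * hei'
        rw [h2]
        exact mul_mem hem h1
      have hcm : f (of c) ∈ genSubring (f (of t)) ε e := by
        rw [hca]; exact mul_mem ham (mul_mem hσm hσm)
      have hbm : f b ∈ genSubring (f (of t)) ε e := by
        rw [hba]; exact mul_mem ham hσm
      have hxm : f x ∈ genSubring (f (of t)) ε e := by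
        rw [hxa]; exact mul_mem ham hεm
      have hym : f y ∈ genSubring (f (of t)) ε e := by
        rw [hyσ]; exact mul_mem hσm hxm
      exact genSubring_eq_top Q.primeCompl h ht ham hcm hbm hxm hym

/-- At a prime of `Quad S t a c` not containing both `a` and `c` the local ring is F-rational. -/
theorem isFRationalLocal_off [IsDomain S] [IsNoetherianRing S] (h : IsTwoBasis t a c)
    (htu : IsUnit t) (Q : Ideal (Quad S t a c)) [Q.IsPrime]
    (hQ : ¬ ((of a : Quad S t a c) ∈ Q ∧ (of c : Quad S t a c) ∈ Q)) :
    IsFRationalLocal 2 (Localization.AtPrime Q) := by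
  have hdom : IsDomain (Quad S t a c) := isDomain h
  have hLdom : IsDomain (Localization.AtPrime Q) :=
    IsLocalization.isDomain_localization (Ideal.primeCompl_le_nonZeroDivisors Q)
  have hinj : Function.Injective (algebraMap (Quad S t a c) (Localization.AtPrime Q)) :=
    IsLocalization.injective (Localization.AtPrime Q) (Ideal.primeCompl_le_nonZeroDivisors Q)
  have hchar : CharP (Localization.AtPrime Q) 2 := charP_of_injective_ringHom hinj 2
  have hK := isTwoBasis_fractionField (K := FractionRing (Quad S t a c)) h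
  obtain ⟨z1, z2, z3, hz⟩ := exists_gen_off h htu Q hQ (L := Localization.AtPrime Q)
  exact isFRationalLocal_of_isTwoBasis
    (isTwoBasis_of_fraction (K := FractionRing (Quad S t a c)) hK hz)

end Quad

end MP85340c
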