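import Mathlib

/-!
# Tight closure and F-rationality

Definitions used in the hand-in for `MP_85340c_ag`.
-/

namespace MP85340c

open IsLocalRing

/-- `I^{[q]}`: the ideal generated by the `q`-th powers of the elements of `I`. -/
def bracketPow {A : Type*} [CommRing A] (I : Ideal A) (q : ℕ) : Ideal A :=
  Ideal.span ((fun z => z ^ q) '' (I : Set A))

/-- The tight closure `I^*` of an ideal `I` in a ring of characteristic `p`: all `z` such that for
some `c` lying in no minimal prime, `c * z ^ q ∈ I^{[q]}` for all large powers `q` of `p`. -/
def tightClosure {A : Type*} [CommRing A] (p : ℕ) (I : Ideal A) : Set A :=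
  {z | ∃ c : A, (∀ P ∈ minimalPrimes A, c ∉ P) ∧
    ∃ N : ℕ, ∀ e : ℕ, N ≤ e → c * z ^ (p ^ e) ∈ bracketPow I (p ^ e)}

/-- An ideal of a local ring `A` generated by a full system of parameters: `I` is generated by
`dim A` elements and its radical is the maximal ideal. -/
def IsParameterIdeal {A : Type*} [CommRing A] [IsLocalRing A] (I : Ideal A) : Prop :=
  ∃ (d : ℕ) (z : Fin d → A), ringKrullDim A = d ∧ I = Ideal.span (Set.range z) ∧
    I.radical = maximalIdeal A

/-- A local ring of characteristic `p` is F-rational if every ideal generated by a full system of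
parameters equals its tight closure. -/
def IsFRationalLocal (p : ℕ) (A : Type*) [CommRing A] [IsLocalRing A] : Prop :=
  ∀ I : Ideal A, IsParameterIdeal I → tightClosure p I = (I : Set A)

/-- A ring (equivalently its spectrum) is F-rational if all its local rings are. -/
def IsFRational (p : ℕ) (R : Type*) [CommRing R] : Prop :=
  ∀ (P : Ideal R) [P.IsPrime], IsFRationalLocal p (Localization.AtPrime P)

end MP85340c
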