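import Pool.Agent.Lib.MP_85340c_ag.OnLine

/-!
# The example over an algebraically closed field of characteristic two
-/

namespace MP85340c

open IsLocalRing

section RegPoly

variable {k : Type*} [Field k]

open MvPolynomial

/-- reduction modulo `X 1, X 2` -/
noncomputable def redHom (k : Type*) [Field k] : MvPolynomial (Fin 3) k →ₐ[k] Polynomial k :=
  aeval ![Polynomial.X, 0, 0]

/-- the section `Polynomial.X ↦ X 0` -/
noncomputable def secHom (k : Type*) [Field k] : Polynomial k →ₐ[k] MvPolynomial (Fin 3) k :=
  Polynomial.aeval (X 0)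

theorem redHom_secHom (p : Polynomial k) : redHom k (secHom k p) = p := by
  have : (redHom k).comp (secHom k) = AlgHom.id k _ := by
    apply Polynomial.algHom_ext
    simp [redHom, secHom]
  exact DFunLike.congr_fun this p

theorem sub_mem_I12 (p : MvPolynomial (Fin 3) k) :
    p - secHom k (redHom k p) ∈ (Ideal.span {X 1} ⊔ Ideal.span {X 2} : Ideal (MvPolynomial (Fin 3) k)) := by
  induction p using MvPolynomial.induction_on with
  | C a => simp [redHom, secHom]
  | add p q hp hq =>
    have : p + q - secHom k (redHom k (p + q)) =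
        (p - secHom k (redHom k p)) + (q - secHom k (redHom k q)) := by
      rw [map_add, map_add]; ring
    rw [this]
    exact add_mem hp hq
  | mul_X p i hp =>
    have h1 : (X 1 : MvPolynomial (Fin 3) k) ∈
        (Ideal.span {X 1} ⊔ Ideal.span {X 2} : Ideal (MvPolynomial (Fin 3) k)) :=
      Ideal.mem_sup_left (Ideal.mem_span_singleton_self _)
    have h2 : (X 2 : MvPolynomial (Fin 3) k) ∈
        (Ideal.span {X 1} ⊔ Ideal.span {X 2} : Ideal (MvPolynomial (Fin 3) k)) :=
      Ideal.mem_sup_right (Ideal.mem_span_singleton_self _)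
    fin_cases i
    · have : p * X 0 - secHom k (redHom k (p * X 0)) = (p - secHom k (redHom k p)) * X 0 := by
        rw [map_mul, map_mul]
        have : secHom k (redHom k (X 0)) = X 0 := by simp [redHom, secHom]
        rw [this]; ring
      simp only [Fin.zero_eta]
      rw [this]
      exact Ideal.mul_mem_right _ _ hp
    · have : redHom k (X 1) = 0 := by simp [redHom]
      simp only [Fin.mk_one, map_mul, this, mul_zero, map_zero, sub_zero]
      exact Ideal.mul_mem_left _ _ h1
    · have : redHom k (X 2) = 0 := by simp [redHom]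
      simp only [Fin.reduceFinMk, map_mul, this, mul_zero, map_zero, sub_zero]
      exact Ideal.mul_mem_left _ _ h2

theorem mem_I12_iff (p : MvPolynomial (Fin 3) k) :
    p ∈ (Ideal.span {X 1} ⊔ Ideal.span {X 2} : Ideal (MvPolynomial (Fin 3) k)) ↔
      redHom k p = 0 := by
  constructor
  · intro hp
    have hle : (Ideal.span {X 1} ⊔ Ideal.span {X 2} : Ideal (MvPolynomial (Fin 3) k)) ≤
        RingHom.ker (redHom k) := by
      refine sup_le ?_ ?_ <;> rw [Ideal.span_singleton_le_iff_mem, RingHom.mem_ker] <;>
        simp [redHom]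
    exact hle hp
  · intro hp
    have := sub_mem_I12 p
    rwa [hp, map_zero, sub_zero] at this

theorem exists_regSeq_poly (n : Ideal (MvPolynomial (Fin 3) k)) [hn : n.IsPrime]
    (h1 : X 1 ∈ n) (h2 : X 2 ∈ n) :
    ∃ us : List (MvPolynomial (Fin 3) k), RegSeq ⊥ us ∧ Ideal.ofList us = n ∧
      (∀ c0 : k, X 0 - C c0 ∈ n → us.length = 3) := by
  have r1 : ∀ r : MvPolynomial (Fin 3) k, X 1 * r ∈ (⊥ : Ideal (MvPolynomial (Fin 3) k)) →
      r ∈ (⊥ : Ideal (MvPolynomial (Fin 3) k)) := by
    intro r hr
    rw [Ideal.mem_bot] at hr ⊢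
    exact (mul_eq_zero.1 hr).resolve_left (X_ne_zero 1)
  have r2 : ∀ r : MvPolynomial (Fin 3) k,
      X 2 * r ∈ (⊥ ⊔ Ideal.span {X 1} : Ideal (MvPolynomial (Fin 3) k)) →
      r ∈ (⊥ ⊔ Ideal.span {X 1} : Ideal (MvPolynomial (Fin 3) k)) := by
    intro r hr
    rw [bot_sup_eq, Ideal.mem_span_singleton] at hr ⊢
    rcases (X_prime (R := k) (i := (1 : Fin 3))).dvd_or_dvd hr with h | h
    · rw [X_dvd_X] at h
      exact absurd h (by decide)
    · exact h
  let 𝔭 : Ideal (Polynomial k) := n.map (redHom k)
  have hsurj : Function.Surjective (redHom k) := fun p => ⟨_, redHom_secHom p⟩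
  obtain ⟨g, hg⟩ := IsPrincipalIdealRing.principal 𝔭
  have hI12 : (Ideal.span {X 1} ⊔ Ideal.span {X 2} : Ideal (MvPolynomial (Fin 3) k)) ≤ n := by
    refine sup_le ?_ ?_ <;> rwa [Ideal.span_singleton_le_iff_mem]
  have hmem : ∀ p, p ∈ n ↔ redHom k p ∈ 𝔭 := by
    intro p
    constructor
    · intro hp
      exact Ideal.mem_map_of_mem _ hp
    · intro hp
      rw [Ideal.mem_map_iff_of_surjective _ hsurj] at hp
      obtain ⟨q, hq, hqp⟩ := hp
      have : p - q ∈ n := by
        apply hI12
        rw [mem_I12_iff, map_sub, hqp, sub_self]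
      have := add_mem this hq
      simpa using this
  by_cases hg0 : g = 0
  · refine ⟨[X 1, X 2], ⟨r1, r2, trivial⟩, ?_, ?_⟩
    · rw [Ideal.ofList_cons, Ideal.ofList_singleton]
      refine le_antisymm hI12 ?_
      intro p hp
      rw [mem_I12_iff]
      have := (hmem p).1 hp
      rw [hg, hg0] at this
      simpa using this
    · intro c0 hc0
      have := (hmem _).1 hc0
      rw [hg, hg0] at this
      have h3 : redHom k (X 0 - C c0) = 0 := by simpa using this
      have h4 : (Polynomial.X - Polynomial.C c0 : Polynomial k) = 0 := by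
        simpa [redHom] using h3
      exact absurd h4 (Polynomial.X_sub_C_ne_zero c0)
  · refine ⟨[X 1, X 2, secHom k g], ⟨r1, r2, ?_, trivial⟩, ?_, fun _ _ => rfl⟩
    · intro r hr
      rw [bot_sup_eq, mem_I12_iff] at hr ⊢
      rw [map_mul, redHom_secHom] at hr
      exact (mul_eq_zero.1 hr).resolve_left hg0
    · rw [Ideal.ofList_cons, Ideal.ofList_cons, Ideal.ofList_singleton, ← sup_assoc]
      refine le_antisymm ?_ ?_
      · refine sup_le hI12 ?_
        rw [Ideal.span_singleton_le_iff_mem, hmem, redHom_secHom, hg]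
        exact Ideal.mem_span_singleton_self g
      · intro p hp
        have := (hmem p).1 hp
        rw [hg] at this
        obtain ⟨q, hq⟩ := Ideal.mem_span_singleton'.1 this
        have h3 : p - secHom k q * secHom k g ∈
            (Ideal.span {X 1} ⊔ Ideal.span {X 2} : Ideal (MvPolynomial (Fin 3) k)) := by
          rw [mem_I12_iff, map_sub, map_mul, redHom_secHom, redHom_secHom, hq, sub_self]
        have h4 : p = (p - secHom k q * secHom k g) + secHom k q * secHom k g := by ring
        rw [h4]
        exact Submodule.add_mem_sup h3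
          (Ideal.mul_mem_left _ _ (Ideal.mem_span_singleton_self _))

end RegPoly

section Base

variable (k : Type*) [Field k]

/-- the ring `k[t, t⁻¹, a, c]` -/
abbrev Base : Type _ := Localization.Away (MvPolynomial.X 0 : MvPolynomial (Fin 3) k)

/-- the coordinate `t` -/
noncomputable def tB : Base k := algebraMap (MvPolynomial (Fin 3) k) _ (MvPolynomial.X 0)
/-- the coordinate `a` -/
noncomputable def aB : Base k := algebraMap (MvPolynomial (Fin 3) k) _ (MvPolynomial.X 1)
/-- the coordinate `c` -/
noncomputable def cB : Base k := algebraMap (MvPolynomial (Fin 3) k) _ (MvPolynomial.X 2)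

theorem powers_le : Submonoid.powers (MvPolynomial.X 0 : MvPolynomial (Fin 3) k) ≤
    nonZeroDivisors (MvPolynomial (Fin 3) k) :=
  powers_le_nonZeroDivisors_of_noZeroDivisors (MvPolynomial.X_ne_zero 0)

instance : IsDomain (Base k) := IsLocalization.isDomain_localization (powers_le k)

instance [CharP k 2] : CharP (Base k) 2 :=
  charP_of_injective_ringHom (IsLocalization.injective (Base k) (powers_le k)) 2

instance : IsNoetherianRing (Base k) :=
  IsLocalization.isNoetherianRing
    (Submonoid.powers (MvPolynomial.X 0 : MvPolynomial (Fin 3) k)) _ inferInstance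

theorem isUnit_tB : IsUnit (tB k) :=
  IsLocalization.map_units (Base k)
    (⟨MvPolynomial.X 0, Submonoid.mem_powers _⟩ :
      Submonoid.powers (MvPolynomial.X 0 : MvPolynomial (Fin 3) k))

theorem isTwoBasis_base [CharP k 2] [PerfectField k] : IsTwoBasis (tB k) (aB k) (cB k) :=
  IsTwoBasis.localization (Submonoid.powers (MvPolynomial.X 0 : MvPolynomial (Fin 3) k))
    (powers_le k)
    isTwoBasis_mvPolynomial

theorem exists_regSeq_base (n : Ideal (Base k)) [n.IsPrime] (h1 : aB k ∈ n) (h2 : cB k ∈ n) :
    ∃ us : List (Localization.AtPrime n), RegSeq ⊥ us ∧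
      (Ideal.ofList us).radical = maximalIdeal (Localization.AtPrime n) ∧
      (∀ c0 : k, tB k - algebraMap k (Base k) c0 ∈ n → us.length = 3) := by
  let A := MvPolynomial (Fin 3) k
  let n0 : Ideal A := n.comap (algebraMap A (Base k))
  have hn0 : n0.IsPrime := Ideal.IsPrime.comap _
  obtain ⟨us, hus, hlist, hlen⟩ := exists_regSeq_poly n0 h1 h2
  have e1 := (hus.localization (Submonoid.powers (MvPolynomial.X 0 : A)) (L := Base k))
  have e2 := e1.localization n.primeCompl (L := Localization.AtPrime n)
  rw [Ideal.map_bot, Ideal.map_bot] at e2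
  refine ⟨_, e2, ?_, ?_⟩
  · have h3 : Ideal.ofList ((us.map (algebraMap A (Base k))).map
        (algebraMap (Base k) (Localization.AtPrime n))) = maximalIdeal (Localization.AtPrime n) := by
      rw [← Ideal.map_ofList, ← Ideal.map_ofList, hlist]
      have h4 : n0.map (algebraMap A (Base k)) = n :=
        IsLocalization.map_under (Submonoid.powers (MvPolynomial.X 0 : A)) (Base k) n
      rw [h4]
      exact Localization.AtPrime.map_eq_maximalIdeal
    rw [h3]
    exact (Ideal.IsPrime.isRadical inferInstance).radical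
  · intro c0 hc0
    rw [List.length_map, List.length_map]
    refine hlen c0 ?_
    change algebraMap A (Base k) (MvPolynomial.X 0 - MvPolynomial.C c0) ∈ n
    rw [map_sub]
    exact hc0

/-- the coordinate ring of the example -/
abbrev Ex : Type _ := Quad (Base k) (tB k) (aB k) (cB k)

theorem isFRational_ex [CharP k 2] [PerfectField k] : IsFRational 2 (Ex k) := by
  intro Q hQ
  by_cases h : (Quad.of (aB k) : Ex k) ∈ Q ∧ (Quad.of (cB k) : Ex k) ∈ Q
  · refine Quad.isFRationalLocal_on (isTwoBasis_base k) Q h.1 h.2 ?_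
    intro n hn h1 h2
    obtain ⟨us, h3, h4, _⟩ := exists_regSeq_base k n h1 h2
    exact ⟨us, h3, h4⟩
  · exact Quad.isFRationalLocal_off (isTwoBasis_base k) (isUnit_tB k) Q h

end Base

end MP85340c
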