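import Pool.Agent.Lib.MP_85340c_ag.RSOP

/-!
# F-rationality from tight closedness of extended ideals

If a domain `R` of characteristic `p` is finite free over a polynomial ring `S` in three variables
and all ideals extended from `S` are tightly closed at every prime of `R`, then `R` is F-rational.
-/

namespace MP85340c

open IsLocalRing

section TCp

variable {R : Type*} [CommRing R]

/-- tight closedness of an ideal, with an arbitrary nonzero multiplier -/
def TCp (p : ℕ) (I : Ideal R) : Prop :=
  ∀ c w : R, c ≠ 0 → (∃ N : ℕ, ∀ e : ℕ, N ≤ e → c * w ^ (p ^ e) ∈ bracketPow I (p ^ e)) → w ∈ I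

theorem tcp_step (p : ℕ) {J : Ideal R} {u z : R} (hu : ∀ r, u * r ∈ J → r ∈ J)
    (hmem : u ∈ J ⊔ Ideal.span {z}) (htc : TCp p (J ⊔ Ideal.span {u})) :
    TCp p (J ⊔ Ideal.span {z}) := by
  rintro c w hc ⟨N, hN⟩
  obtain ⟨j, hj, s, hs, hjs⟩ := Submodule.mem_sup.1 hmem
  obtain ⟨l, rfl⟩ := Ideal.mem_span_singleton'.1 hs
  have hlI : ∀ i ∈ J ⊔ Ideal.span {z}, l * i ∈ J ⊔ Ideal.span {u} := by
    intro i hi
    obtain ⟨j', hj', s', hs', rfl⟩ := Submodule.mem_sup.1 hi
    obtain ⟨α, rfl⟩ := Ideal.mem_span_singleton'.1 hs'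
    have : l * (j' + α * z) = (l * j' - α * j) + α * u := by
      linear_combination α * hjs
    rw [this]
    exact Submodule.add_mem_sup (sub_mem (Ideal.mul_mem_left _ _ hj') (Ideal.mul_mem_left _ _ hj))
      (Ideal.mem_span_singleton'.2 ⟨α, rfl⟩)
  have h1 : l * w ∈ J ⊔ Ideal.span {u} := by
    refine htc c (l * w) hc ⟨N, fun e he => ?_⟩
    have := mul_pow_mem_bracketPow hlI _ (hN e he)
    rw [mul_pow]
    rwa [mul_left_comm] at this
  obtain ⟨j', hj', s', hs', hjs'⟩ := Submodule.mem_sup.1 h1
  obtain ⟨α, rfl⟩ := Ideal.mem_span_singleton'.1 hs'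
  have h2 : l * (w - α * z) ∈ J := by
    have : l * (w - α * z) = j' + α * j := by
      linear_combination -hjs' - α * hjs
    rw [this]
    exact add_mem hj' (Ideal.mul_mem_left _ _ hj)
  have h3 : w - α * z ∈ J := by
    apply hu
    have : u * (w - α * z) = j * (w - α * z) + z * (l * (w - α * z)) := by
      linear_combination -(w - α * z) * hjs
    rw [this]
    exact add_mem (Ideal.mul_mem_right _ _ hj) (Ideal.mul_mem_left _ _ h2)
  have h4 : w = (w - α * z) + α * z := by ring
  rw [h4]
  exact Submodule.add_mem_sup h3 (Ideal.mem_span_singleton'.2 ⟨α, rfl⟩)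

variable [IsLocalRing R] [IsNoetherianRing R]

/-- Tight closedness of all parameter ideals follows from that of the parameter ideals generated
by elements of a rich enough set `T`. -/
theorem tcp_of_rich (p : ℕ) {d : ℕ} (hd : (maximalIdeal R).height = d) {us : List R}
    (hus : us.length = d) (hreg : RegSeq ⊥ us) (hurad : (Ideal.ofList us).radical = maximalIdeal R)
    (T : Set R)
    (hT : ∀ (N : ℕ) (s : Set (Ideal R)), s.Finite → (∀ P ∈ s, P.IsPrime) →
      (∀ P ∈ s, P ≠ maximalIdeal R) → ∃ e ∈ T, e ∈ maximalIdeal R ^ N ∧ ∀ P ∈ s, e ∉ P)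
    (hTC : ∀ es : List R, (∀ e ∈ es, e ∈ T) → TCp p (Ideal.ofList es)) (n : ℕ) :
    ∀ zs es : List R, zs.length = n → n + es.length = d → (∀ e ∈ es, e ∈ T) →
      (Ideal.ofList (zs ++ es)).radical = maximalIdeal R → TCp p (Ideal.ofList (zs ++ es)) := by
  induction n with
  | zero =>
    intro zs es hzs _ hes _
    rw [List.length_eq_zero_iff] at hzs
    rw [hzs]
    exact hTC es hes
  | succ n ih =>
    intro zs es hzs hd' hes hrad
    obtain ⟨zs', z, rfl⟩ : ∃ zs' z, zs = zs' ++ [z] := by
      rcases List.eq_nil_or_concat zs with h | ⟨l, a, h⟩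
      · simp [h] at hzs
      · exact ⟨l, a, by simpa using h⟩
    have hzs' : zs'.length = n := by simpa using hzs
    have hJ : ∀ w : R, Ideal.ofList ((zs' ++ [w]) ++ es) =
        Ideal.ofList (zs' ++ es) ⊔ Ideal.span {w} := by
      intro w
      simp only [Ideal.ofList_append, Ideal.ofList_singleton]
      rw [sup_right_comm]
    have hJ' : ∀ w : R, Ideal.ofList (zs' ++ (w :: es)) =
        Ideal.ofList (zs' ++ es) ⊔ Ideal.span {w} := by
      intro w
      rw [← hJ w]
      simp
    rw [hJ z] at hrad ⊢
    have hne : ∀ P ∈ (Ideal.ofList (zs' ++ es)).minimalPrimes, P ≠ maximalIdeal R := by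
      rintro P hP rfl
      exact maximalIdeal_notMem_minimalPrimes hd (by simp; omega) hP
    obtain ⟨N, hN⟩ := Ideal.exists_pow_le_of_le_radical_of_fg hrad.ge
      (IsNoetherian.noetherian (maximalIdeal R))
    obtain ⟨e, heT, heN, he⟩ := hT (max N 1) _
      (Ideal.finite_minimalPrimes_of_isNoetherianRing R (Ideal.ofList (zs' ++ es)))
      (fun P hP => hP.1.1) hne
    have hem : e ∈ maximalIdeal R := by
      have := Ideal.pow_le_pow_right (I := maximalIdeal R) (le_max_right N 1) heN
      simpa using this
    have heI : e ∈ Ideal.ofList (zs' ++ es) ⊔ Ideal.span {z} :=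
      hN (Ideal.pow_le_pow_right (le_max_left N 1) heN)
    have hrad_e := radical_sup_eq hrad hem he
    have htc_e : TCp p (Ideal.ofList (zs' ++ es) ⊔ Ideal.span {e}) := by
      rw [← hJ' e]
      refine ih zs' (e :: es) hzs' (by simp; omega) ?_ ?_
      · intro w hw
        rcases List.mem_cons.1 hw with rfl | hw
        · exact heT
        · exact hes w hw
      · rw [hJ' e]
        exact hrad_e
    have hreg_e : ∀ r, e * r ∈ Ideal.ofList (zs' ++ es) → r ∈ Ideal.ofList (zs' ++ es) := by
      have h1 : RegSeq (Ideal.ofList []) ((zs' ++ es) ++ [e]) := by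
        refine regSeq_of_radical hd d [] us _ (by simp) hus (by simp; omega) ?_ ?_ ?_
        · simpa using hreg
        · simpa using hurad
        · rw [List.nil_append, Ideal.ofList_append, Ideal.ofList_singleton]
          exact hrad_e
      rw [regSeq_append_singleton, Ideal.ofList_nil, bot_sup_eq] at h1
      exact h1.2
    exact tcp_step p hreg_e heI htc_e

end TCp

section Localize

theorem bracketPow_map_le {A L : Type*} [CommRing A] [CommRing L] [Algebra A L] (M : Submonoid A)
    [IsLocalization M L] (I : Ideal A) (q : ℕ) :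
    bracketPow (I.map (algebraMap A L)) q ≤ (bracketPow I q).map (algebraMap A L) := by
  refine Ideal.span_le.2 ?_
  rintro _ ⟨z, hz, rfl⟩
  obtain ⟨⟨⟨i, hi⟩, s⟩, hs⟩ := (IsLocalization.mem_map_algebraMap_iff M L).1 hz
  have hs' : z * algebraMap A L s = algebraMap A L i := hs
  have hu : IsUnit (algebraMap A L s ^ q) := (IsLocalization.map_units L s).pow q
  have h1 : algebraMap A L s ^ q * z ^ q ∈ (bracketPow I q).map (algebraMap A L) := by
    rw [← mul_pow, mul_comm, hs', ← map_pow]
    exact Ideal.mem_map_of_mem _ (pow_mem_bracketPow hi q)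
  exact (Ideal.unit_mul_mem_iff_mem _ hu).1 h1

end Localize

section Main

variable {S R : Type*} [CommRing S] [IsNoetherianRing S] [CommRing R] [IsDomain R]
  [Algebra S R] [Module.Free S R] [Module.Finite S R]

/-- the main theorem, over any base ring whose local rings have regular systems of parameters -/
theorem isFRational_of_hasRSOP (p : ℕ) (hS : HasRSOP S)
    (hTC : ∀ (Q : Ideal S) (P : Ideal R) [P.IsPrime] (c w : R), c ≠ 0 →
      (∃ N : ℕ, ∀ e : ℕ, N ≤ e → ∃ s, s ∉ P ∧
        s * (c * w ^ (p ^ e)) ∈ bracketPow (Q.map (algebraMap S R)) (p ^ e)) →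
      ∃ s, s ∉ P ∧ s * w ∈ Q.map (algebraMap S R)) : IsFRational p R := by
  intro P hP
  set n : Ideal S := P.comap (algebraMap S R) with hn
  have hnp : n.IsPrime := Ideal.IsPrime.comap _
  have hnoethR : IsNoetherianRing R := IsNoetherianRing.of_finite S R
  have hnoethL : IsNoetherianRing (Localization.AtPrime P) :=
    IsLocalization.isNoetherianRing P.primeCompl _ inferInstance
  have hdomL : IsDomain (Localization.AtPrime P) :=
    IsLocalization.isDomain_localization (Ideal.primeCompl_le_nonZeroDivisors P)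
  have hnoethn : IsNoetherianRing (Localization.AtPrime n) :=
    IsLocalization.isNoetherianRing n.primeCompl _ inferInstance
  let L := Localization.AtPrime P
  let g : S →+* L := (algebraMap R L).comp (algebraMap S R)
  -- the regular sequence
  obtain ⟨us0, hus0, hgen⟩ := hS n
  let f : Localization.AtPrime n →+* L := Localization.localRingHom n P (algebraMap S R) hn
  have hfflat : f.Flat := by
    apply RingHom.Flat.localRingHom
    rw [RingHom.flat_algebraMap_iff]
    infer_instance
  have hfg : ∀ s : S, f (algebraMap S (Localization.AtPrime n) s) = g s := fun s =>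
    Localization.localRingHom_to_map _ _ _ hn s
  set us : List L := us0.map f with hus
  have hreg : RegSeq ⊥ us := regSeq_of_isWeaklyRegular
    (isWeaklyRegular_map_of_flat f hfflat (isWeaklyRegular_of_regSeq hus0))
  have hofList : Ideal.ofList us = (maximalIdeal (Localization.AtPrime n)).map f := by
    rw [hus, ← Ideal.map_ofList, hgen]
  have hng : n.map g = Ideal.ofList us := by
    have h1 : n.map (algebraMap S (Localization.AtPrime n)) =
        maximalIdeal (Localization.AtPrime n) := Localization.AtPrime.map_eq_maximalIdeal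
    rw [hofList, ← h1, Ideal.map_map]
    congr 1
    ext s
    exact (hfg s).symm
  have hgmax : ∀ s : S, g s ∈ maximalIdeal L ↔ s ∈ n := by
    intro s
    change algebraMap R L (algebraMap S R s) ∈ maximalIdeal L ↔ _
    rw [IsLocalization.AtPrime.to_map_mem_maximal_iff L P]
    rfl
  -- a prime of `L` containing `n` is the maximal ideal
  have hmaxi : ∀ Q : Ideal L, Q.IsPrime → n ≤ Q.comap g → Q = maximalIdeal L := by
    intro Q hQ hle
    have hQle : Q ≤ maximalIdeal L := IsLocalRing.le_maximalIdeal hQ.ne_top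
    have hQ' : (Q.comap (algebraMap R L)).IsPrime := Ideal.IsPrime.comap _
    have hQP : Q.comap (algebraMap R L) ≤ P := by
      intro r hr
      have : algebraMap R L r ∈ maximalIdeal L := hQle hr
      rwa [IsLocalization.AtPrime.to_map_mem_maximal_iff L P] at this
    have heq : Q.comap (algebraMap R L) = P := by
      refine le_antisymm hQP ?_
      intro x hx
      by_contra hxQ
      have h1 := Ideal.comap_lt_comap_of_integral_mem_sdiff hQP (x := x) ⟨hx, hxQ⟩
        (Algebra.IsIntegral.isIntegral (R := S) x)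
      exact absurd (lt_of_lt_of_le h1 hle) (lt_irrefl _)
    have h2 : P.map (algebraMap R L) = maximalIdeal L := Localization.AtPrime.map_eq_maximalIdeal
    refine le_antisymm hQle ?_
    rw [← h2, Ideal.map_le_iff_le_comap]
    exact heq.ge
  have hrad : (Ideal.ofList us).radical = maximalIdeal L := by
    refine le_antisymm ?_ ?_
    · refine (Ideal.IsPrime.radical_le_iff inferInstance).2 ?_
      rw [← hng, Ideal.map_le_iff_le_comap]
      intro s hs
      exact (hgmax s).2 hs
    · rw [Ideal.radical_eq_sInf]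
      refine le_sInf ?_
      rintro Q ⟨hQ, hQp⟩
      rw [← hng, Ideal.map_le_iff_le_comap] at hQ
      exact (hmaxi Q hQp hQ).ge
  have hheight := height_eq_of_regSeq hreg hrad
  -- richness
  have hT : ∀ (N : ℕ) (s : Set (Ideal L)), s.Finite → (∀ P ∈ s, P.IsPrime) →
      (∀ P ∈ s, P ≠ maximalIdeal L) →
      ∃ e ∈ Set.range g, e ∈ maximalIdeal L ^ N ∧ ∀ P ∈ s, e ∉ P := by
    intro N s hs hsp hsne
    have hex : ∃ e ∈ n ^ N, ∀ P ∈ s, e ∉ P.comap g := by
      by_contra hcon
      push Not at hcon
      have hsub : ((n ^ N : Ideal S) : Set S) ⊆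
          ⋃ P ∈ s, ((P.comap g : Ideal S) : Set S) := by
        intro e he
        obtain ⟨P, hP, heP⟩ := hcon e he
        exact Set.mem_biUnion hP heP
      obtain ⟨P, hP, hmP⟩ := (Ideal.subset_union_prime_finite
        (f := fun P : Ideal L => P.comap g) hs ⊥ ⊥
        (fun P hP _ _ => by
          have := hsp P hP
          exact Ideal.IsPrime.comap _)).1 hsub
      have hPp := hsp P hP
      have hle : n ≤ P.comap g := by
        have : (P.comap g).IsPrime := Ideal.IsPrime.comap _
        exact Ideal.IsPrime.le_of_pow_le hmP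
      exact hsne P hP (hmaxi P hPp hle)
    obtain ⟨e, he, heP⟩ := hex
    refine ⟨g e, ⟨e, rfl⟩, ?_, heP⟩
    have hle : n.map g ≤ maximalIdeal L := by
      rw [Ideal.map_le_iff_le_comap]
      intro s hs
      exact (hgmax s).2 hs
    have h1 := Ideal.mem_map_of_mem g he
    rw [Ideal.map_pow] at h1
    exact Ideal.pow_right_mono hle N h1
  -- extended ideals are tightly closed
  have hTCes : ∀ es : List L, (∀ e ∈ es, e ∈ Set.range g) → TCp p (Ideal.ofList es) := by
    intro es hes
    obtain ⟨es0, rfl⟩ : ∃ es0 : List S, es0.map g = es := by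
      induction es with
      | nil => exact ⟨[], rfl⟩
      | cons e es ih =>
        obtain ⟨es0, h0⟩ := ih (fun w hw => hes w (List.mem_cons_of_mem _ hw))
        obtain ⟨e0, he0⟩ := hes e (by simp)
        exact ⟨e0 :: es0, by rw [List.map_cons, he0, h0]⟩
    have hJ : Ideal.ofList (es0.map g) =
        ((Ideal.ofList es0).map (algebraMap S R)).map (algebraMap R L) := by
      rw [Ideal.map_map, Ideal.map_ofList]
    rw [hJ]
    rintro c w hc ⟨N, hN⟩
    obtain ⟨⟨c', sc⟩, hsc⟩ := IsLocalization.surj P.primeCompl c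
    obtain ⟨⟨w', sw⟩, hsw⟩ := IsLocalization.surj P.primeCompl w
    have hsc' : c * algebraMap R L sc = algebraMap R L c' := hsc
    have hsw' : w * algebraMap R L sw = algebraMap R L w' := hsw
    have hc' : c' ≠ 0 := by
      rintro rfl
      rw [map_zero] at hsc'
      exact hc ((IsUnit.mul_left_eq_zero (IsLocalization.map_units L sc)).1 hsc')
    obtain ⟨s, hsP, hs⟩ := hTC (Ideal.ofList es0) P c' w' hc' ⟨N, fun e he => by
      have h1 := hN e he
      have h2 : algebraMap R L (c' * w' ^ (p ^ e)) ∈
          (bracketPow ((Ideal.ofList es0).map (algebraMap S R)) (p ^ e)).map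
            (algebraMap R L) := by
        apply bracketPow_map_le P.primeCompl
        rw [map_mul, map_pow, ← hsc', ← hsw']
        have : c * algebraMap R L sc * (w * algebraMap R L sw) ^ (p ^ e) =
            (algebraMap R L sc * algebraMap R L sw ^ (p ^ e)) * (c * w ^ (p ^ e)) := by
          rw [mul_pow]; ring
        rw [this]
        exact Ideal.mul_mem_left _ _ h1
      obtain ⟨⟨⟨i, hi⟩, t⟩, ht⟩ := (IsLocalization.mem_map_algebraMap_iff P.primeCompl L).1 h2
      have ht' : algebraMap R L (c' * w' ^ (p ^ e) * t) = algebraMap R L i := by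
        rw [map_mul]; exact ht
      have ht'' : c' * w' ^ (p ^ e) * t = i :=
        IsLocalization.injective L (Ideal.primeCompl_le_nonZeroDivisors P) ht'
      refine ⟨t, t.2, ?_⟩
      rw [mul_comm, ht'']
      exact hi⟩
    have h3 : algebraMap R L (s * w') ∈
        ((Ideal.ofList es0).map (algebraMap S R)).map (algebraMap R L) :=
      Ideal.mem_map_of_mem _ hs
    rw [map_mul, ← hsw'] at h3
    have h4 : IsUnit (algebraMap R L s) :=
      IsLocalization.map_units L (⟨s, hsP⟩ : P.primeCompl)
    have h5 := (Ideal.unit_mul_mem_iff_mem _ h4).1 h3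
    exact (Ideal.mul_unit_mem_iff_mem _ (IsLocalization.map_units L sw)).1 h5
  -- conclusion
  rintro I ⟨d, z, hdim, rfl, hIrad⟩
  refine Set.Subset.antisymm ?_ (le_tightClosure p _)
  rintro w ⟨e, he, hN⟩
  rw [not_mem_minimalPrimes_iff] at he
  have hd : (d : ℕ) = us.length := by
    rw [← maximalIdeal_height_eq_ringKrullDim, hheight] at hdim
    exact_mod_cast hdim.symm
  have key := tcp_of_rich p hheight (us := us) rfl hreg hrad
    (Set.range g) hT hTCes us.length (List.ofFn z) [] (by simp [hd])
    (by simp) (by simp) (by rw [List.append_nil, ofList_ofFn]; exact hIrad)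
  rw [List.append_nil, ofList_ofFn] at key
  exact key e w he hN

end Main

/-- A domain `R` of characteristic `p`, finite free over a polynomial ring in three variables, all
of whose ideals extended from the polynomial ring are tightly closed at all primes, is
F-rational. -/
theorem isFRational_of_extended_tc {k : Type*} [Field k] (p : ℕ) [Fact p.Prime]
    {R : Type*} [CommRing R] [IsDomain R] [CharP R p] [Algebra (MvPolynomial (Fin 3) k) R]
    [Module.Free (MvPolynomial (Fin 3) k) R] [Module.Finite (MvPolynomial (Fin 3) k) R]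
    (hTC : ∀ (Q : Ideal (MvPolynomial (Fin 3) k)) (P : Ideal R) [P.IsPrime] (c w : R), c ≠ 0 →
      (∃ N : ℕ, ∀ e : ℕ, N ≤ e → ∃ s, s ∉ P ∧
        s * (c * w ^ (p ^ e)) ∈
          bracketPow (Q.map (algebraMap (MvPolynomial (Fin 3) k) R)) (p ^ e)) →
      ∃ s, s ∉ P ∧ s * w ∈ Q.map (algebraMap (MvPolynomial (Fin 3) k) R)) :
    IsFRational p R :=
  isFRational_of_hasRSOP p (hasRSOP_mvPolynomial k 3) hTC

end MP85340c
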