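import Pool.Agent.Lib.MP_85340c_ag.Theta

/-!
# The hyperplane sections are not F-rational
-/

namespace MP85340c

open IsLocalRing

section Hyp

variable {k : Type*} [Field k]

/-- the equation of a hyperplane section -/
noncomputable def hyp (b0 b1 b2 b3 b4 b5 b6 : k) : Ex k :=
  algebraMap k (Ex k) b0 + algebraMap k (Ex k) b1 * Quad.of (tB k) +
    algebraMap k (Ex k) b2 * Quad.of (aB k) + algebraMap k (Ex k) b3 * Quad.b +
    algebraMap k (Ex k) b4 * Quad.of (cB k) + algebraMap k (Ex k) b5 * Quad.x +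
    algebraMap k (Ex k) b6 * Quad.y

/-- the element whose square is in `(a², c²)` on the hyperplane section -/
noncomputable def wit (g : k) : Ex k := Quad.x + algebraMap k (Ex k) g * Quad.y

theorem two_eq_zero_ex [CharP k 2] : (2 : Ex k) = 0 := by
  have : ((2 : ℕ) : Ex k) = 0 := CharP.cast_eq_zero _ 2
  exact_mod_cast this

/-- the key identity -/
theorem key_identity [CharP k 2] (b0 b1 b2 b3 b4 b5 b6 g : k) (hg : b1 * g ^ 2 = b0) :
    algebraMap k (Ex k) b1 * wit g ^ 2 =
      hyp b0 b1 b2 b3 b4 b5 b6 * (Quad.of (aB k) * Quad.b * Quad.of (cB k)) +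
      Quad.of (aB k) ^ 2 * (algebraMap k (Ex k) b1 * Quad.b +
        algebraMap k (Ex k) b2 * (Quad.b * Quad.of (cB k)) +
        algebraMap k (Ex k) b3 * Quad.of (cB k) ^ 2 +
        algebraMap k (Ex k) b5 * (Quad.of (cB k) * Quad.y)) +
      Quad.of (cB k) ^ 2 * (algebraMap k (Ex k) b0 * (Quad.of (tB k) * Quad.b) +
        algebraMap k (Ex k) b4 * (Quad.of (aB k) * Quad.b) +
        algebraMap k (Ex k) b6 * (Quad.of (aB k) * Quad.x)) := by
  have h2 := two_eq_zero_ex (k := k)
  have hb := Quad.b_sq (t := tB k) (a := aB k) (c := cB k)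
  have hbx := Quad.b_x (t := tB k) (a := aB k) (c := cB k)
  have hby := Quad.b_y (t := tB k) (a := aB k) (c := cB k)
  have hx := Quad.x_sq (t := tB k) (a := aB k) (c := cB k)
  have hy := Quad.y_sq (t := tB k) (a := aB k) (c := cB k)
  have hG : algebraMap k (Ex k) b1 * algebraMap k (Ex k) g ^ 2 = algebraMap k (Ex k) b0 := by
    rw [← map_pow, ← map_mul, hg]
  rw [map_mul] at hb
  rw [map_mul, map_add, map_mul] at hx hy
  rw [wit, hyp]
  generalize algebraMap k (Ex k) b0 = B0 at *
  generalize algebraMap k (Ex k) b1 = B1 at *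
  generalize algebraMap k (Ex k) b2 = B2 at *
  generalize algebraMap k (Ex k) b3 = B3 at *
  generalize algebraMap k (Ex k) b4 = B4 at *
  generalize algebraMap k (Ex k) b5 = B5 at *
  generalize algebraMap k (Ex k) b6 = B6 at *
  generalize algebraMap k (Ex k) g = G at *
  generalize (Quad.b : Ex k) = b at *
  generalize (Quad.x : Ex k) = x at *
  generalize (Quad.y : Ex k) = y at *
  generalize (Quad.of (tB k) : Ex k) = t at *
  generalize (Quad.of (aB k) : Ex k) = a at *
  generalize (Quad.of (cB k) : Ex k) = c at *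
  linear_combination B1 * hx + (B1 * G ^ 2) * hy + (c * (a + t * c) * b) * hG +
    (- B3 * a * c) * hb + (- B5 * a * c) * hbx + (- B6 * a * c) * hby +
    (B1 * G * x * y - B2 * a ^ 2 * b * c - B3 * a ^ 2 * c ^ 2 - B4 * a * b * c ^ 2 -
      B5 * a ^ 2 * c * y - B6 * a * c ^ 2 * x) * h2

theorem hyp_w0 (b0 b1 b2 b3 b4 b5 b6 : k) : (hyp b0 b1 b2 b3 b4 b5 b6).w0 =
    algebraMap k (Base k) b0 + algebraMap k (Base k) b1 * tB k +
      algebraMap k (Base k) b2 * aB k + algebraMap k (Base k) b4 * cB k := by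
  simp [hyp, Quad.algebraMap_apply']

theorem theta_hyp_w0 [CharP k 2] {c0 : k} (hc : c0 ≠ 0) (b0 b1 b2 b3 b4 b5 b6 : k)
    (h : b1 * c0 = b0) :
    theta c0 hc (hyp b0 b1 b2 b3 b4 b5 b6).w0 = PowerSeries.C b1 * PowerSeries.X := by
  have h2 : (2 : k) = 0 := by
    have : ((2 : ℕ) : k) = 0 := CharP.cast_eq_zero _ 2
    exact_mod_cast this
  rw [hyp_w0, map_add, map_add, map_add, map_mul, map_mul, map_mul, theta_tB, theta_aB, theta_cB,
    theta_algebraMap, theta_algebraMap, mul_add, ← map_mul, h, mul_zero, mul_zero, add_zero,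
    add_zero, ← add_assoc, ← map_add]
  have : b0 + b0 = 0 := by linear_combination b0 * h2
  rw [this, map_zero, zero_add]

theorem EV_eq_zero_of_eq {c0 : k} (hc : c0 ≠ 0) {b1 : k} (hb1 : b1 ≠ 0) {h s α γ v w : Ex k}
    (hh : theta c0 hc h.w0 = PowerSeries.C b1 * PowerSeries.X) (hw0 : w.w0 = 0) (hw2 : w.w2 = 1)
    (heq : s * w = α * Quad.of (aB k) + γ * Quad.of (cB k) + h * v) : EV hc s = 0 := by
  have hne : (PowerSeries.C b1 * PowerSeries.X : PowerSeries k) ≠ 0 := by
    refine mul_ne_zero ?_ PowerSeries.X_ne_zero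
    intro h0
    apply hb1
    have := congrArg PowerSeries.constantCoeff h0
    simpa using this
  have e0 := congrArg (fun z : Ex k => theta c0 hc z.w0) heq
  have e2 := congrArg (fun z : Ex k => theta c0 hc z.w2) heq
  simp only [Quad.add_w0, Quad.mul_w0, Quad.of_w0, Quad.of_w1, Quad.of_w2, Quad.of_w3, map_add,
    map_mul, theta_aB, theta_cB, hw0, hh, mul_zero, zero_mul, add_zero, zero_add, map_zero] at e0
  simp only [Quad.add_w2, Quad.mul_w2, Quad.of_w0, Quad.of_w1, Quad.of_w2, Quad.of_w3, map_add,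
    map_mul, theta_aB, theta_cB, hw0, hw2, hh, mul_zero, zero_mul, add_zero, zero_add, map_zero,
    map_one, mul_one] at e2
  have e0' := (mul_eq_zero.1 e0.symm).resolve_left hne
  rw [e0', mul_zero, add_zero] at e2
  rw [EV_apply, e2, map_mul, map_mul, PowerSeries.constantCoeff_X]
  simp

theorem not_isFRational_quotient [IsAlgClosed k] [CharP k 2] (b0 b1 b2 b3 b4 b5 b6 : k)
    (h0 : b0 ≠ 0) (h1 : b1 ≠ 0) :
    ¬ IsFRational 2 (Ex k ⧸ Ideal.span {hyp b0 b1 b2 b3 b4 b5 b6}) := by
  intro hF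
  obtain ⟨g, hg⟩ := IsAlgClosed.exists_pow_nat_eq (b0 / b1) (n := 2) (by norm_num)
  have hg1 : b1 * g ^ 2 = b0 := by rw [hg]; field_simp
  have key := key_identity b0 b1 b2 b3 b4 b5 b6 g hg1
  have hc : b0 / b1 ≠ 0 := div_ne_zero h0 h1
  have hth := theta_hyp_w0 hc b0 b1 b2 b3 b4 b5 b6 (by field_simp)
  have hhdef : hyp b0 b1 b2 b3 b4 b5 b6 = hyp b0 b1 b2 b3 b4 b5 b6 := rfl
  generalize hh : hyp b0 b1 b2 b3 b4 b5 b6 = h at *
  -- the maximal ideals
  have hEVh : EV hc h = 0 := by
    rw [EV_apply, hth, map_mul, PowerSeries.constantCoeff_X, mul_zero]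
  have hle : ∀ z ∈ Ideal.span {h}, EV hc z = 0 := by
    intro z hz
    rw [Ideal.mem_span_singleton'] at hz
    obtain ⟨y, rfl⟩ := hz
    rw [map_mul, hEVh, mul_zero]
  set EVB : (Ex k ⧸ Ideal.span {h}) →+* k := Ideal.Quotient.lift _ (EV hc) hle with hEVB
  have hEVBmk : ∀ z, EVB (Ideal.Quotient.mk _ z) = EV hc z := fun z => rfl
  have hsurj : Function.Surjective EVB := by
    intro r
    obtain ⟨z, hz⟩ := EV_surjective hc r
    exact ⟨Ideal.Quotient.mk _ z, hz⟩
  have hmax : (RingHom.ker EVB).IsMaximal := RingHom.ker_isMaximal_of_surjective _ hsurj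
  set M : Ideal (Ex k ⧸ Ideal.span {h}) := RingHom.ker EVB with hM
  have hMprime : M.IsPrime := hmax.isPrime
  have hmap : (RingHom.ker (EV hc)).map (Ideal.Quotient.mk (Ideal.span {h})) = M := by
    refine le_antisymm ?_ ?_
    · rw [Ideal.map_le_iff_le_comap]
      intro z hz
      exact hz
    · intro z hz
      obtain ⟨z', rfl⟩ := Ideal.Quotient.mk_surjective z
      exact Ideal.mem_map_of_mem _ hz
  have hheight := height_ker_EV (k := k) hc
  have hh1 : h ∈ RingHom.ker (EV hc) := hEVh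
  have hMge : 2 ≤ M.height := by
    have h3 := Ideal.height_le_height_add_one_of_mem hh1
    rw [hmap, hheight] at h3
    have h4 : (2 : ℕ∞) + 1 ≤ M.height + 1 := by
      calc (2 : ℕ∞) + 1 = 3 := by norm_num
        _ ≤ _ := h3
    exact (ENat.add_le_add_iff_right ENat.one_ne_top).1 h4
  -- the local ring
  set L := Localization.AtPrime M with hL
  let π : Ex k →+* L := (algebraMap (Ex k ⧸ Ideal.span {h}) L).comp (Ideal.Quotient.mk _)
  have hπh : π h = 0 := by
    change algebraMap (Ex k ⧸ Ideal.span {h}) L (Ideal.Quotient.mk _ h) = 0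
    rw [Ideal.Quotient.eq_zero_iff_mem.2 (Ideal.mem_span_singleton_self h), map_zero]
  have hπunit : ∀ r : k, r ≠ 0 → IsUnit (π (algebraMap k (Ex k) r)) := by
    intro r hr
    exact ((isUnit_iff_ne_zero.2 hr).map (algebraMap k (Ex k))).map π
  have h2L : (2 : L) = 0 := by
    have h3 : π (2 : Ex k) = 0 := by rw [two_eq_zero_ex, map_zero]
    rwa [map_ofNat] at h3
  have hcharL : CharP L 2 := by
    refine (CharP.charP_iff_prime_eq_zero Nat.prime_two).2 ?_
    exact_mod_cast h2L
  set J : Ideal L := Ideal.span {π (Quad.of (aB k)), π (Quad.of (cB k))} with hJ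
  have haJ : π (Quad.of (aB k)) ∈ J := Ideal.subset_span (by simp)
  have hcJ : π (Quad.of (cB k)) ∈ J := Ideal.subset_span (by simp)
  have hmaxmem : ∀ z : Ex k, EV hc z = 0 → π z ∈ maximalIdeal L := by
    intro z hz
    have : Ideal.Quotient.mk (Ideal.span {h}) z ∈ M := hz
    exact (IsLocalization.AtPrime.to_map_mem_maximal_iff L M _).2 this
  have hamax : π (Quad.of (aB k)) ∈ maximalIdeal L := by
    apply hmaxmem
    rw [EV_apply, Quad.of_w0, theta_aB, map_zero]
  have hcmax : π (Quad.of (cB k)) ∈ maximalIdeal L := by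
    apply hmaxmem
    rw [EV_apply, Quad.of_w0, theta_cB, map_zero]
  have hJle : J ≤ maximalIdeal L := by
    rw [hJ, Ideal.span_le]
    intro z hz
    rcases hz with rfl | hz
    · exact hamax
    · rw [Set.mem_singleton_iff] at hz
      rw [hz]; exact hcmax
  -- radical
  have hradsq : ∀ z : L, z * z ∈ J → z ∈ J.radical := by
    intro z hz
    exact ⟨2, by rwa [pow_two]⟩
  have hbr : π Quad.b ∈ J.radical := by
    apply hradsq
    rw [← map_mul, Quad.b_sq, map_mul, map_mul]
    exact Ideal.mul_mem_right _ _ haJ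
  have hxr : π Quad.x ∈ J.radical := by
    apply hradsq
    rw [← map_mul, Quad.x_sq, map_mul, map_mul, map_mul]
    exact Ideal.mul_mem_right _ _ (Ideal.mul_mem_right _ _ haJ)
  have hyr : π Quad.y ∈ J.radical := by
    apply hradsq
    rw [← map_mul, Quad.y_sq, map_mul, map_mul, map_mul]
    exact Ideal.mul_mem_right _ _ (Ideal.mul_mem_right _ _ hcJ)
  have har : π (Quad.of (aB k)) ∈ J.radical := Ideal.le_radical haJ
  have hcr : π (Quad.of (cB k)) ∈ J.radical := Ideal.le_radical hcJ
  have htr : π (Quad.of (tB k - algebraMap k (Base k) (b0 / b1))) ∈ J.radical := by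
    have e1 : algebraMap k (Ex k) b1 * Quad.of (tB k - algebraMap k (Base k) (b0 / b1)) =
        h - (algebraMap k (Ex k) b2 * Quad.of (aB k) + algebraMap k (Ex k) b3 * Quad.b +
          algebraMap k (Ex k) b4 * Quad.of (cB k) + algebraMap k (Ex k) b5 * Quad.x +
          algebraMap k (Ex k) b6 * Quad.y) := by
      have h2 := two_eq_zero_ex (k := k)
      have e2 : algebraMap k (Ex k) b1 * algebraMap k (Ex k) (b0 / b1) =
          algebraMap k (Ex k) b0 := by
        rw [← map_mul]; congr 1; field_simp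
      rw [← hh, hyp, map_sub, ← Quad.algebraMap_apply']
      linear_combination (-1 : Ex k) * e2 - algebraMap k (Ex k) b0 * h2
    have e3 : π (algebraMap k (Ex k) b1 * Quad.of (tB k - algebraMap k (Base k) (b0 / b1))) ∈
        J.radical := by
      rw [e1, map_sub, hπh, zero_sub, neg_mem_iff]
      simp only [map_add, map_mul]
      exact add_mem (add_mem (add_mem (add_mem (Ideal.mul_mem_left _ _ har)
        (Ideal.mul_mem_left _ _ hbr)) (Ideal.mul_mem_left _ _ hcr))
        (Ideal.mul_mem_left _ _ hxr)) (Ideal.mul_mem_left _ _ hyr)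
    rw [map_mul] at e3
    exact (Ideal.unit_mul_mem_iff_mem _ (hπunit b1 h1)).1 e3
  have hrad : J.radical = maximalIdeal L := by
    refine le_antisymm ((Ideal.IsPrime.radical_le_iff inferInstance).2 hJle) ?_
    have e1 : M.map (algebraMap (Ex k ⧸ Ideal.span {h}) L) = maximalIdeal L :=
      Localization.AtPrime.map_eq_maximalIdeal
    rw [← e1, Ideal.map_le_iff_le_comap]
    intro z' hz'
    obtain ⟨z, rfl⟩ := Ideal.Quotient.mk_surjective z'
    change π z ∈ J.radical
    have hz0 := mem_of_constantCoeff_theta hc z.w0 hz'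
    have e2 : π (Quad.of z.w0) ∈ J.radical := by
      have e3 : Ideal.span {tB k - algebraMap k (Base k) (b0 / b1), aB k, cB k} ≤
          J.radical.comap (π.comp (Quad.of : Base k →+* Ex k)) := by
        rw [Ideal.span_le]
        intro s hs
        rcases hs with rfl | rfl | hs
        · exact htr
        · exact har
        · rw [Set.mem_singleton_iff] at hs
          rw [hs]; exact hcr
      exact e3 hz0
    rw [Quad.eq_sum z, map_add, map_add, map_add, map_mul, map_mul, map_mul]
    exact add_mem (add_mem (add_mem e2 (Ideal.mul_mem_left _ _ hbr))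
      (Ideal.mul_mem_left _ _ hxr)) (Ideal.mul_mem_left _ _ hyr)
  -- dimension
  have hnoethB : IsNoetherianRing (Ex k ⧸ Ideal.span {h}) := inferInstance
  have hnoethL : IsNoetherianRing L := IsLocalization.isNoetherianRing M.primeCompl _ inferInstance
  have hdim : ringKrullDim L = (2 : ℕ) := by
    have e1 := IsLocalization.AtPrime.ringKrullDim_eq_height M L
    have e2 : (maximalIdeal L).height ≤ 2 := by
      have h2 : maximalIdeal L ∈ J.minimalPrimes := by
        refine ⟨⟨inferInstance, hJle⟩, ?_⟩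
        rintro Q ⟨hQ, hQ2⟩ _
        rw [← hrad]
        exact (hQ.radical_le_iff).2 hQ2
      classical
      have h3 : J = Ideal.span (({π (Quad.of (aB k)), π (Quad.of (cB k))} : Finset L) : Set L) := by
        rw [hJ]; congr 1; simp
      rw [h3] at h2
      refine (Ideal.height_le_card_of_mem_minimalPrimes_span_finset h2).trans ?_
      exact_mod_cast Finset.card_le_two
    have e3 := maximalIdeal_height_eq_ringKrullDim (R := L)
    have e4 : (maximalIdeal L).height = 2 := by
      refine le_antisymm e2 ?_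
      have e5 : ((maximalIdeal L).height : WithBot ℕ∞) = M.height := e3.trans e1
      rw [WithBot.coe_inj.1 e5]
      exact hMge
    rw [← e3, e4]
    rfl
  -- parameter ideal
  have hpar : IsParameterIdeal J := by
    refine ⟨2, ![π (Quad.of (aB k)), π (Quad.of (cB k))], hdim, ?_, hrad⟩
    rw [hJ]
    congr 1
    simp [Matrix.range_cons, Set.pair_comm]
  -- tight closure
  have hw2 : π (wit g) ^ 2 ∈ bracketPow J 2 := by
    have e1 : π (algebraMap k (Ex k) b1) * π (wit g) ^ 2 ∈ bracketPow J 2 := by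
      rw [← map_pow, ← map_mul, key, map_add, map_add, map_mul, hπh, zero_mul, zero_add, map_mul,
        map_mul, map_pow, map_pow]
      exact add_mem (Ideal.mul_mem_right _ _ (pow_mem_bracketPow haJ 2))
        (Ideal.mul_mem_right _ _ (pow_mem_bracketPow hcJ 2))
    exact (Ideal.unit_mul_mem_iff_mem _ (hπunit b1 h1)).1 e1
  have htc : π (wit g) ∈ tightClosure 2 J := by
    refine ⟨1, ?_, 1, ?_⟩
    · intro P hP h1P
      exact hP.1.1.ne_top ((Ideal.eq_top_iff_one P).2 h1P)
    · intro e he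
      obtain ⟨m, rfl⟩ : ∃ m, e = 1 + m := ⟨e - 1, by omega⟩
      have h5 := pow_mem_bracketPow (I := bracketPow J (2 ^ 1)) (z := π (wit g) ^ (2 ^ 1))
        (by rw [pow_one]; exact hw2) (2 ^ m)
      rw [bracketPow_two_pow_add, ← pow_mul, ← pow_add] at h5
      rwa [one_mul]
  have hFL := hF M J hpar
  rw [hFL] at htc
  -- not in J
  have hJmap : J = (Ideal.span {Ideal.Quotient.mk (Ideal.span {h}) (Quad.of (aB k)),
      Ideal.Quotient.mk (Ideal.span {h}) (Quad.of (cB k))}).map
        (algebraMap (Ex k ⧸ Ideal.span {h}) L) := by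
    rw [Ideal.map_span, Set.image_insert_eq, Set.image_singleton]
    rfl
  have htc' : π (wit g) ∈ J := htc
  rw [hJmap, IsLocalization.mem_map_algebraMap_iff M.primeCompl L] at htc'
  obtain ⟨⟨⟨i, hi⟩, s⟩, hs⟩ := htc'
  change algebraMap (Ex k ⧸ Ideal.span {h}) L (Ideal.Quotient.mk _ (wit g)) *
    algebraMap (Ex k ⧸ Ideal.span {h}) L (s : Ex k ⧸ Ideal.span {h}) =
      algebraMap (Ex k ⧸ Ideal.span {h}) L i at hs
  rw [← map_mul] at hs
  obtain ⟨s', hs'⟩ := IsLocalization.exists_of_eq (M := M.primeCompl) hs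
  obtain ⟨s1, hs1⟩ := Ideal.Quotient.mk_surjective (s : Ex k ⧸ Ideal.span {h})
  obtain ⟨s2, hs2⟩ := Ideal.Quotient.mk_surjective (s' : Ex k ⧸ Ideal.span {h})
  obtain ⟨p, q, hpq⟩ := Ideal.mem_span_pair.1 hi
  obtain ⟨p', rfl⟩ := Ideal.Quotient.mk_surjective p
  obtain ⟨q', rfl⟩ := Ideal.Quotient.mk_surjective q
  have e1 : Ideal.Quotient.mk (Ideal.span {h}) (s2 * (wit g * s1) -
      s2 * (p' * Quad.of (aB k) + q' * Quad.of (cB k))) = 0 := by
    rw [map_sub, map_mul, map_mul, map_mul, map_add, map_mul, map_mul, hs1, hs2, hs', ← hpq]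
    ring
  rw [Ideal.Quotient.eq_zero_iff_mem, Ideal.mem_span_singleton'] at e1
  obtain ⟨v, hv⟩ := e1
  have e2 : (s2 * s1) * wit g = (s2 * p') * Quad.of (aB k) + (s2 * q') * Quad.of (cB k) +
      h * v := by
    linear_combination (-1 : Ex k) * hv
  have e3 : EV hc (s2 * s1) = 0 := by
    refine EV_eq_zero_of_eq hc h1 hth ?_ ?_ e2
    · simp [wit, Quad.algebraMap_apply']
    · simp [wit, Quad.algebraMap_apply']
  rw [map_mul] at e3
  rcases mul_eq_zero.1 e3 with e4 | e4
  · refine s'.2 ?_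
    rw [← hs2]
    exact e4
  · refine s.2 ?_
    rw [← hs1]
    exact e4

end Hyp

end MP85340c
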