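import Pool.Agent.Lib.MP_85340c_ag.Charts

/-!
# The local rings at the points of the line `a = c = 0`, and F-rationality of the example
-/

namespace MP85340c

open IsLocalRing

section Transport

theorem bracketPow_map_equiv {A B : Type*} [CommRing A] [CommRing B] (e : A ≃+* B) (I : Ideal A)
    (q : ℕ) {z : A} (hz : z ∈ bracketPow I q) : e z ∈ bracketPow (I.map e) q := by
  refine Submodule.span_induction ?_ ?_ ?_ ?_ hz
  · rintro _ ⟨y, hy, rfl⟩
    simp only [map_pow]
    exact pow_mem_bracketPow (Ideal.mem_map_of_mem e hy) q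
  · simp
  · intro x y _ _ hx hy
    rw [map_add]
    exact add_mem hx hy
  · intro r x _ hx
    rw [smul_eq_mul, map_mul]
    exact Ideal.mul_mem_left _ _ hx

theorem isFRationalLocal_of_ringEquiv {A B : Type*} [CommRing A] [CommRing B] [IsLocalRing A]
    [IsLocalRing B] [IsDomain A] [IsDomain B] (p : ℕ) (e : A ≃+* B) (h : IsFRationalLocal p A) :
    IsFRationalLocal p B := by
  rintro I ⟨d, z, hd, rfl, hrad⟩
  refine Set.Subset.antisymm ?_ (le_tightClosure p _)
  rintro g ⟨c, hc, N, hN⟩
  rw [not_mem_minimalPrimes_iff] at hc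
  have hI : (Ideal.span (Set.range z)).map e.symm = Ideal.span (Set.range (e.symm ∘ z)) := by
    rw [Ideal.map_span, Set.range_comp]
  have hpar : IsParameterIdeal (Ideal.span (Set.range (e.symm ∘ z))) := by
    refine ⟨d, e.symm ∘ z, ?_, rfl, ?_⟩
    · rw [← hd]; exact ringKrullDim_eq_of_ringEquiv e
    · rw [← hI]
      have h1 : (Ideal.span (Set.range z)).map e.symm = (Ideal.span (Set.range z)).comap e :=
        Ideal.map_symm e
      rw [h1, ← Ideal.comap_radical, hrad]
      ext w
      rw [Ideal.mem_comap, mem_maximalIdeal, mem_maximalIdeal, mem_nonunits_iff,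
        mem_nonunits_iff, MulEquiv.isUnit_map]
  have h2 := h _ hpar
  have h3 : e.symm g ∈ tightClosure p (Ideal.span (Set.range (e.symm ∘ z))) := by
    refine ⟨e.symm c, ?_, N, fun m hm => ?_⟩
    · rw [not_mem_minimalPrimes_iff]
      simpa using hc
    · have := bracketPow_map_equiv e.symm _ _ (hN m hm)
      rw [hI] at this
      simpa using this
  rw [h2] at h3
  have h4 := Ideal.mem_map_of_mem e h3
  have h5 : (Ideal.span (Set.range (e.symm ∘ z))).map e = Ideal.span (Set.range z) := by
    rw [Ideal.map_span, ← Set.range_comp]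
    congr 2
    funext i
    simp
  rw [h5] at h4
  simpa using h4

end Transport

namespace Quad

variable {S S' : Type*} [CommRing S] [CommRing S'] {t a c : S}

/-- functoriality of `Quad` -/
def mapHom (g : S →+* S') : Quad S t a c →+* Quad S' (g t) (g a) (g c) where
  toFun w := ⟨g w.w0, g w.w1, g w.w2, g w.w3⟩
  map_one' := by ext <;> simp
  map_zero' := by ext <;> simp
  map_add' u v := by ext <;> simp
  map_mul' u v := by ext <;> simp

@[simp] theorem mapHom_w0 (g : S →+* S') (w : Quad S t a c) : (mapHom g w).w0 = g w.w0 := rfl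
@[simp] theorem mapHom_w1 (g : S →+* S') (w : Quad S t a c) : (mapHom g w).w1 = g w.w1 := rfl
@[simp] theorem mapHom_w2 (g : S →+* S') (w : Quad S t a c) : (mapHom g w).w2 = g w.w2 := rfl
@[simp] theorem mapHom_w3 (g : S →+* S') (w : Quad S t a c) : (mapHom g w).w3 = g w.w3 := rfl

theorem mapHom_injective {g : S →+* S'} (hg : Function.Injective g) :
    Function.Injective (mapHom g : Quad S t a c →+* _) := by
  intro u v h
  have h0 := congrArg Quad.w0 h
  have h1 := congrArg Quad.w1 h
  have h2 := congrArg Quad.w2 h
  have h3 := congrArg Quad.w3 h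
  ext
  · exact hg h0
  · exact hg h1
  · exact hg h2
  · exact hg h3

theorem bxy_mem {Q : Ideal (Quad S t a c)} (hQ : Q.IsPrime) (ha : (of a : Quad S t a c) ∈ Q) :
    (b : Quad S t a c) ∈ Q ∧ (x : Quad S t a c) ∈ Q ∧ (y : Quad S t a c) ∈ Q := by
  have hb : (b : Quad S t a c) ∈ Q := by
    have : (b : Quad S t a c) * b ∈ Q := by
      rw [b_sq, map_mul]
      exact Ideal.mul_mem_right _ _ ha
    rcases hQ.mem_or_mem this with h1 | h1 <;> exact h1
  have hx : (x : Quad S t a c) ∈ Q := by
    have : (x : Quad S t a c) * x ∈ Q := by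
      rw [x_sq]
      exact Ideal.mul_mem_left _ _ hb
    rcases hQ.mem_or_mem this with h1 | h1 <;> exact h1
  have hy : (y : Quad S t a c) ∈ Q := by
    have : (y : Quad S t a c) * y ∈ Q := by
      rw [y_sq]
      exact Ideal.mul_mem_left _ _ hb
    rcases hQ.mem_or_mem this with h1 | h1 <;> exact h1
  exact ⟨hb, hx, hy⟩

theorem mem_iff_w0_mem {Q : Ideal (Quad S t a c)} (hQ : Q.IsPrime)
    (ha : (of a : Quad S t a c) ∈ Q) (w : Quad S t a c) :
    w ∈ Q ↔ (of w.w0 : Quad S t a c) ∈ Q := by
  obtain ⟨hb, hx, hy⟩ := bxy_mem hQ ha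
  have h1 : of w.w1 * b + of w.w2 * x + of w.w3 * y ∈ Q :=
    add_mem (add_mem (Ideal.mul_mem_left _ _ hb) (Ideal.mul_mem_left _ _ hx))
      (Ideal.mul_mem_left _ _ hy)
  have h2 : w = of w.w0 + (of w.w1 * b + of w.w2 * x + of w.w3 * y) := by
    rw [← add_assoc, ← add_assoc]
    exact eq_sum w
  constructor
  · intro h
    have h3 : (of w.w0 : Quad S t a c) = w - (of w.w1 * b + of w.w2 * x + of w.w3 * y) := by
      nth_rewrite 2 [h2]
      ring
    rw [h3]
    exact sub_mem h h1
  · intro h
    rw [h2]
    exact add_mem h h1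

/-- The local ring of `Quad S t a c` at a prime `Q` containing `a` and `c`. -/
theorem isLocalization_mapHom [CharP S 2] [IsDomain S] (Q : Ideal (Quad S t a c)) [hQ : Q.IsPrime]
    (ha : (of a : Quad S t a c) ∈ Q) (n : Ideal S) [n.IsPrime]
    (hn : n = Q.comap (of : S →+* Quad S t a c)) [CharP (Localization.AtPrime n) 2] :
    @IsLocalization.AtPrime (Quad S t a c) _
      (Quad (Localization.AtPrime n) (algebraMap S (Localization.AtPrime n) t)
        (algebraMap S (Localization.AtPrime n) a) (algebraMap S (Localization.AtPrime n) c)) _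
      (mapHom (algebraMap S (Localization.AtPrime n))).toAlgebra Q _ := by
  letI := (mapHom (algebraMap S (Localization.AtPrime n)) :
    Quad S t a c →+* _).toAlgebra
  have hg : Function.Injective (algebraMap S (Localization.AtPrime n)) :=
    IsLocalization.injective _ (Ideal.primeCompl_le_nonZeroDivisors n)
  have han : a ∈ n := by rw [hn]; exact ha
  have ham : algebraMap S (Localization.AtPrime n) a ∈ maximalIdeal (Localization.AtPrime n) := by
    rw [IsLocalization.AtPrime.to_map_mem_maximal_iff (Localization.AtPrime n) n]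
    exact han
  refine { map_units := ?_, surj := ?_, exists_of_eq := ?_ }
  · rintro ⟨w, hw⟩
    have hw' : w.w0 ∉ n := by
      rw [hn, Ideal.mem_comap]
      exact fun h' => hw ((mem_iff_w0_mem hQ ha w).2 h')
    change IsUnit (mapHom (algebraMap S (Localization.AtPrime n)) w)
    rw [isUnit_iff ham]
    exact IsLocalization.map_units (Localization.AtPrime n) (⟨w.w0, hw'⟩ : n.primeCompl)
  · intro z
    obtain ⟨s, hs⟩ := IsLocalization.exist_integer_multiples_of_finite n.primeCompl
      (![z.w0, z.w1, z.w2, z.w3] : Fin 4 → Localization.AtPrime n)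
    choose g hg' using hs
    have hsQ : (of (s : S) : Quad S t a c) ∉ Q := by
      intro h'
      have h'' : (s : S) ∈ Q.comap (of : S →+* Quad S t a c) := h'
      rw [← hn] at h''
      exact s.2 h''
    refine ⟨(⟨g 0, g 1, g 2, g 3⟩, ⟨of (s : S), hsQ⟩), ?_⟩
    change z * mapHom (algebraMap S (Localization.AtPrime n)) (of (s : S)) =
      mapHom (algebraMap S (Localization.AtPrime n)) ⟨g 0, g 1, g 2, g 3⟩
    have e0 := hg' 0
    have e1 := hg' 1
    have e2 := hg' 2
    have e3 := hg' 3
    rw [Algebra.smul_def] at e0 e1 e2 e3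
    simp only [Matrix.cons_val_zero, Matrix.cons_val_one, Matrix.cons_val] at e0 e1 e2 e3
    ext
    · simp [e0, mul_comm]
    · simp [e1, mul_comm]
    · simp [e2, mul_comm]
    · simp [e3, mul_comm]
  · intro u v huv
    refine ⟨1, ?_⟩
    have : u = v := mapHom_injective hg huv
    rw [this]

theorem isFRationalLocal_on [CharP S 2] [IsDomain S] [IsNoetherianRing S] (h : IsTwoBasis t a c)
    (Q : Ideal (Quad S t a c)) [hQ : Q.IsPrime]
    (ha : (of a : Quad S t a c) ∈ Q) (hc : (of c : Quad S t a c) ∈ Q)
    (hreg : ∀ n : Ideal S, ∀ [n.IsPrime], a ∈ n → c ∈ n →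
      ∃ us : List (Localization.AtPrime n), RegSeq ⊥ us ∧
        (Ideal.ofList us).radical = maximalIdeal (Localization.AtPrime n)) :
    IsFRationalLocal 2 (Localization.AtPrime Q) := by
  have hdomR : IsDomain (Quad S t a c) := isDomain h
  set n : Ideal S := Q.comap (of : S →+* Quad S t a c) with hn
  have hnp : n.IsPrime := Ideal.IsPrime.comap _
  have hg : Function.Injective (algebraMap S (Localization.AtPrime n)) :=
    IsLocalization.injective _ (Ideal.primeCompl_le_nonZeroDivisors n)
  have hchar : CharP (Localization.AtPrime n) 2 := charP_of_injective_ringHom hg 2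
  have hdomn : IsDomain (Localization.AtPrime n) :=
    IsLocalization.isDomain_localization (Ideal.primeCompl_le_nonZeroDivisors n)
  have hdomQ : IsDomain (Localization.AtPrime Q) :=
    IsLocalization.isDomain_localization (Ideal.primeCompl_le_nonZeroDivisors Q)
  have hnoeth : IsNoetherianRing (Localization.AtPrime n) :=
    IsLocalization.isNoetherianRing n.primeCompl _ inferInstance
  have han : algebraMap S (Localization.AtPrime n) a ∈ maximalIdeal (Localization.AtPrime n) := by
    rw [IsLocalization.AtPrime.to_map_mem_maximal_iff (Localization.AtPrime n) n]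
    exact ha
  have hcn : algebraMap S (Localization.AtPrime n) c ∈ maximalIdeal (Localization.AtPrime n) := by
    rw [IsLocalization.AtPrime.to_map_mem_maximal_iff (Localization.AtPrime n) n]
    exact hc
  have htb : IsTwoBasis (algebraMap S (Localization.AtPrime n) t)
      (algebraMap S (Localization.AtPrime n) a) (algebraMap S (Localization.AtPrime n) c) :=
    h.localization n.primeCompl (Ideal.primeCompl_le_nonZeroDivisors n)
  have hlocal : IsLocalRing (Quad (Localization.AtPrime n)
      (algebraMap S (Localization.AtPrime n) t) (algebraMap S (Localization.AtPrime n) a)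
      (algebraMap S (Localization.AtPrime n) c)) := isLocalRing han
  have hdomT : IsDomain (Quad (Localization.AtPrime n)
      (algebraMap S (Localization.AtPrime n) t) (algebraMap S (Localization.AtPrime n) a)
      (algebraMap S (Localization.AtPrime n) c)) := isDomain htb
  obtain ⟨us, hus, hrad⟩ := hreg n ha hc
  have hF := isFRationalLocal htb han hcn hus hrad
  letI := (mapHom (algebraMap S (Localization.AtPrime n)) :
    Quad S t a c →+* _).toAlgebra
  have hloc := isLocalization_mapHom Q ha n hn
  exact isFRationalLocal_of_ringEquiv 2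
    (IsLocalization.algEquiv Q.primeCompl (Quad (Localization.AtPrime n)
      (algebraMap S (Localization.AtPrime n) t) (algebraMap S (Localization.AtPrime n) a)
      (algebraMap S (Localization.AtPrime n) c)) (Localization.AtPrime Q)).toRingEquiv hF

end Quad

end MP85340c
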