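import Pool.Agent.Lib.MP_85340c_ag.QuadLocal

/-!
# Two-bases of polynomial rings and their localizations; regular sequences
-/

namespace MP85340c

open IsLocalRing

section Poly

variable {k : Type*} [Field k] [CharP k 2]

open MvPolynomial

theorem pderiv_sq_mul (i : Fin 3) (f g : MvPolynomial (Fin 3) k) :
    pderiv i (f ^ 2 * g) = f ^ 2 * pderiv i g := by
  have h2 : ((2 : ℕ) : MvPolynomial (Fin 3) k) = 0 := CharP.cast_eq_zero _ 2
  rw [Derivation.leibniz, Derivation.leibniz_pow, nsmul_eq_mul, h2]
  simp

theorem pderiv_sq (i : Fin 3) (f : MvPolynomial (Fin 3) k) :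
    pderiv i (f ^ 2) = 0 := by
  have := pderiv_sq_mul i f 1
  simpa using this

theorem isTwoBasis_mvPolynomial [PerfectField k] :
    IsTwoBasis (X 0 : MvPolynomial (Fin 3) k) (X 1) (X 2) := by
  constructor
  · intro v
    change v ∈ genSubring (X 0 : MvPolynomial (Fin 3) k) (X 1) (X 2)
    induction v using MvPolynomial.induction_on with
    | C a =>
      have : PerfectRing k 2 := PerfectField.toPerfectRing 2
      obtain ⟨r, hr⟩ := surjective_frobenius k 2 a
      rw [← hr, frobenius_def, C_pow]
      exact sq_mem_genSubring _ _ _ _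
    | add p q hp hq => exact add_mem hp hq
    | mul_X p i hp =>
      refine mul_mem hp ?_
      fin_cases i
      · exact z1_mem_genSubring _ _ _
      · exact z2_mem_genSubring _ _ _
      · exact z3_mem_genSubring _ _ _
  · intro f hf
    have h01 : pderiv (0 : Fin 3) (X 1 : MvPolynomial (Fin 3) k) = 0 :=
      pderiv_X_of_ne (by decide)
    have h02 : pderiv (0 : Fin 3) (X 2 : MvPolynomial (Fin 3) k) = 0 :=
      pderiv_X_of_ne (by decide)
    have h10 : pderiv (1 : Fin 3) (X 0 : MvPolynomial (Fin 3) k) = 0 :=
      pderiv_X_of_ne (by decide)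
    have h12 : pderiv (1 : Fin 3) (X 2 : MvPolynomial (Fin 3) k) = 0 :=
      pderiv_X_of_ne (by decide)
    have h20 : pderiv (2 : Fin 3) (X 0 : MvPolynomial (Fin 3) k) = 0 :=
      pderiv_X_of_ne (by decide)
    have h21 : pderiv (2 : Fin 3) (X 1 : MvPolynomial (Fin 3) k) = 0 :=
      pderiv_X_of_ne (by decide)
    have hx12 : pderiv (0 : Fin 3) (X 1 * X 2 : MvPolynomial (Fin 3) k) = 0 := by
      rw [Derivation.leibniz, h01, h02]; simp
    have e0 : pderiv (0 : Fin 3) (phi (X 0) (X 1) (X 2) f) =
        f 1 ^ 2 + f 4 ^ 2 * X 1 + f 5 ^ 2 * X 2 + f 7 ^ 2 * (X 1 * X 2) := by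
      simp only [phi, map_add, pderiv_sq_mul, pderiv_sq, h01, h02, pderiv_X_self,
        Derivation.leibniz, smul_eq_mul, mul_zero, zero_add, mul_one, add_zero]
      ring
    have e1 : pderiv (1 : Fin 3) (phi (X 0) (X 1) (X 2) f) =
        f 2 ^ 2 + f 4 ^ 2 * X 0 + f 6 ^ 2 * X 2 + f 7 ^ 2 * (X 0 * X 2) := by
      simp only [phi, map_add, pderiv_sq_mul, pderiv_sq, h10, h12, pderiv_X_self,
        Derivation.leibniz, smul_eq_mul, mul_zero, zero_add, mul_one, add_zero]
      ring
    have e2 : pderiv (2 : Fin 3) (phi (X 0) (X 1) (X 2) f) =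
        f 3 ^ 2 + f 5 ^ 2 * X 0 + f 6 ^ 2 * X 1 + f 7 ^ 2 * (X 0 * X 1) := by
      simp only [phi, map_add, pderiv_sq_mul, pderiv_sq, h20, h21, pderiv_X_self,
        Derivation.leibniz, smul_eq_mul, mul_zero, zero_add, mul_one, add_zero]
    rw [hf, map_zero] at e0 e1 e2
    have e01 : f 4 ^ 2 + f 7 ^ 2 * X 2 = 0 := by
      have := congrArg (pderiv (1 : Fin 3)) e0
      simp only [map_add, pderiv_sq_mul, pderiv_sq, h10, h12, pderiv_X_self,
        Derivation.leibniz, smul_eq_mul, mul_zero, zero_add, mul_one, add_zero, map_zero] at this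
      linear_combination -this
    have e02 : f 5 ^ 2 + f 7 ^ 2 * X 1 = 0 := by
      have := congrArg (pderiv (2 : Fin 3)) e0
      simp only [map_add, pderiv_sq_mul, pderiv_sq, h20, h21, pderiv_X_self,
        Derivation.leibniz, smul_eq_mul, mul_zero, zero_add, mul_one, add_zero, map_zero] at this
      linear_combination -this
    have e12 : f 6 ^ 2 + f 7 ^ 2 * X 0 = 0 := by
      have := congrArg (pderiv (2 : Fin 3)) e1
      simp only [map_add, pderiv_sq_mul, pderiv_sq, h20, h21, pderiv_X_self,
        Derivation.leibniz, smul_eq_mul, mul_zero, zero_add, mul_one, add_zero, map_zero] at this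
      linear_combination -this
    have f7 : f 7 = 0 := by
      have := congrArg (pderiv (2 : Fin 3)) e01
      simp only [map_add, pderiv_sq_mul, pderiv_sq, pderiv_X_self, mul_one, zero_add,
        map_zero] at this
      exact pow_eq_zero_iff (two_ne_zero) |>.1 this
    have f4 : f 4 = 0 := by
      rw [f7] at e01
      exact pow_eq_zero_iff (two_ne_zero) |>.1 (by linear_combination e01)
    have f5 : f 5 = 0 := by
      rw [f7] at e02
      exact pow_eq_zero_iff (two_ne_zero) |>.1 (by linear_combination e02)
    have f6 : f 6 = 0 := by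
      rw [f7] at e12
      exact pow_eq_zero_iff (two_ne_zero) |>.1 (by linear_combination e12)
    have f1 : f 1 = 0 := by
      rw [f4, f5, f7] at e0
      exact pow_eq_zero_iff (two_ne_zero) |>.1 (by linear_combination -e0)
    have f2 : f 2 = 0 := by
      rw [f4, f6, f7] at e1
      exact pow_eq_zero_iff (two_ne_zero) |>.1 (by linear_combination -e1)
    have f3 : f 3 = 0 := by
      rw [f5, f6, f7] at e2
      exact pow_eq_zero_iff (two_ne_zero) |>.1 (by linear_combination -e2)
    have f0 : f 0 = 0 := by
      rw [phi, f1, f2, f3, f4, f5, f6, f7] at hf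
      exact pow_eq_zero_iff (two_ne_zero) |>.1 (by linear_combination hf)
    funext i
    fin_cases i <;> assumption

end Poly

section Localization

variable {A L : Type*} [CommRing A] [CharP A 2] [CommRing L] [CharP L 2] [Algebra A L]
  (W : Submonoid A) [IsLocalization W L]

theorem map_phi (z1 z2 z3 : A) (f : Fin 8 → A) : algebraMap A L (phi z1 z2 z3 f) =
    phi (algebraMap A L z1) (algebraMap A L z2) (algebraMap A L z3)
      (fun i => algebraMap A L (f i)) := by
  simp [phi]

include W in
/-- if the images of the elements of `A` are in the subring, then everything is -/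
theorem genSubring_eq_top_of_localization {z1 z2 z3 : L}
    (h : ∀ r : A, algebraMap A L r ∈ genSubring z1 z2 z3) (v : L) : v ∈ genSubring z1 z2 z3 := by
  obtain ⟨⟨g, s⟩, hgs⟩ := IsLocalization.surj W v
  have hu : IsUnit (algebraMap A L s) := IsLocalization.map_units L s
  obtain ⟨u, hu'⟩ := hu.exists_left_inv
  have hv : v = algebraMap A L g * u := by
    have : v * algebraMap A L s = algebraMap A L g := hgs
    rw [← this]
    linear_combination (-v) * hu'
  rw [hv]
  exact mul_mem (h g) (inv_mem_genSubring (h s) hu')

include W in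
theorem phi_inj_of_localization (hW : W ≤ nonZeroDivisors A) {z1 z2 z3 : A}
    (h : ∀ f : Fin 8 → A, phi z1 z2 z3 f = 0 → f = 0) (f : Fin 8 → L)
    (hf : phi (algebraMap A L z1) (algebraMap A L z2) (algebraMap A L z3) f = 0) : f = 0 := by
  obtain ⟨s, hs⟩ := IsLocalization.exist_integer_multiples_of_finite W f
  choose g hg using hs
  have hu : IsUnit (algebraMap A L s) := IsLocalization.map_units L s
  have h1 : algebraMap A L (phi z1 z2 z3 g) = 0 := by
    rw [map_phi]
    have h2 : (fun i => algebraMap A L (g i)) = fun i => algebraMap A L s * f i := by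
      funext i
      rw [hg i, Algebra.smul_def]
    rw [h2]
    have h3 : phi (algebraMap A L z1) (algebraMap A L z2) (algebraMap A L z3)
        (fun i => algebraMap A L s * f i) = (algebraMap A L s) ^ 2 *
        phi (algebraMap A L z1) (algebraMap A L z2) (algebraMap A L z3) f := by
      simp only [phi]; ring
    rw [h3, hf, mul_zero]
  have h4 : phi z1 z2 z3 g = 0 :=
    (IsLocalization.injective L hW) (by rw [h1, map_zero])
  have h5 := h g h4
  funext i
  have h6 : algebraMap A L s * f i = 0 := by
    have := hg i
    rw [h5] at this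
    rw [Algebra.smul_def] at this
    simpa using this.symm
  exact (hu.mul_right_eq_zero).1 h6

include W in
theorem IsTwoBasis.localization (hW : W ≤ nonZeroDivisors A) {z1 z2 z3 : A}
    (h : IsTwoBasis z1 z2 z3) :
    IsTwoBasis (algebraMap A L z1) (algebraMap A L z2) (algebraMap A L z3) := by
  constructor
  · refine genSubring_eq_top_of_localization W ?_
    intro r
    obtain ⟨f, rfl⟩ := h.surj r
    exact ⟨_, (map_phi z1 z2 z3 f).symm⟩
  · exact phi_inj_of_localization W hW h.inj

end Localization

section RegLocalization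

variable {A L : Type*} [CommRing A] [CommRing L] [Algebra A L]
  (W : Submonoid A) [IsLocalization W L]

include W in
theorem RegSeq.localization {J : Ideal A} {l : List A} (h : RegSeq J l) :
    RegSeq (J.map (algebraMap A L)) (l.map (algebraMap A L)) := by
  induction l generalizing J with
  | nil => trivial
  | cons u l ih =>
    refine ⟨?_, ?_⟩
    · intro r hr
      obtain ⟨⟨g, s⟩, hgs⟩ := IsLocalization.surj W r
      have hgs' : r * algebraMap A L s = algebraMap A L g := hgs
      have h1 : algebraMap A L (u * g) ∈ J.map (algebraMap A L) := by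
        rw [map_mul, ← hgs']
        have : algebraMap A L u * (r * algebraMap A L s) =
            (algebraMap A L u * r) * algebraMap A L s := by ring
        rw [this]
        exact Ideal.mul_mem_right _ _ hr
      rw [IsLocalization.algebraMap_mem_map_algebraMap_iff W] at h1
      obtain ⟨m, hm, hmu⟩ := h1
      have h2 : m * g ∈ J := by
        apply h.1
        have : u * (m * g) = m * (u * g) := by ring
        rwa [this]
      have h3 : algebraMap A L g ∈ J.map (algebraMap A L) := by
        rw [IsLocalization.algebraMap_mem_map_algebraMap_iff W]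
        exact ⟨m, hm, h2⟩
      rw [← hgs'] at h3
      exact (Ideal.mul_unit_mem_iff_mem _ (IsLocalization.map_units L s)).1 h3
    · have h1 := ih h.2
      rw [Ideal.map_sup, Ideal.map_span, Set.image_singleton] at h1
      exact h1

end RegLocalization

end MP85340c
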