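import Pool.Agent.Lib.MP_85340c_ag.TwoBasis

/-!
# The ring `Quad S t a c`

`Quad S t a c` is the free `S`-module with basis `1, b, x, y` and multiplication
`b^2 = a c`, `b x = a y`, `b y = c x`, `x^2 = a b (a + t c)`, `x y = a c (a + t c)`,
`y^2 = b c (a + t c)`.
-/

namespace MP85340c

open IsLocalRing

/-- The free `S`-module with basis `1, b, x, y`. -/
@[ext]
structure Quad (S : Type*) [CommRing S] (t a c : S) where
  /-- coefficient of `1` -/
  w0 : S
  /-- coefficient of `b` -/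
  w1 : S
  /-- coefficient of `x` -/
  w2 : S
  /-- coefficient of `y` -/
  w3 : S

namespace Quad

variable {S : Type*} [CommRing S] {t a c : S}

instance : Zero (Quad S t a c) := ⟨⟨0, 0, 0, 0⟩⟩
instance : One (Quad S t a c) := ⟨⟨1, 0, 0, 0⟩⟩
instance : Add (Quad S t a c) := ⟨fun v w => ⟨v.w0 + w.w0, v.w1 + w.w1, v.w2 + w.w2, v.w3 + w.w3⟩⟩
instance : Neg (Quad S t a c) := ⟨fun v => ⟨-v.w0, -v.w1, -v.w2, -v.w3⟩⟩
instance : Sub (Quad S t a c) := ⟨fun v w => ⟨v.w0 - w.w0, v.w1 - w.w1, v.w2 - w.w2, v.w3 - w.w3⟩⟩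
instance : Mul (Quad S t a c) := ⟨fun v w =>
  ⟨v.w0 * w.w0 + v.w1 * w.w1 * (a * c) + (v.w2 * w.w3 + v.w3 * w.w2) * (a * c * (a + t * c)),
   v.w0 * w.w1 + v.w1 * w.w0 + v.w2 * w.w2 * (a * (a + t * c)) + v.w3 * w.w3 * (c * (a + t * c)),
   v.w0 * w.w2 + v.w2 * w.w0 + (v.w1 * w.w3 + v.w3 * w.w1) * c,
   v.w0 * w.w3 + v.w3 * w.w0 + (v.w1 * w.w2 + v.w2 * w.w1) * a⟩⟩
instance : SMul ℕ (Quad S t a c) := ⟨fun n v => ⟨n • v.w0, n • v.w1, n • v.w2, n • v.w3⟩⟩
instance : SMul ℤ (Quad S t a c) := ⟨fun n v => ⟨n • v.w0, n • v.w1, n • v.w2, n • v.w3⟩⟩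
instance : NatCast (Quad S t a c) := ⟨fun n => ⟨n, 0, 0, 0⟩⟩
instance : IntCast (Quad S t a c) := ⟨fun n => ⟨n, 0, 0, 0⟩⟩

@[simp] theorem zero_w0 : (0 : Quad S t a c).w0 = 0 := rfl
@[simp] theorem zero_w1 : (0 : Quad S t a c).w1 = 0 := rfl
@[simp] theorem zero_w2 : (0 : Quad S t a c).w2 = 0 := rfl
@[simp] theorem zero_w3 : (0 : Quad S t a c).w3 = 0 := rfl
@[simp] theorem one_w0 : (1 : Quad S t a c).w0 = 1 := rfl
@[simp] theorem one_w1 : (1 : Quad S t a c).w1 = 0 := rfl
@[simp] theorem one_w2 : (1 : Quad S t a c).w2 = 0 := rfl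
@[simp] theorem one_w3 : (1 : Quad S t a c).w3 = 0 := rfl
@[simp] theorem add_w0 (v w : Quad S t a c) : (v + w).w0 = v.w0 + w.w0 := rfl
@[simp] theorem add_w1 (v w : Quad S t a c) : (v + w).w1 = v.w1 + w.w1 := rfl
@[simp] theorem add_w2 (v w : Quad S t a c) : (v + w).w2 = v.w2 + w.w2 := rfl
@[simp] theorem add_w3 (v w : Quad S t a c) : (v + w).w3 = v.w3 + w.w3 := rfl
@[simp] theorem neg_w0 (v : Quad S t a c) : (-v).w0 = -v.w0 := rfl
@[simp] theorem neg_w1 (v : Quad S t a c) : (-v).w1 = -v.w1 := rfl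
@[simp] theorem neg_w2 (v : Quad S t a c) : (-v).w2 = -v.w2 := rfl
@[simp] theorem neg_w3 (v : Quad S t a c) : (-v).w3 = -v.w3 := rfl
@[simp] theorem sub_w0 (v w : Quad S t a c) : (v - w).w0 = v.w0 - w.w0 := rfl
@[simp] theorem sub_w1 (v w : Quad S t a c) : (v - w).w1 = v.w1 - w.w1 := rfl
@[simp] theorem sub_w2 (v w : Quad S t a c) : (v - w).w2 = v.w2 - w.w2 := rfl
@[simp] theorem sub_w3 (v w : Quad S t a c) : (v - w).w3 = v.w3 - w.w3 := rfl
@[simp] theorem mul_w0 (v w : Quad S t a c) : (v * w).w0 =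
    v.w0 * w.w0 + v.w1 * w.w1 * (a * c) + (v.w2 * w.w3 + v.w3 * w.w2) * (a * c * (a + t * c)) := rfl
@[simp] theorem mul_w1 (v w : Quad S t a c) : (v * w).w1 =
    v.w0 * w.w1 + v.w1 * w.w0 + v.w2 * w.w2 * (a * (a + t * c)) +
      v.w3 * w.w3 * (c * (a + t * c)) := rfl
@[simp] theorem mul_w2 (v w : Quad S t a c) : (v * w).w2 =
    v.w0 * w.w2 + v.w2 * w.w0 + (v.w1 * w.w3 + v.w3 * w.w1) * c := rfl
@[simp] theorem mul_w3 (v w : Quad S t a c) : (v * w).w3 =
    v.w0 * w.w3 + v.w3 * w.w0 + (v.w1 * w.w2 + v.w2 * w.w1) * a := rfl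
@[simp] theorem nsmul_w0 (n : ℕ) (v : Quad S t a c) : (n • v).w0 = n • v.w0 := rfl
@[simp] theorem nsmul_w1 (n : ℕ) (v : Quad S t a c) : (n • v).w1 = n • v.w1 := rfl
@[simp] theorem nsmul_w2 (n : ℕ) (v : Quad S t a c) : (n • v).w2 = n • v.w2 := rfl
@[simp] theorem nsmul_w3 (n : ℕ) (v : Quad S t a c) : (n • v).w3 = n • v.w3 := rfl
@[simp] theorem zsmul_w0 (n : ℤ) (v : Quad S t a c) : (n • v).w0 = n • v.w0 := rfl
@[simp] theorem zsmul_w1 (n : ℤ) (v : Quad S t a c) : (n • v).w1 = n • v.w1 := rfl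
@[simp] theorem zsmul_w2 (n : ℤ) (v : Quad S t a c) : (n • v).w2 = n • v.w2 := rfl
@[simp] theorem zsmul_w3 (n : ℤ) (v : Quad S t a c) : (n • v).w3 = n • v.w3 := rfl
@[simp] theorem natCast_w0 (n : ℕ) : (n : Quad S t a c).w0 = n := rfl
@[simp] theorem natCast_w1 (n : ℕ) : (n : Quad S t a c).w1 = 0 := rfl
@[simp] theorem natCast_w2 (n : ℕ) : (n : Quad S t a c).w2 = 0 := rfl
@[simp] theorem natCast_w3 (n : ℕ) : (n : Quad S t a c).w3 = 0 := rfl
@[simp] theorem intCast_w0 (n : ℤ) : (n : Quad S t a c).w0 = n := rfl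
@[simp] theorem intCast_w1 (n : ℤ) : (n : Quad S t a c).w1 = 0 := rfl
@[simp] theorem intCast_w2 (n : ℤ) : (n : Quad S t a c).w2 = 0 := rfl
@[simp] theorem intCast_w3 (n : ℤ) : (n : Quad S t a c).w3 = 0 := rfl

instance instCommRing : CommRing (Quad S t a c) where
  add_assoc u v w := by ext <;> simp [add_assoc]
  zero_add v := by ext <;> simp
  add_zero v := by ext <;> simp
  add_comm v w := by ext <;> simp [add_comm]
  neg_add_cancel v := by ext <;> simp
  sub_eq_add_neg v w := by ext <;> simp [sub_eq_add_neg]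
  mul_assoc u v w := by
    ext <;> simp only [mul_w0, mul_w1, mul_w2, mul_w3] <;> ring
  one_mul v := by ext <;> simp
  mul_one v := by ext <;> simp
  zero_mul v := by ext <;> simp
  mul_zero v := by ext <;> simp
  mul_comm v w := by ext <;> simp only [mul_w0, mul_w1, mul_w2, mul_w3] <;> ring
  left_distrib u v w := by
    ext <;> simp only [mul_w0, mul_w1, mul_w2, mul_w3, add_w0, add_w1, add_w2, add_w3] <;> ring
  right_distrib u v w := by
    ext <;> simp only [mul_w0, mul_w1, mul_w2, mul_w3, add_w0, add_w1, add_w2, add_w3] <;> ring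
  nsmul := (· • ·)
  nsmul_zero v := by ext <;> simp
  nsmul_succ n v := by ext <;> simp [add_mul]
  zsmul := (· • ·)
  zsmul_zero' v := by ext <;> simp
  zsmul_succ' n v := by ext <;> simp [add_mul]
  zsmul_neg' n v := by ext <;> simp [add_mul]
  natCast_zero := by ext <;> simp
  natCast_succ n := by ext <;> simp
  intCast_ofNat n := by ext <;> simp
  intCast_negSucc n := by ext <;> simp

/-- the inclusion of `S` -/
def of : S →+* Quad S t a c where
  toFun s := ⟨s, 0, 0, 0⟩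
  map_one' := rfl
  map_zero' := rfl
  map_add' u v := by ext <;> simp
  map_mul' u v := by ext <;> simp

@[simp] theorem of_w0 (s : S) : (of s : Quad S t a c).w0 = s := rfl
@[simp] theorem of_w1 (s : S) : (of s : Quad S t a c).w1 = 0 := rfl
@[simp] theorem of_w2 (s : S) : (of s : Quad S t a c).w2 = 0 := rfl
@[simp] theorem of_w3 (s : S) : (of s : Quad S t a c).w3 = 0 := rfl

instance {k : Type*} [CommRing k] [Algebra k S] : Algebra k (Quad S t a c) :=
  ((of : S →+* Quad S t a c).comp (algebraMap k S)).toAlgebra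

theorem algebraMap_eq_of : (algebraMap S (Quad S t a c)) = of := rfl

theorem algebraMap_apply' {k : Type*} [CommRing k] [Algebra k S] (r : k) :
    algebraMap k (Quad S t a c) r = of (algebraMap k S r) := rfl

instance {k : Type*} [CommRing k] [Algebra k S] : IsScalarTower k S (Quad S t a c) :=
  IsScalarTower.of_algebraMap_eq fun _ => rfl

@[simp] theorem smul_w0 (s : S) (v : Quad S t a c) : (s • v).w0 = s * v.w0 := by
  rw [Algebra.smul_def, algebraMap_eq_of]; simp
@[simp] theorem smul_w1 (s : S) (v : Quad S t a c) : (s • v).w1 = s * v.w1 := by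
  rw [Algebra.smul_def, algebraMap_eq_of]; simp
@[simp] theorem smul_w2 (s : S) (v : Quad S t a c) : (s • v).w2 = s * v.w2 := by
  rw [Algebra.smul_def, algebraMap_eq_of]; simp
@[simp] theorem smul_w3 (s : S) (v : Quad S t a c) : (s • v).w3 = s * v.w3 := by
  rw [Algebra.smul_def, algebraMap_eq_of]; simp

/-- the basis element `b` -/
def b : Quad S t a c := ⟨0, 1, 0, 0⟩
/-- the basis element `x` -/
def x : Quad S t a c := ⟨0, 0, 1, 0⟩
/-- the basis element `y` -/
def y : Quad S t a c := ⟨0, 0, 0, 1⟩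

@[simp] theorem b_w0 : (b : Quad S t a c).w0 = 0 := rfl
@[simp] theorem b_w1 : (b : Quad S t a c).w1 = 1 := rfl
@[simp] theorem b_w2 : (b : Quad S t a c).w2 = 0 := rfl
@[simp] theorem b_w3 : (b : Quad S t a c).w3 = 0 := rfl
@[simp] theorem x_w0 : (x : Quad S t a c).w0 = 0 := rfl
@[simp] theorem x_w1 : (x : Quad S t a c).w1 = 0 := rfl
@[simp] theorem x_w2 : (x : Quad S t a c).w2 = 1 := rfl
@[simp] theorem x_w3 : (x : Quad S t a c).w3 = 0 := rfl
@[simp] theorem y_w0 : (y : Quad S t a c).w0 = 0 := rfl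
@[simp] theorem y_w1 : (y : Quad S t a c).w1 = 0 := rfl
@[simp] theorem y_w2 : (y : Quad S t a c).w2 = 0 := rfl
@[simp] theorem y_w3 : (y : Quad S t a c).w3 = 1 := rfl

theorem eq_sum (v : Quad S t a c) :
    v = of v.w0 + of v.w1 * b + of v.w2 * x + of v.w3 * y := by
  ext <;> simp

theorem b_sq : (b : Quad S t a c) * b = of (a * c) := by ext <;> simp
theorem b_x : (b : Quad S t a c) * x = of a * y := by ext <;> simp
theorem b_y : (b : Quad S t a c) * y = of c * x := by ext <;> simp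
theorem x_sq : (x : Quad S t a c) * x = of (a * (a + t * c)) * b := by ext <;> simp
theorem x_y : (x : Quad S t a c) * y = of (a * c * (a + t * c)) := by ext <;> simp
theorem y_sq : (y : Quad S t a c) * y = of (c * (a + t * c)) * b := by ext <;> simp

/-- as an `S`-module, `Quad` is free of rank four -/
def linearEquiv : Quad S t a c ≃ₗ[S] (Fin 4 → S) where
  toFun v := ![v.w0, v.w1, v.w2, v.w3]
  map_add' u v := by
    funext i; fin_cases i <;> simp
  map_smul' s v := by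
    funext i; fin_cases i <;> simp
  invFun f := ⟨f 0, f 1, f 2, f 3⟩
  left_inv v := by ext <;> simp
  right_inv f := by funext i; fin_cases i <;> simp

instance : Module.Finite S (Quad S t a c) := Module.Finite.equiv linearEquiv.symm

instance : Module.Free S (Quad S t a c) := Module.Free.of_equiv linearEquiv.symm

instance [IsNoetherianRing S] : IsNoetherianRing (Quad S t a c) :=
  IsNoetherianRing.of_finite S _

theorem of_injective : Function.Injective (of : S → Quad S t a c) := by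
  intro u v h
  have := congrArg Quad.w0 h
  simpa using this

instance [CharP S 2] : CharP (Quad S t a c) 2 :=
  charP_of_injective_ringHom (f := (of : S →+* Quad S t a c)) of_injective 2

instance [Nontrivial S] : Nontrivial (Quad S t a c) := of_injective.nontrivial

/-- an extended ideal consists of the elements with all coefficients in the ideal -/
theorem mem_map_of_iff (I : Ideal S) (w : Quad S t a c) :
    w ∈ I.map (of : S →+* Quad S t a c) ↔ w.w0 ∈ I ∧ w.w1 ∈ I ∧ w.w2 ∈ I ∧ w.w3 ∈ I := by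
  constructor
  · intro h
    rw [Ideal.map] at h
    refine Submodule.span_induction ?_ ?_ ?_ ?_ h
    · rintro _ ⟨s, hs, rfl⟩
      exact ⟨hs, by simp, by simp, by simp⟩
    · simp
    · rintro u v _ _ ⟨h0, h1, h2, h3⟩ ⟨g0, g1, g2, g3⟩
      exact ⟨add_mem h0 g0, add_mem h1 g1, add_mem h2 g2, add_mem h3 g3⟩
    · rintro r u _ ⟨h0, h1, h2, h3⟩
      simp only [smul_eq_mul, mul_w0, mul_w1, mul_w2, mul_w3]
      have hl : ∀ {z : S} (r : S), z ∈ I → r * z ∈ I := fun r hz => Ideal.mul_mem_left _ r hz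
      have hr : ∀ {z : S} (r : S), z ∈ I → z * r ∈ I := fun r hz => Ideal.mul_mem_right r _ hz
      refine ⟨?_, ?_, ?_, ?_⟩
      · exact add_mem (add_mem (hl _ h0) (hr _ (hl _ h1))) (hr _ (add_mem (hl _ h3) (hl _ h2)))
      · exact add_mem (add_mem (add_mem (hl _ h1) (hl _ h0)) (hr _ (hl _ h2))) (hr _ (hl _ h3))
      · exact add_mem (add_mem (hl _ h2) (hl _ h0)) (hr _ (add_mem (hl _ h3) (hl _ h1)))
      · exact add_mem (add_mem (hl _ h3) (hl _ h0)) (hr _ (add_mem (hl _ h2) (hl _ h1)))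
  · rintro ⟨h0, h1, h2, h3⟩
    rw [eq_sum w]
    have hm : ∀ {z : S} (r : Quad S t a c), z ∈ I → of z * r ∈ I.map (of : S →+* Quad S t a c) :=
      fun r hz => Ideal.mul_mem_right r _ (Ideal.mem_map_of_mem _ hz)
    exact add_mem (add_mem (add_mem (Ideal.mem_map_of_mem _ h0) (hm _ h1)) (hm _ h2)) (hm _ h3)

theorem of_mem_map_of_iff (I : Ideal S) (s : S) :
    (of s : Quad S t a c) ∈ I.map (of : S →+* Quad S t a c) ↔ s ∈ I := by
  rw [mem_map_of_iff]
  simp

end Quad

end MP85340c
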