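import Pool.Agent.Lib.MP_85340c_ag.QuadTC
import Pool.Agent.Lib.MP_85340c_ag.Chain

/-!
# F-rationality of `Quad S t a c` for a local ring `S` with two-basis `t, a, c`
-/

namespace MP85340c

open IsLocalRing

section Dim

variable {R : Type*} [CommRing R]

theorem regSeq_get {J : Ideal R} {l : List R} (h : RegSeq J l) (i : ℕ) (hi : i < l.length) (r : R)
    (hr : l[i] * r ∈ J ⊔ Ideal.ofList (l.take i)) : r ∈ J ⊔ Ideal.ofList (l.take i) := by
  induction l generalizing J i with
  | nil => simp at hi
  | cons u l ih =>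
    cases i with
    | zero =>
      simp only [List.take_zero, Ideal.ofList_nil, sup_bot_eq, List.getElem_cons_zero] at hr ⊢
      exact h.1 r hr
    | succ i =>
      simp only [List.take_succ_cons, sup_ofList_cons, List.getElem_cons_succ] at hr ⊢
      exact ih h.2 i (by simpa using hi) hr

theorem isWeaklyRegular_of_regSeq {l : List R} (h : RegSeq ⊥ l) :
    RingTheory.Sequence.IsWeaklyRegular R l := by
  constructor
  intro i hi
  rw [isSMulRegular_quotient_iff_mem_of_smul_mem]
  intro r hr
  rw [smul_eq_mul, Ideal.mul_top] at *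
  have := regSeq_get h i hi r (by rwa [bot_sup_eq])
  rwa [bot_sup_eq] at this

theorem ofList_ofFn {d : ℕ} (z : Fin d → R) : Ideal.ofList (List.ofFn z) = Ideal.span (Set.range z) := by
  rw [Ideal.ofList]
  congr 1
  ext r
  simp [List.mem_ofFn]

variable [IsLocalRing R] [IsNoetherianRing R]

theorem height_eq_of_regSeq {l : List R} (h : RegSeq ⊥ l)
    (hrad : (Ideal.ofList l).radical = maximalIdeal R) :
    (maximalIdeal R).height = l.length := by
  classical
  refine le_antisymm ?_ ?_
  · have h1 : Ideal.ofList l = Ideal.span (l.toFinset : Set R) := by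
      rw [Ideal.ofList]; congr 1; ext z; simp
    have h2 : maximalIdeal R ∈ (Ideal.ofList l).minimalPrimes := by
      refine ⟨⟨inferInstance, ?_⟩, ?_⟩
      · rw [← hrad]; exact Ideal.le_radical
      · rintro Q ⟨hQ, hQ2⟩ _
        rw [← hrad]
        exact (hQ.radical_le_iff).2 hQ2
    rw [h1] at h2
    refine (Ideal.height_le_card_of_mem_minimalPrimes_span_finset h2).trans ?_
    exact_mod_cast List.toFinset_card_le l
  · have hle : Ideal.ofList l ≤ maximalIdeal R := by
      rw [← hrad]; exact Ideal.le_radical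
    have hne : Ideal.ofList l ≠ ⊤ := fun h0 =>
      (Ideal.IsPrime.ne_top (I := maximalIdeal R) inferInstance) (top_le_iff.1 (h0 ▸ hle))
    have hreg : RingTheory.Sequence.IsRegular R l := by
      refine ⟨isWeaklyRegular_of_regSeq h, ?_⟩
      rw [smul_eq_mul, Ideal.mul_top]
      exact hne.symm
    have h3 := ringKrullDim_add_length_eq_ringKrullDim_of_isRegular l hreg
    have : Nontrivial (R ⧸ Ideal.ofList l) := Ideal.Quotient.nontrivial_iff.2 hne
    have h4 : (0 : WithBot ℕ∞) ≤ ringKrullDim (R ⧸ Ideal.ofList l) := ringKrullDim_nonneg_of_nontrivial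
    have h5 : ((l.length : ℕ∞) : WithBot ℕ∞) ≤ ((maximalIdeal R).height : WithBot ℕ∞) := by
      rw [maximalIdeal_height_eq_ringKrullDim, ← h3]
      calc ((l.length : ℕ∞) : WithBot ℕ∞) = 0 + (l.length : WithBot ℕ∞) := by
            rw [zero_add]; rfl
        _ ≤ _ := by gcongr
    exact_mod_cast h5

end Dim

namespace Quad

variable {S : Type*} [CommRing S] {t a c : S}

theorem map_ofList (l : List S) :
    (Ideal.ofList l).map (of : S →+* Quad S t a c) = Ideal.ofList (l.map of) := by
  rw [Ideal.map_ofList]

theorem regSeq_map {J : Ideal S} {l : List S} (h : RegSeq J l) :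
    RegSeq (J.map (of : S →+* Quad S t a c)) (l.map of) := by
  induction l generalizing J with
  | nil => trivial
  | cons u l ih =>
    refine ⟨?_, ?_⟩
    · intro r hr
      rw [mem_map_of_iff] at hr ⊢
      simp only [mul_w0, mul_w1, mul_w2, mul_w3, of_w0, of_w1, of_w2, of_w3] at hr
      obtain ⟨h0, h1, h2, h3⟩ := hr
      refine ⟨h.1 _ (by simpa using h0), h.1 _ (by simpa using h1), h.1 _ (by simpa using h2),
        h.1 _ (by simpa using h3)⟩
    · have h1 := ih h.2
      rw [Ideal.map_sup, Ideal.map_span, Set.image_singleton] at h1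
      exact h1

variable [CharP S 2] [IsLocalRing S] [IsLocalRing (Quad S t a c)]

theorem radical_map (ha : a ∈ maximalIdeal S) {l : List S}
    (hrad : (Ideal.ofList l).radical = maximalIdeal S) :
    (Ideal.ofList (l.map (of : S →+* Quad S t a c))).radical = maximalIdeal (Quad S t a c) := by
  rw [← map_ofList]
  refine le_antisymm ?_ ?_
  · refine (Ideal.IsPrime.radical_le_iff inferInstance).2 ?_
    rw [Ideal.map_le_iff_le_comap]
    intro s hs
    rw [Ideal.mem_comap, mem_maximalIdeal_iff ha]
    rw [of_w0, ← hrad]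
    exact Ideal.le_radical hs
  · intro w hw
    rw [mem_maximalIdeal_iff ha] at hw
    have hA : w.sqA ∈ maximalIdeal S := by
      rw [sqA]
      exact add_mem (Ideal.pow_mem_of_mem _ hw 2 (by norm_num))
        (Ideal.mul_mem_left _ _ (Ideal.mul_mem_right _ _ ha))
    have hF : w.fourth ∈ maximalIdeal S := by
      rw [fourth]
      exact add_mem (Ideal.pow_mem_of_mem _ hA 2 (by norm_num))
        (Ideal.mul_mem_left _ _ (Ideal.mul_mem_right _ _ ha))
    rw [← hrad] at hF
    obtain ⟨n, hn⟩ := hF
    refine ⟨4 * n, ?_⟩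
    rw [pow_mul, pow_four_eq, ← map_pow]
    exact Ideal.mem_map_of_mem _ hn

theorem eq_maximalIdeal_of_le (ha : a ∈ maximalIdeal S) (hc : c ∈ maximalIdeal S)
    {P : Ideal (Quad S t a c)} (hP : P.IsPrime)
    (h : maximalIdeal S ≤ P.comap (of : S →+* Quad S t a c)) :
    P = maximalIdeal (Quad S t a c) := by
  refine le_antisymm (IsLocalRing.le_maximalIdeal hP.ne_top) ?_
  have haP : (of a : Quad S t a c) ∈ P := h ha
  have hb : (b : Quad S t a c) ∈ P := by
    have : (b : Quad S t a c) * b ∈ P := by
      rw [b_sq, map_mul]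
      exact Ideal.mul_mem_right _ _ haP
    rcases hP.mem_or_mem this with h1 | h1 <;> exact h1
  have hx : (x : Quad S t a c) ∈ P := by
    have : (x : Quad S t a c) * x ∈ P := by
      rw [x_sq]
      exact Ideal.mul_mem_left _ _ hb
    rcases hP.mem_or_mem this with h1 | h1 <;> exact h1
  have hy : (y : Quad S t a c) ∈ P := by
    have : (y : Quad S t a c) * y ∈ P := by
      rw [y_sq]
      exact Ideal.mul_mem_left _ _ hb
    rcases hP.mem_or_mem this with h1 | h1 <;> exact h1
  intro w hw
  rw [mem_maximalIdeal_iff ha] at hw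
  rw [eq_sum w]
  exact add_mem (add_mem (add_mem (h hw) (Ideal.mul_mem_left _ _ hb)) (Ideal.mul_mem_left _ _ hx))
    (Ideal.mul_mem_left _ _ hy)

/-- `Quad S t a c` is F-rational when `S` is a Noetherian local domain of characteristic two with
two-basis `t, a, c`, where `a, c` are in the maximal ideal, and `S` has a regular system of
parameters. -/
theorem isFRationalLocal [IsNoetherianRing S] [IsDomain S] (h : IsTwoBasis t a c)
    (ha : a ∈ maximalIdeal S) (hc : c ∈ maximalIdeal S) {us : List S} (hreg : RegSeq ⊥ us)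
    (hrad : (Ideal.ofList us).radical = maximalIdeal S) :
    IsFRationalLocal 2 (Quad S t a c) := by
  have hdom : IsDomain (Quad S t a c) := isDomain h
  have hreg' : RegSeq ⊥ (us.map (of : S →+* Quad S t a c)) := by
    have := regSeq_map (t := t) (a := a) (c := c) hreg
    rwa [Ideal.map_bot] at this
  have hrad' := radical_map (t := t) (c := c) ha hrad
  have hheight := height_eq_of_regSeq hreg' hrad'
  rw [List.length_map] at hheight
  have hT : ∀ (N : ℕ) (s : Set (Ideal (Quad S t a c))), s.Finite → (∀ P ∈ s, P.IsPrime) →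
      (∀ P ∈ s, P ≠ maximalIdeal (Quad S t a c)) →
      ∃ e ∈ Set.range (of : S →+* Quad S t a c), e ∈ maximalIdeal (Quad S t a c) ^ N ∧
        ∀ P ∈ s, e ∉ P := by
    intro N s hs hsp hsne
    have hex : ∃ e ∈ (maximalIdeal S) ^ N, ∀ P ∈ s, e ∉ P.comap (of : S →+* Quad S t a c) := by
      by_contra hcon
      push Not at hcon
      have hsub : (((maximalIdeal S) ^ N : Ideal S) : Set S) ⊆
          ⋃ P ∈ s, ((P.comap (of : S →+* Quad S t a c) : Ideal S) : Set S) := by
        intro e he
        obtain ⟨P, hP, heP⟩ := hcon e he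
        exact Set.mem_biUnion hP heP
      obtain ⟨P, hP, hmP⟩ := (Ideal.subset_union_prime_finite
        (f := fun P : Ideal (Quad S t a c) => P.comap (of : S →+* Quad S t a c)) hs ⊥ ⊥
        (fun P hP _ _ => by
          have := hsp P hP
          exact Ideal.IsPrime.comap _)).1 hsub
      have hPp := hsp P hP
      have hle : maximalIdeal S ≤ P.comap (of : S →+* Quad S t a c) := by
        have : (P.comap (of : S →+* Quad S t a c)).IsPrime := Ideal.IsPrime.comap _
        exact Ideal.IsPrime.le_of_pow_le hmP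
      exact hsne P hP (eq_maximalIdeal_of_le ha hc hPp hle)
    obtain ⟨e, he, heP⟩ := hex
    refine ⟨of e, ⟨e, rfl⟩, ?_, heP⟩
    have hle : (maximalIdeal S).map (of : S →+* Quad S t a c) ≤ maximalIdeal (Quad S t a c) := by
      rw [Ideal.map_le_iff_le_comap]
      intro s hs
      rw [Ideal.mem_comap, mem_maximalIdeal_iff ha]
      simpa using hs
    have h1 := Ideal.mem_map_of_mem (of : S →+* Quad S t a c) he
    rw [Ideal.map_pow] at h1
    exact Ideal.pow_right_mono hle N h1
  have hTC : ∀ es : List (Quad S t a c), (∀ e ∈ es, e ∈ Set.range (of : S →+* Quad S t a c)) →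
      TC (Ideal.ofList es) := by
    intro es hes
    obtain ⟨es0, rfl⟩ : ∃ es0 : List S, es0.map (of : S →+* Quad S t a c) = es := by
      induction es with
      | nil => exact ⟨[], rfl⟩
      | cons e es ih =>
        obtain ⟨es0, h0⟩ := ih (fun w hw => hes w (List.mem_cons_of_mem _ hw))
        obtain ⟨e0, he0⟩ := hes e (by simp)
        exact ⟨e0 :: es0, by rw [List.map_cons, he0, h0]⟩
    rw [← map_ofList]
    intro d w hd hw
    exact mem_map_of_forall h _ hd hw
  rintro I ⟨d, z, hdim, rfl, hIrad⟩
  refine Set.Subset.antisymm ?_ (le_tightClosure 2 _)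
  rintro g ⟨e, he, hN⟩
  rw [not_mem_minimalPrimes_iff] at he
  have hd : (d : ℕ) = us.length := by
    rw [← maximalIdeal_height_eq_ringKrullDim, hheight] at hdim
    exact_mod_cast hdim.symm
  have key := tc_of_rich hheight (us := us.map (of : S →+* Quad S t a c)) (by simp) hreg' hrad'
    (Set.range (of : S →+* Quad S t a c)) hT hTC us.length (List.ofFn z) [] (by simp [hd])
    (by simp) (by simp) (by rw [List.append_nil, ofList_ofFn]; exact hIrad)
  rw [List.append_nil, ofList_ofFn] at key
  exact key e g he hN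

end Quad

end MP85340c
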