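import Pool.Agent.Lib.MP_85340c_ag.Quad

/-!
# Squares in `Quad S t a c` in characteristic two, and tight closure of extended ideals
-/

namespace MP85340c

open IsLocalRing

namespace Quad

variable {S : Type*} [CommRing S] {t a c : S}

section CharTwo

variable [CharP S 2]

/-- the `1`-coefficient of `w ^ 2` -/
def sqA (w : Quad S t a c) : S := w.w0 ^ 2 + w.w1 ^ 2 * (a * c)

/-- the `b`-coefficient of `w ^ 2` -/
def sqB (w : Quad S t a c) : S :=
  w.w2 ^ 2 * (a * (a + t * c)) + w.w3 ^ 2 * (c * (a + t * c))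

/-- the fourth power -/
def fourth (w : Quad S t a c) : S := w.sqA ^ 2 + w.sqB ^ 2 * (a * c)

theorem sq_eq (w : Quad S t a c) : w ^ 2 = of w.sqA + of w.sqB * b := by
  have h2 : (2 : S) = 0 := CharTwo.two_eq_zero
  rw [sq]
  ext
  · simp only [mul_w0, sqA, sqB, add_w0, of_w0, b_w0, of_w1, of_w2, of_w3, b_w1, b_w2, b_w3]
    linear_combination (w.w2 * w.w3 * (a * c * (a + t * c))) * h2
  · simp only [mul_w1, sqA, sqB, add_w1, of_w0, b_w0, of_w1, of_w2, of_w3, b_w1, b_w2, b_w3]
    linear_combination (w.w0 * w.w1) * h2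
  · simp only [mul_w2, sqA, sqB, add_w2, of_w0, b_w0, of_w1, of_w2, of_w3, b_w1, b_w2, b_w3]
    linear_combination (w.w0 * w.w2 + w.w1 * w.w3 * c) * h2
  · simp only [mul_w3, sqA, sqB, add_w3, of_w0, b_w0, of_w1, of_w2, of_w3, b_w1, b_w2, b_w3]
    linear_combination (w.w0 * w.w3 + w.w1 * w.w2 * a) * h2

theorem pow_four_eq (w : Quad S t a c) : w ^ 4 = of w.fourth := by
  have h1 : w ^ 4 = (w ^ 2) ^ 2 := by ring
  rw [h1, sq_eq w, CharTwo.add_sq, mul_pow, ← map_pow, ← map_pow, sq b, b_sq, ← map_mul,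
    ← map_add, fourth]

omit [CharP S 2] in
theorem sqA_eq_phi (w : Quad S t a c) : w.sqA = phi t a c ![w.w0, 0, 0, 0, 0, 0, w.w1, 0] := by
  simp [sqA, phi]

omit [CharP S 2] in
theorem sqB_eq_phi (w : Quad S t a c) :
    w.sqB = phi t a c ![0, w.w3 * c, 0, 0, 0, 0, w.w3, w.w2] + (w.w2 * a) ^ 2 := by
  simp [sqB, phi]
  ring

omit [CharP S 2] in
theorem sqB_eq_phi' (w : Quad S t a c) :
    w.sqB = phi t a c ![w.w2 * a, w.w3 * c, 0, 0, 0, 0, w.w3, w.w2] := by
  simp [sqB, phi]
  ring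

omit [CharP S 2] in
theorem fourth_eq_phi (w : Quad S t a c) :
    w.fourth = phi t a c ![w.sqA, 0, 0, 0, 0, 0, w.sqB, 0] := by
  simp [fourth, phi]

theorem mem_of_fourth_mem (h : IsTwoBasis t a c) (I : Ideal S) (w : Quad S t a c)
    (hw : w.fourth ∈ bracketPow (bracketPow I 2) 2) :
    w ∈ I.map (of : S →+* Quad S t a c) := by
  rw [fourth_eq_phi, phi_mem_bracketPow_two h] at hw
  have hA : w.sqA ∈ bracketPow I 2 := by simpa using hw 0
  have hB : w.sqB ∈ bracketPow I 2 := by simpa using hw 6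
  rw [sqA_eq_phi, phi_mem_bracketPow_two h] at hA
  rw [sqB_eq_phi', phi_mem_bracketPow_two h] at hB
  rw [mem_map_of_iff]
  refine ⟨by simpa using hA 0, by simpa using hA 6, by simpa using hB 7, by simpa using hB 6⟩

theorem eq_zero_of_fourth_eq_zero (h : IsTwoBasis t a c) (w : Quad S t a c)
    (hw : w.fourth = 0) : w = 0 := by
  rw [fourth_eq_phi] at hw
  have h1 := h.inj _ hw
  have hA : w.sqA = 0 := by simpa using congrFun h1 0
  have hB : w.sqB = 0 := by simpa using congrFun h1 6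
  rw [sqA_eq_phi] at hA
  rw [sqB_eq_phi'] at hB
  have h2 := h.inj _ hA
  have h3 := h.inj _ hB
  ext
  · simpa using congrFun h2 0
  · simpa using congrFun h2 6
  · simpa using congrFun h3 7
  · simpa using congrFun h3 6

theorem isDomain (h : IsTwoBasis t a c) [IsDomain S] : IsDomain (Quad S t a c) := by
  have : NoZeroDivisors (Quad S t a c) := by
    constructor
    intro u v huv
    have h1 : (of (u.fourth * v.fourth) : Quad S t a c) = 0 := by
      rw [map_mul, ← pow_four_eq, ← pow_four_eq, ← mul_pow, huv]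
      ring
    have h2 : u.fourth * v.fourth = 0 := by
      have := congrArg Quad.w0 h1
      simpa using this
    rcases mul_eq_zero.1 h2 with h3 | h3
    · exact Or.inl (eq_zero_of_fourth_eq_zero h u h3)
    · exact Or.inr (eq_zero_of_fourth_eq_zero h v h3)
  exact NoZeroDivisors.to_isDomain _

/-- `Quad S t a c` is local with residue map `w ↦ w.w0`. -/
theorem isUnit_iff [IsLocalRing S] (ha : a ∈ maximalIdeal S)
    (w : Quad S t a c) : IsUnit w ↔ IsUnit w.w0 := by
  constructor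
  · intro h
    obtain ⟨v, hv⟩ := h.exists_right_inv
    by_contra hn
    have h0 : w.w0 ∈ maximalIdeal S := (mem_maximalIdeal _).2 hn
    have h1 : (w * v).w0 ∈ maximalIdeal S := by
      simp only [mul_w0]
      refine add_mem (add_mem (Ideal.mul_mem_right _ _ h0) ?_) ?_
      · exact Ideal.mul_mem_left _ _ (Ideal.mul_mem_right _ _ ha)
      · exact Ideal.mul_mem_left _ _ (Ideal.mul_mem_right _ _ (Ideal.mul_mem_right _ _ ha))
    rw [hv] at h1
    exact (Ideal.ne_top_iff_one _).1 (Ideal.IsPrime.ne_top inferInstance) h1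
  · intro h
    have hA : IsUnit w.sqA := by
      have h1 : w.w1 ^ 2 * (a * c) ∈ maximalIdeal S :=
        Ideal.mul_mem_left _ _ (Ideal.mul_mem_right _ _ ha)
      by_contra hn
      have h2 : w.sqA ∈ maximalIdeal S := (mem_maximalIdeal _).2 hn
      have h3 : w.w0 ^ 2 ∈ maximalIdeal S := by
        have : w.w0 ^ 2 = w.sqA - w.w1 ^ 2 * (a * c) := by simp [sqA]
        rw [this]
        exact sub_mem h2 h1
      exact ((mem_maximalIdeal _).1 h3) (h.pow 2)
    have hF : IsUnit w.fourth := by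
      by_contra hn
      have h2 : w.fourth ∈ maximalIdeal S := (mem_maximalIdeal _).2 hn
      have h3 : w.sqA ^ 2 ∈ maximalIdeal S := by
        have : w.sqA ^ 2 = w.fourth - w.sqB ^ 2 * (a * c) := by simp [fourth]
        rw [this]
        exact sub_mem h2 (Ideal.mul_mem_left _ _ (Ideal.mul_mem_right _ _ ha))
      exact ((mem_maximalIdeal _).1 h3) (hA.pow 2)
    have h4 : IsUnit (w ^ 4) := by
      rw [pow_four_eq]
      exact hF.map _
    exact (isUnit_pow_iff (by norm_num)).1 h4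

theorem isLocalRing [IsLocalRing S] (ha : a ∈ maximalIdeal S) :
    IsLocalRing (Quad S t a c) := by
  refine IsLocalRing.of_nonunits_add ?_
  intro u v hu hv
  rw [mem_nonunits_iff, isUnit_iff ha] at *
  simp only [add_w0]
  have hu' : u.w0 ∈ maximalIdeal S := (mem_maximalIdeal _).2 hu
  have hv' : v.w0 ∈ maximalIdeal S := (mem_maximalIdeal _).2 hv
  exact (mem_maximalIdeal _).1 (add_mem hu' hv')

theorem mem_maximalIdeal_iff [IsLocalRing S] [IsLocalRing (Quad S t a c)]
    (ha : a ∈ maximalIdeal S) (w : Quad S t a c) : w ∈ maximalIdeal (Quad S t a c) ↔ w.w0 ∈ maximalIdeal S := by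
  rw [mem_maximalIdeal, mem_maximalIdeal, mem_nonunits_iff, mem_nonunits_iff, isUnit_iff ha]

theorem bracketPow_map_of (I : Ideal S) (e : ℕ) (s : S)
    (hs : (of s : Quad S t a c) ∈ bracketPow (I.map (of : S →+* Quad S t a c)) (2 ^ e)) :
    s ∈ bracketPow I (2 ^ e) := by
  have hle : bracketPow (I.map (of : S →+* Quad S t a c)) (2 ^ e) ≤
      (bracketPow I (2 ^ e)).map (of : S →+* Quad S t a c) := by
    refine Ideal.span_le.2 ?_
    rintro _ ⟨z, hz, rfl⟩
    simp only [SetLike.mem_coe] at hz ⊢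
    rw [Ideal.map] at hz
    refine Submodule.span_induction ?_ ?_ ?_ ?_ hz
    · rintro _ ⟨r, hr, rfl⟩
      rw [← map_pow]
      exact Ideal.mem_map_of_mem _ (pow_mem_bracketPow hr _)
    · simp
    · intro u v _ _ hu hv
      rw [add_pow_char_pow]
      exact add_mem hu hv
    · intro r u _ hu
      rw [smul_eq_mul, mul_pow]
      exact Ideal.mul_mem_left _ _ hu
  exact (of_mem_map_of_iff _ _).1 (hle hs)

/-- Extended ideals of `Quad S t a c` are tightly closed. -/
theorem mem_map_of_forall [IsLocalRing S] [IsNoetherianRing S] [IsDomain S]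
    (h : IsTwoBasis t a c) (I : Ideal S) {d w : Quad S t a c} (hd : d ≠ 0)
    (hw : ∃ N : ℕ, ∀ e : ℕ, N ≤ e →
      d * w ^ (2 ^ e) ∈ bracketPow (I.map (of : S →+* Quad S t a c)) (2 ^ e)) :
    w ∈ I.map (of : S →+* Quad S t a c) := by
  obtain ⟨N, hN⟩ := hw
  refine mem_of_fourth_mem h I w ?_
  rw [bracketPow_two_mul]
  have hd4 : d.fourth ≠ 0 := fun h0 => hd (eq_zero_of_fourth_eq_zero h d h0)
  refine mem_of_forall_mul_pow_mem h _ hd4 ⟨N, fun e he => ?_⟩
  have h1 : (2 : ℕ) * 2 = 2 ^ 2 := by norm_num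
  rw [h1, bracketPow_two_pow_add]
  refine bracketPow_map_of (t := t) (a := a) (c := c) I (2 + e) _ ?_
  rw [map_mul, map_pow, ← pow_four_eq, ← pow_four_eq, ← pow_mul]
  have h2 : 4 * 2 ^ e = 2 ^ (2 + e) := by rw [pow_add]; norm_num
  have h3 : d ^ 4 = d ^ 3 * d := by ring
  rw [h2, h3, mul_assoc]
  exact Ideal.mul_mem_left _ _ (hN _ (by omega))

end CharTwo

end Quad

end MP85340c
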