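import Pool.Agent.Lib.MP_85340c_ag.QuadLocal

/-!
# Regular systems of parameters at all primes of a polynomial ring
-/

namespace MP85340c

open IsLocalRing RingTheory.Sequence Polynomial

section Conv

variable {R : Type*} [CommRing R]

theorem regSeq_of_isWeaklyRegular_append (l : List R) : ∀ l0 : List R,
    IsWeaklyRegular R (l0 ++ l) → RegSeq (Ideal.ofList l0) l := by
  induction l with
  | nil => intro _ _; trivial
  | cons u l ih =>
    intro l0 h
    refine ⟨?_, ?_⟩
    · intro r hr
      have hlt : l0.length < (l0 ++ u :: l).length := by simp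
      have h1 := h.regular_mod_prev l0.length hlt
      rw [List.take_left', List.getElem_append_right (le_refl _)] at h1
      · simp only [le_refl, Nat.sub_self, List.getElem_cons_zero] at h1
        rw [smul_eq_mul, Ideal.mul_top] at h1
        have h2 : u • (Ideal.Quotient.mk (Ideal.ofList l0) r) =
            u • (Ideal.Quotient.mk (Ideal.ofList l0) 0) := by
          rw [map_zero, smul_zero, Algebra.smul_def]
          change Ideal.Quotient.mk _ u * Ideal.Quotient.mk _ r = 0
          rw [← map_mul, Ideal.Quotient.eq_zero_iff_mem]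
          exact hr
        have h3 := h1 h2
        rwa [map_zero, Ideal.Quotient.eq_zero_iff_mem] at h3
      · rfl
    · have h4 : Ideal.ofList (l0 ++ [u]) = Ideal.ofList l0 ⊔ Ideal.span {u} := by
        rw [Ideal.ofList_append, Ideal.ofList_singleton]
      rw [← h4]
      apply ih
      simpa using h

theorem regSeq_of_isWeaklyRegular {l : List R} (h : IsWeaklyRegular R l) : RegSeq ⊥ l := by
  have := regSeq_of_isWeaklyRegular_append l [] (by simpa using h)
  rwa [Ideal.ofList_nil] at this

theorem isWeaklyRegular_map_of_flat {A B : Type*} [CommRing A] [CommRing B] (f : A →+* B)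
    (hf : f.Flat) {rs : List A} (h : IsWeaklyRegular A rs) : IsWeaklyRegular B (rs.map f) := by
  algebraize [f]
  exact h.of_flat

end Conv

/-- every local ring of `A` has a regular system of parameters generating the maximal ideal -/
def HasRSOP (A : Type*) [CommRing A] : Prop :=
  ∀ (n : Ideal A) [n.IsPrime], ∃ us : List (Localization.AtPrime n),
    RegSeq ⊥ us ∧ Ideal.ofList us = maximalIdeal (Localization.AtPrime n)

theorem hasRSOP_field (k : Type*) [Field k] : HasRSOP k := by
  intro n hn
  refine ⟨[], trivial, ?_⟩
  rw [Ideal.ofList_nil]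
  have h1 : n = ⊥ := (Ideal.eq_bot_or_top n).resolve_right hn.ne_top
  have h2 : n.map (algebraMap k (Localization.AtPrime n)) =
      maximalIdeal (Localization.AtPrime n) := Localization.AtPrime.map_eq_maximalIdeal
  rw [← h2]
  apply le_antisymm bot_le
  rw [Ideal.map_le_iff_le_comap]
  intro x hx
  rw [h1, Ideal.mem_bot] at hx
  rw [hx]
  exact zero_mem _

theorem exists_rsop_of_ringEquiv {L L' : Type*} [CommRing L] [CommRing L'] [IsLocalRing L]
    [IsLocalRing L'] (E : L ≃+* L')
    (h : ∃ us : List L, RegSeq ⊥ us ∧ Ideal.ofList us = maximalIdeal L) :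
    ∃ us : List L', RegSeq ⊥ us ∧ Ideal.ofList us = maximalIdeal L' := by
  obtain ⟨us, h1, h2⟩ := h
  refine ⟨us.map (E : L →+* L'), ?_, ?_⟩
  · apply regSeq_of_isWeaklyRegular
    exact isWeaklyRegular_map_of_flat _ (RingHom.Flat.of_bijective E.bijective)
      (isWeaklyRegular_of_regSeq h1)
  · rw [← Ideal.map_ofList, h2]
    exact IsLocalRing.map_ringEquiv_maximalIdeal E

theorem exists_rsop_localization {B : Type*} [CommRing B] (P : Ideal B) [P.IsPrime]
    (h : ∃ vs : List B, RegSeq ⊥ vs ∧ Ideal.ofList vs = P) :
    ∃ us : List (Localization.AtPrime P), RegSeq ⊥ us ∧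
      Ideal.ofList us = maximalIdeal (Localization.AtPrime P) := by
  obtain ⟨vs, h1, h2⟩ := h
  refine ⟨vs.map (algebraMap B (Localization.AtPrime P)), ?_, ?_⟩
  · apply regSeq_of_isWeaklyRegular
    refine isWeaklyRegular_map_of_flat _ ?_ (isWeaklyRegular_of_regSeq h1)
    rw [RingHom.flat_algebraMap_iff]
    exact IsLocalization.flat _ P.primeCompl
  · rw [← Ideal.map_ofList, h2]
    exact Localization.AtPrime.map_eq_maximalIdeal

theorem exists_rsop_of_isLocalization {T S : Type*} [CommRing T] [CommRing S] [Algebra T S]
    (p : Ideal T) [p.IsPrime] (pS : Ideal S) [pS.IsPrime]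
    (hloc : IsLocalization.AtPrime (Localization.AtPrime pS) p)
    (h : ∃ vs : List S, RegSeq ⊥ vs ∧ Ideal.ofList vs = pS) :
    ∃ us : List (Localization.AtPrime p), RegSeq ⊥ us ∧
      Ideal.ofList us = maximalIdeal (Localization.AtPrime p) :=
  exists_rsop_of_ringEquiv
    (IsLocalization.algEquiv p.primeCompl
      (Localization.AtPrime pS) (Localization.AtPrime p)).toRingEquiv
    (exists_rsop_localization pS h)

theorem HasRSOP.of_ringEquiv {A B : Type*} [CommRing A] [CommRing B] (e : A ≃+* B)
    (h : HasRSOP A) : HasRSOP B := by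
  intro n hn
  exact exists_rsop_of_ringEquiv (IsLocalization.ringEquivOfRingEquiv
      (Localization.AtPrime (n.comap e)) (Localization.AtPrime n) e (e.map_primeCompl_comap_eq n))
      (h (n.comap e))

/-- the local case of the polynomial extension -/
theorem exists_regSeq_polynomial {B : Type*} [CommRing B] [IsLocalRing B] {us : List B}
    (hreg : RegSeq ⊥ us) (hus : Ideal.ofList us = maximalIdeal B) (P : Ideal B[X]) [hP : P.IsPrime]
    (hPB : P.comap C = maximalIdeal B) : ∃ vs : List B[X], RegSeq ⊥ vs ∧ Ideal.ofList vs = P := by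
  have h1 : RegSeq ⊥ (us.map (C : B →+* B[X])) := by
    apply regSeq_of_isWeaklyRegular
    refine isWeaklyRegular_map_of_flat _ ?_ (isWeaklyRegular_of_regSeq hreg)
    rw [← Polynomial.algebraMap_eq, RingHom.flat_algebraMap_iff]
    infer_instance
  have h2 : Ideal.ofList (us.map (C : B →+* B[X])) = (maximalIdeal B).map C := by
    rw [← Ideal.map_ofList, hus]
  by_cases hne : P = (maximalIdeal B).map C
  · exact ⟨_, h1, by rw [h2, hne]⟩
  · have hmax : (P.comap C).IsMaximal := by rw [hPB]; exact maximalIdeal.isMaximal B
    obtain ⟨y, hy, hPy⟩ := Polynomial.exists_monic_span_sup_map_eq B P hmax (by rwa [hPB])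
    rw [hPB] at hPy
    refine ⟨us.map (C : B →+* B[X]) ++ [y], ?_, ?_⟩
    · rw [regSeq_append_singleton, bot_sup_eq]
      refine ⟨h1, ?_⟩
      intro r hr
      rw [h2] at hr ⊢
      have hprime : ((maximalIdeal B).map (C : B →+* B[X])).IsPrime :=
        Ideal.isPrime_map_C_of_isPrime
      rcases hprime.mem_or_mem hr with h3 | h3
      · exfalso
        have h4 := (Ideal.mem_map_C_iff.1 h3) y.natDegree
        rw [hy.coeff_natDegree] at h4
        exact (Ideal.ne_top_iff_one _).1 (Ideal.IsPrime.ne_top (I := maximalIdeal B) inferInstance) h4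
      · exact h3
    · rw [Ideal.ofList_append, h2, Ideal.ofList_singleton, ← hPy]

theorem HasRSOP.polynomial {A : Type*} [CommRing A] (h : HasRSOP A) : HasRSOP A[X] := by
  intro p hp
  let q := p.comap (C : A →+* A[X])
  have hq : q.IsPrime := Ideal.IsPrime.comap _
  let S := (Localization.AtPrime q)[X]
  let pc := Submonoid.map Polynomial.C.toMonoidHom q.primeCompl
  let : Algebra A[X] S := algebra A (Localization.AtPrime q)
  have : IsLocalization pc S := Polynomial.isLocalization _ _
  let pS := p.map (algebraMap A[X] S)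
  have disj : Disjoint (pc : Set A[X]) (p : Set A[X]) := by
    rw [Set.disjoint_left]
    rintro _ ⟨a, ha, rfl⟩ hb
    exact ha hb
  have hpS : pS.IsPrime := IsLocalization.isPrime_of_isPrime_disjoint pc _ _ ‹_› disj
  have key : ∀ (I : Ideal A[X]) [I.IsPrime], I = p →
      IsLocalization.AtPrime (Localization.AtPrime pS) I →
      IsLocalization.AtPrime (Localization.AtPrime pS) p := by
    rintro I _ rfl h
    exact h
  have hloc : IsLocalization.AtPrime (Localization.AtPrime pS) p :=
    key _ (IsLocalization.under_map_of_isPrime_disjoint pc _ ‹_› disj)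
      (IsLocalization.isLocalization_isLocalization_atPrime_isLocalization pc
        (Localization.AtPrime pS) pS)
  have eq : Ideal.comap C pS = maximalIdeal (Localization.AtPrime q) := by
    rw [← IsLocalization.map_under q.primeCompl _ (Ideal.comap C pS),
      ← IsLocalization.map_under q.primeCompl _ (maximalIdeal (Localization.AtPrime q))]
    simp only [Ideal.comap_comap, S, pS]
    rw [← Polynomial.algebraMap_eq (R := Localization.AtPrime q),
      ← IsScalarTower.algebraMap_eq A (Localization.AtPrime q) (Localization.AtPrime q)[X],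
      IsScalarTower.algebraMap_eq A A[X] (Localization.AtPrime q)[X], ← Ideal.comap_comap,
      ← Ideal.under_def A[X], IsLocalization.under_map_of_isPrime_disjoint pc _ ‹_› disj]
    simp [q, IsLocalization.AtPrime.under_maximalIdeal (Localization.AtPrime q) q]
  obtain ⟨us, h1, h2⟩ := h q
  exact exists_rsop_of_isLocalization p pS hloc (exists_regSeq_polynomial h1 h2 pS eq)

theorem hasRSOP_mvPolynomial (k : Type*) [Field k] (n : ℕ) :
    HasRSOP (MvPolynomial (Fin n) k) := by
  induction n with
  | zero => exact (hasRSOP_field k).of_ringEquiv (MvPolynomial.isEmptyRingEquiv k (Fin 0)).symm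
  | succ n ih => exact ih.polynomial.of_ringEquiv (MvPolynomial.finSuccEquiv k n).toRingEquiv.symm

end MP85340c
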