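import Pool.Agent.Lib.MP_85340c_ag.Example

/-!
# The points of the singular line and the test homomorphism to power series
-/

namespace MP85340c

open IsLocalRing

section Theta

variable {k : Type*} [Field k] (c0 : k)

/-- `k[t,a,c] → k[[τ]]`, `t ↦ c0 + τ`, `a, c ↦ 0` -/
noncomputable def thetaPoly : MvPolynomial (Fin 3) k →+* PowerSeries k :=
  MvPolynomial.eval₂Hom (PowerSeries.C : k →+* PowerSeries k)
    ![PowerSeries.C c0 + PowerSeries.X, 0, 0]

theorem thetaPoly_C (r : k) : thetaPoly c0 (MvPolynomial.C r) = PowerSeries.C r := by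
  simp [thetaPoly]

theorem thetaPoly_X0 : thetaPoly c0 (MvPolynomial.X 0) = PowerSeries.C c0 + PowerSeries.X := by
  simp [thetaPoly]

theorem thetaPoly_X1 : thetaPoly c0 (MvPolynomial.X 1) = 0 := by
  simp [thetaPoly]

theorem thetaPoly_X2 : thetaPoly c0 (MvPolynomial.X 2) = 0 := by
  simp [thetaPoly]

theorem isUnit_thetaPoly (hc : c0 ≠ 0) : IsUnit (thetaPoly c0 (MvPolynomial.X 0)) := by
  rw [thetaPoly_X0, PowerSeries.isUnit_iff_constantCoeff]
  simp [hc]

/-- `k[t,t⁻¹,a,c] → k[[τ]]`, `t ↦ c0 + τ`, `a, c ↦ 0` -/
noncomputable def theta (hc : c0 ≠ 0) : Base k →+* PowerSeries k :=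
  IsLocalization.Away.lift (MvPolynomial.X 0) (isUnit_thetaPoly c0 hc)

variable {c0} (hc : c0 ≠ 0)

theorem theta_algebraMap' (p : MvPolynomial (Fin 3) k) :
    theta c0 hc (algebraMap _ (Base k) p) = thetaPoly c0 p :=
  IsLocalization.Away.lift_eq _ (isUnit_thetaPoly c0 hc) p

theorem theta_algebraMap (r : k) :
    theta c0 hc (algebraMap k (Base k) r) = PowerSeries.C r := by
  rw [IsScalarTower.algebraMap_apply k (MvPolynomial (Fin 3) k) (Base k), theta_algebraMap',
    MvPolynomial.algebraMap_eq, thetaPoly_C]

theorem theta_tB : theta c0 hc (tB k) = PowerSeries.C c0 + PowerSeries.X := by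
  rw [tB, theta_algebraMap', thetaPoly_X0]

theorem theta_aB : theta c0 hc (aB k) = 0 := by
  rw [aB, theta_algebraMap', thetaPoly_X1]

theorem theta_cB : theta c0 hc (cB k) = 0 := by
  rw [cB, theta_algebraMap', thetaPoly_X2]

theorem sub_C_mem (p : MvPolynomial (Fin 3) k) :
    p - MvPolynomial.C (PowerSeries.constantCoeff (thetaPoly c0 p)) ∈
      Ideal.span {MvPolynomial.X 0 - MvPolynomial.C c0, MvPolynomial.X 1,
        (MvPolynomial.X 2 : MvPolynomial (Fin 3) k)} := by
  have h0 : (MvPolynomial.X 0 - MvPolynomial.C c0 : MvPolynomial (Fin 3) k) ∈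
      Ideal.span {MvPolynomial.X 0 - MvPolynomial.C c0, MvPolynomial.X 1,
        (MvPolynomial.X 2 : MvPolynomial (Fin 3) k)} := Ideal.subset_span (by simp)
  have h1 : (MvPolynomial.X 1 : MvPolynomial (Fin 3) k) ∈
      Ideal.span {MvPolynomial.X 0 - MvPolynomial.C c0, MvPolynomial.X 1,
        (MvPolynomial.X 2 : MvPolynomial (Fin 3) k)} := Ideal.subset_span (by simp)
  have h2 : (MvPolynomial.X 2 : MvPolynomial (Fin 3) k) ∈
      Ideal.span {MvPolynomial.X 0 - MvPolynomial.C c0, MvPolynomial.X 1,
        (MvPolynomial.X 2 : MvPolynomial (Fin 3) k)} := Ideal.subset_span (by simp)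
  induction p using MvPolynomial.induction_on with
  | C a => simp [thetaPoly_C]
  | add p q hp hq =>
    have : p + q - MvPolynomial.C (PowerSeries.constantCoeff (thetaPoly c0 (p + q))) =
        (p - MvPolynomial.C (PowerSeries.constantCoeff (thetaPoly c0 p))) +
          (q - MvPolynomial.C (PowerSeries.constantCoeff (thetaPoly c0 q))) := by
      rw [map_add, map_add, map_add]; ring
    rw [this]
    exact add_mem hp hq
  | mul_X p i hp =>
    have hX : (MvPolynomial.X i -
        MvPolynomial.C (PowerSeries.constantCoeff (thetaPoly c0 (MvPolynomial.X i))) :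
          MvPolynomial (Fin 3) k) ∈
        Ideal.span {MvPolynomial.X 0 - MvPolynomial.C c0, MvPolynomial.X 1,
        (MvPolynomial.X 2 : MvPolynomial (Fin 3) k)} := by
      fin_cases i
      · simp only [Fin.zero_eta, thetaPoly_X0, map_add, PowerSeries.constantCoeff_C,
          PowerSeries.constantCoeff_X, add_zero]
        exact h0
      · simp only [Fin.mk_one, thetaPoly_X1, map_zero, sub_zero]
        exact h1
      · simp only [Fin.reduceFinMk, thetaPoly_X2, map_zero, sub_zero]
        exact h2
    have : p * MvPolynomial.X i -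
        MvPolynomial.C (PowerSeries.constantCoeff (thetaPoly c0 (p * MvPolynomial.X i))) =
        (p - MvPolynomial.C (PowerSeries.constantCoeff (thetaPoly c0 p))) * MvPolynomial.X i +
        MvPolynomial.C (PowerSeries.constantCoeff (thetaPoly c0 p)) * (MvPolynomial.X i -
          MvPolynomial.C (PowerSeries.constantCoeff (thetaPoly c0 (MvPolynomial.X i)))) := by
      rw [map_mul, map_mul, map_mul]; ring
    rw [this]
    exact add_mem (Ideal.mul_mem_right _ _ hp) (Ideal.mul_mem_left _ _ hX)

theorem mem_of_constantCoeff_theta (s : Base k)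
    (hs : PowerSeries.constantCoeff (theta c0 hc s) = 0) :
    s ∈ Ideal.span {tB k - algebraMap k (Base k) c0, aB k, cB k} := by
  obtain ⟨n, p, hp⟩ := IsLocalization.Away.surj
    (MvPolynomial.X 0 : MvPolynomial (Fin 3) k) s
  have h1 : PowerSeries.constantCoeff (thetaPoly c0 p) = 0 := by
    rw [← theta_algebraMap' hc, ← hp, map_mul, map_mul, hs, zero_mul]
  have h2 := sub_C_mem (c0 := c0) p
  rw [h1, map_zero, sub_zero] at h2
  have h3 := Ideal.mem_map_of_mem (algebraMap (MvPolynomial (Fin 3) k) (Base k)) h2
  rw [Ideal.map_span, Set.image_insert_eq, Set.image_insert_eq, Set.image_singleton] at h3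
  have h4 : algebraMap (MvPolynomial (Fin 3) k) (Base k)
      (MvPolynomial.X 0 - MvPolynomial.C c0) = tB k - algebraMap k (Base k) c0 := by
    rw [map_sub, IsScalarTower.algebraMap_apply k (MvPolynomial (Fin 3) k) (Base k),
      MvPolynomial.algebraMap_eq]
    rfl
  rw [h4] at h3
  obtain ⟨u, hu⟩ := (isUnit_tB k).pow n
  have h5 : s = algebraMap (MvPolynomial (Fin 3) k) (Base k) p * (u⁻¹ : (Base k)ˣ) := by
    have h6 : (u : Base k) = algebraMap (MvPolynomial (Fin 3) k) (Base k)
        (MvPolynomial.X 0) ^ n := hu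
    rw [← hp, ← h6, Units.mul_inv_cancel_right]
  rw [h5]
  exact Ideal.mul_mem_right _ _ h3

/-- evaluation at the point `t = c0`, `a = b = c = x = y = 0` -/
noncomputable def EV : Ex k →+* k where
  toFun w := PowerSeries.constantCoeff (theta c0 hc w.w0)
  map_one' := by simp
  map_zero' := by simp
  map_add' u v := by simp
  map_mul' u v := by simp [theta_aB]

theorem EV_apply (w : Ex k) : EV hc w = PowerSeries.constantCoeff (theta c0 hc w.w0) := rfl

theorem EV_surjective : Function.Surjective (EV hc) := by
  intro r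
  refine ⟨Quad.of (algebraMap k (Base k) r), ?_⟩
  rw [EV_apply, Quad.of_w0, theta_algebraMap, PowerSeries.constantCoeff_C]

instance : (RingHom.ker (EV hc)).IsMaximal := RingHom.ker_isMaximal_of_surjective _ (EV_surjective hc)

theorem height_ker_EV [CharP k 2] [PerfectField k] : (RingHom.ker (EV hc)).height = 3 := by
  set Q := RingHom.ker (EV hc) with hQ
  set n : Ideal (Base k) := Q.comap (Quad.of : Base k →+* Ex k) with hn
  have hnp : n.IsPrime := Ideal.IsPrime.comap _
  have ha : (Quad.of (aB k) : Ex k) ∈ Q := by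
    rw [hQ, RingHom.mem_ker, EV_apply, Quad.of_w0, theta_aB, map_zero]
  have hcQ : (Quad.of (cB k) : Ex k) ∈ Q := by
    rw [hQ, RingHom.mem_ker, EV_apply, Quad.of_w0, theta_cB, map_zero]
  have htQ : (Quad.of (tB k - algebraMap k (Base k) c0) : Ex k) ∈ Q := by
    rw [hQ, RingHom.mem_ker, EV_apply, Quad.of_w0, map_sub, theta_tB, theta_algebraMap]
    simp
  obtain ⟨us, hus, hrad, hlen⟩ := exists_regSeq_base k n ha hcQ
  have hlen3 := hlen c0 htQ
  have hg : Function.Injective (algebraMap (Base k) (Localization.AtPrime n)) :=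
    IsLocalization.injective _ (Ideal.primeCompl_le_nonZeroDivisors n)
  have hchar : CharP (Localization.AtPrime n) 2 := charP_of_injective_ringHom hg 2
  have hdomn : IsDomain (Localization.AtPrime n) :=
    IsLocalization.isDomain_localization (Ideal.primeCompl_le_nonZeroDivisors n)
  have hnoeth : IsNoetherianRing (Localization.AtPrime n) :=
    IsLocalization.isNoetherianRing n.primeCompl _ inferInstance
  have han : algebraMap (Base k) (Localization.AtPrime n) (aB k) ∈
      maximalIdeal (Localization.AtPrime n) := by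
    rw [IsLocalization.AtPrime.to_map_mem_maximal_iff (Localization.AtPrime n) n]
    exact ha
  have hlocal : IsLocalRing (Quad (Localization.AtPrime n)
      (algebraMap (Base k) (Localization.AtPrime n) (tB k))
      (algebraMap (Base k) (Localization.AtPrime n) (aB k))
      (algebraMap (Base k) (Localization.AtPrime n) (cB k))) := Quad.isLocalRing han
  have hreg' : RegSeq ⊥ (us.map (Quad.of : Localization.AtPrime n →+*
      Quad (Localization.AtPrime n)
      (algebraMap (Base k) (Localization.AtPrime n) (tB k))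
      (algebraMap (Base k) (Localization.AtPrime n) (aB k))
      (algebraMap (Base k) (Localization.AtPrime n) (cB k)))) := by
    have := Quad.regSeq_map (t := algebraMap (Base k) (Localization.AtPrime n) (tB k))
      (a := algebraMap (Base k) (Localization.AtPrime n) (aB k))
      (c := algebraMap (Base k) (Localization.AtPrime n) (cB k)) hus
    rwa [Ideal.map_bot] at this
  have hrad' := Quad.radical_map (t := algebraMap (Base k) (Localization.AtPrime n) (tB k))
    (c := algebraMap (Base k) (Localization.AtPrime n) (cB k)) han hrad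
  have hheight := height_eq_of_regSeq hreg' hrad'
  rw [List.length_map, hlen3] at hheight
  letI := (Quad.mapHom (algebraMap (Base k) (Localization.AtPrime n)) :
    Ex k →+* _).toAlgebra
  have hloc := Quad.isLocalization_mapHom Q ha n hn
  have h1 := IsLocalization.AtPrime.ringKrullDim_eq_height Q (Quad (Localization.AtPrime n)
      (algebraMap (Base k) (Localization.AtPrime n) (tB k))
      (algebraMap (Base k) (Localization.AtPrime n) (aB k))
      (algebraMap (Base k) (Localization.AtPrime n) (cB k)))
  rw [← maximalIdeal_height_eq_ringKrullDim, hheight] at h1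
  exact_mod_cast h1.symm

end Theta

end MP85340c
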