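import Pool.Agent.Lib.MP_85340c_ag.Defs

/-!
# Two-bases in characteristic two, and tight closure in rings with a two-basis
-/

namespace MP85340c

open IsLocalRing

section Phi

variable {L : Type*} [CommRing L]

/-- The form `∑ f_α ^ 2 z ^ α` over the eight square-free monomials in `z1, z2, z3`. -/
def phi (z1 z2 z3 : L) (f : Fin 8 → L) : L :=
  f 0 ^ 2 + f 1 ^ 2 * z1 + f 2 ^ 2 * z2 + f 3 ^ 2 * z3 + f 4 ^ 2 * (z1 * z2) +
    f 5 ^ 2 * (z1 * z3) + f 6 ^ 2 * (z2 * z3) + f 7 ^ 2 * (z1 * z2 * z3)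

/-- the coefficients of a product of two values of `phi` -/
def phiMul (z1 z2 z3 : L) (f g : Fin 8 → L) : Fin 8 → L :=
  ![f 0 * g 0 + f 1 * g 1 * z1 + f 2 * g 2 * z2 + f 3 * g 3 * z3 + f 4 * g 4 * (z1 * z2) +
      f 5 * g 5 * (z1 * z3) + f 6 * g 6 * (z2 * z3) + f 7 * g 7 * (z1 * z2 * z3),
    f 0 * g 1 + f 1 * g 0 + (f 2 * g 4 + f 4 * g 2) * z2 + (f 3 * g 5 + f 5 * g 3) * z3 +
      (f 6 * g 7 + f 7 * g 6) * (z2 * z3),
    f 0 * g 2 + f 2 * g 0 + (f 1 * g 4 + f 4 * g 1) * z1 + (f 3 * g 6 + f 6 * g 3) * z3 +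
      (f 5 * g 7 + f 7 * g 5) * (z1 * z3),
    f 0 * g 3 + f 3 * g 0 + (f 1 * g 5 + f 5 * g 1) * z1 + (f 2 * g 6 + f 6 * g 2) * z2 +
      (f 4 * g 7 + f 7 * g 4) * (z1 * z2),
    f 0 * g 4 + f 4 * g 0 + (f 1 * g 2 + f 2 * g 1) + (f 3 * g 7 + f 7 * g 3) * z3 +
      (f 5 * g 6 + f 6 * g 5) * z3,
    f 0 * g 5 + f 5 * g 0 + (f 1 * g 3 + f 3 * g 1) + (f 2 * g 7 + f 7 * g 2) * z2 +
      (f 4 * g 6 + f 6 * g 4) * z2,
    f 0 * g 6 + f 6 * g 0 + (f 2 * g 3 + f 3 * g 2) + (f 1 * g 7 + f 7 * g 1) * z1 +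
      (f 4 * g 5 + f 5 * g 4) * z1,
    f 0 * g 7 + f 7 * g 0 + (f 1 * g 6 + f 6 * g 1) + (f 2 * g 5 + f 5 * g 2) +
      (f 3 * g 4 + f 4 * g 3)]

variable [CharP L 2]

theorem phi_mul (z1 z2 z3 : L) (f g : Fin 8 → L) :
    phi z1 z2 z3 f * phi z1 z2 z3 g = phi z1 z2 z3 (phiMul z1 z2 z3 f g) := by
  simp [phi, phiMul, CharTwo.add_sq, mul_pow]
  ring

theorem phi_add (z1 z2 z3 : L) (f g : Fin 8 → L) :
    phi z1 z2 z3 f + phi z1 z2 z3 g = phi z1 z2 z3 (f + g) := by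
  simp only [phi, Pi.add_apply, CharTwo.add_sq]
  ring

omit [CharP L 2] in
theorem phi_neg (z1 z2 z3 : L) (f : Fin 8 → L) :
    phi z1 z2 z3 (-f) = phi z1 z2 z3 f := by
  simp only [phi, Pi.neg_apply, neg_sq]

/-- the subring of all values of `phi` -/
def genSubring (z1 z2 z3 : L) : Subring L where
  carrier := {v | ∃ f, phi z1 z2 z3 f = v}
  mul_mem' := by
    rintro _ _ ⟨f, rfl⟩ ⟨g, rfl⟩
    exact ⟨_, (phi_mul z1 z2 z3 f g).symm⟩
  one_mem' := ⟨![1, 0, 0, 0, 0, 0, 0, 0], by simp [phi]⟩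
  add_mem' := by
    rintro _ _ ⟨f, rfl⟩ ⟨g, rfl⟩
    exact ⟨_, (phi_add z1 z2 z3 f g).symm⟩
  zero_mem' := ⟨0, by simp [phi]⟩
  neg_mem' := by
    rintro _ ⟨f, rfl⟩
    refine ⟨f, ?_⟩
    rw [CharTwo.neg_eq]

theorem mem_genSubring {z1 z2 z3 v : L} :
    v ∈ genSubring z1 z2 z3 ↔ ∃ f, phi z1 z2 z3 f = v := Iff.rfl

theorem sq_mem_genSubring (z1 z2 z3 v : L) : v ^ 2 ∈ genSubring z1 z2 z3 :=
  ⟨![v, 0, 0, 0, 0, 0, 0, 0], by simp [phi]⟩

theorem z1_mem_genSubring (z1 z2 z3 : L) : z1 ∈ genSubring z1 z2 z3 :=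
  ⟨![0, 1, 0, 0, 0, 0, 0, 0], by simp [phi]⟩

theorem z2_mem_genSubring (z1 z2 z3 : L) : z2 ∈ genSubring z1 z2 z3 :=
  ⟨![0, 0, 1, 0, 0, 0, 0, 0], by simp [phi]⟩

theorem z3_mem_genSubring (z1 z2 z3 : L) : z3 ∈ genSubring z1 z2 z3 :=
  ⟨![0, 0, 0, 1, 0, 0, 0, 0], by simp [phi]⟩

/-- if `v` is in the subring and `u * v = 1` then `u` is in the subring -/
theorem inv_mem_genSubring {z1 z2 z3 u v : L} (hv : v ∈ genSubring z1 z2 z3) (h : u * v = 1) :
    u ∈ genSubring z1 z2 z3 := by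
  have : u = u ^ 2 * v := by
    calc u = u * (u * v) := by rw [h, mul_one]
      _ = u ^ 2 * v := by ring
  rw [this]
  exact mul_mem (sq_mem_genSubring _ _ _ _) hv

end Phi

/-- `z1, z2, z3` is a two-basis of `L`: every element of `L` is uniquely
`∑ f_α ^ 2 z ^ α`. -/
structure IsTwoBasis {L : Type*} [CommRing L] (z1 z2 z3 : L) : Prop where
  surj : ∀ v, ∃ f, phi z1 z2 z3 f = v
  inj : ∀ f, phi z1 z2 z3 f = 0 → f = 0

section Bracket

variable {A : Type*} [CommRing A]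

theorem pow_mem_bracketPow {I : Ideal A} {z : A} (hz : z ∈ I) (q : ℕ) :
    z ^ q ∈ bracketPow I q := Ideal.subset_span ⟨z, hz, rfl⟩

theorem bracketPow_mono {I J : Ideal A} (h : I ≤ J) (q : ℕ) : bracketPow I q ≤ bracketPow J q :=
  Ideal.span_mono (Set.image_mono h)

theorem bracketPow_le_pow (I : Ideal A) (q : ℕ) : bracketPow I q ≤ I ^ q := by
  refine Ideal.span_le.2 ?_
  rintro _ ⟨z, hz, rfl⟩
  exact Ideal.pow_mem_pow hz q

theorem bracketPow_one (I : Ideal A) : bracketPow I 1 = I := by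
  refine le_antisymm ?_ ?_
  · refine Ideal.span_le.2 ?_
    rintro _ ⟨z, hz, rfl⟩
    simpa using hz
  · intro z hz
    simpa using pow_mem_bracketPow hz 1

theorem bracketPow_two_mul [CharP A 2] (I : Ideal A) (m : ℕ) :
    bracketPow (bracketPow I m) 2 = bracketPow I (m * 2) := by
  refine le_antisymm ?_ ?_
  · refine Ideal.span_le.2 ?_
    rintro _ ⟨z, hz, rfl⟩
    simp only [SetLike.mem_coe]
    refine Submodule.span_induction ?_ ?_ ?_ ?_ hz
    · rintro _ ⟨y, hy, rfl⟩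
      simp only
      rw [← pow_mul]
      exact pow_mem_bracketPow hy _
    · simp
    · intro x y _ _ hx hy
      rw [CharTwo.add_sq]
      exact add_mem hx hy
    · intro r x _ hx
      rw [smul_eq_mul, mul_pow]
      exact Ideal.mul_mem_left _ _ hx
  · refine Ideal.span_le.2 ?_
    rintro _ ⟨z, hz, rfl⟩
    simp only [SetLike.mem_coe]
    rw [pow_mul]
    exact pow_mem_bracketPow (pow_mem_bracketPow hz m) 2

theorem bracketPow_two_pow_add [CharP A 2] (I : Ideal A) (m n : ℕ) :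
    bracketPow (bracketPow I (2 ^ m)) (2 ^ n) = bracketPow I (2 ^ (m + n)) := by
  induction n with
  | zero => simp [bracketPow_one]
  | succ n ih =>
    have h1 : (2 : ℕ) ^ (n + 1) = 2 ^ n * 2 := by ring
    have h2 : (2 : ℕ) ^ (m + (n + 1)) = 2 ^ (m + n) * 2 := by ring
    rw [h1, h2, ← bracketPow_two_mul, ih, bracketPow_two_mul]

end Bracket

section TightClosure

variable {L : Type*} [CommRing L] [CharP L 2]

/-- the ideal of values of `phi` with coefficients in `I` is `I^{[2]}` -/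
theorem mem_bracketPow_two {z1 z2 z3 : L} (h : IsTwoBasis z1 z2 z3) (I : Ideal L) (v : L) :
    v ∈ bracketPow I 2 ↔ ∃ f : Fin 8 → L, (∀ i, f i ∈ I) ∧ phi z1 z2 z3 f = v := by
  constructor
  · intro hv
    refine Submodule.span_induction ?_ ?_ ?_ ?_ hv
    · rintro _ ⟨y, hy, rfl⟩
      refine ⟨![y, 0, 0, 0, 0, 0, 0, 0], ?_, by simp [phi]⟩
      intro i
      fin_cases i <;> simp_all
    · exact ⟨0, by simp, by simp [phi]⟩
    · rintro x y _ _ ⟨f, hf, rfl⟩ ⟨g, hg, rfl⟩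
      exact ⟨f + g, fun i => add_mem (hf i) (hg i), (phi_add _ _ _ _ _).symm⟩
    · rintro r x _ ⟨f, hf, rfl⟩
      obtain ⟨g, rfl⟩ := h.surj r
      refine ⟨phiMul z1 z2 z3 g f, ?_, ?_⟩
      · intro i
        have hm : ∀ (i : Fin 8) (r : L), r * f i ∈ I := fun i r => Ideal.mul_mem_left _ _ (hf i)
        have hm2 : ∀ (i : Fin 8) (r s : L), r * f i * s ∈ I :=
          fun i r s => Ideal.mul_mem_right _ _ (hm i r)
        fin_cases i <;> simp only [phiMul] <;> simp [add_mul, -mul_eq_zero] <;>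
          repeat' apply add_mem
        all_goals first | exact hm _ _ | exact hm2 _ _ _
      · rw [smul_eq_mul, phi_mul]
  · rintro ⟨f, hf, rfl⟩
    have : ∀ i (r : L), f i ^ 2 * r ∈ bracketPow I 2 := fun i r =>
      Ideal.mul_mem_right _ _ (pow_mem_bracketPow (hf i) 2)
    have h0 : f 0 ^ 2 ∈ bracketPow I 2 := pow_mem_bracketPow (hf 0) 2
    simp only [phi]
    exact add_mem (add_mem (add_mem (add_mem (add_mem (add_mem (add_mem h0 (this _ _)) (this _ _))
      (this _ _)) (this _ _)) (this _ _)) (this _ _)) (this _ _)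

theorem IsTwoBasis.inj' {z1 z2 z3 : L} (h : IsTwoBasis z1 z2 z3) {f g : Fin 8 → L}
    (hfg : phi z1 z2 z3 f = phi z1 z2 z3 g) : f = g := by
  have : phi z1 z2 z3 (f + g) = 0 := by
    rw [← phi_add, hfg, CharTwo.add_self_eq_zero]
  have h2 := h.inj _ this
  funext i
  have h3 := congrFun h2 i
  simp only [Pi.add_apply, Pi.zero_apply] at h3
  exact CharTwo.add_eq_zero.1 h3

/-- coefficients of an element of `I^{[2]}` are in `I` -/
theorem phi_mem_bracketPow_two {z1 z2 z3 : L} (h : IsTwoBasis z1 z2 z3) (I : Ideal L)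
    {f : Fin 8 → L} : phi z1 z2 z3 f ∈ bracketPow I 2 ↔ ∀ i, f i ∈ I := by
  rw [mem_bracketPow_two h]
  constructor
  · rintro ⟨g, hg, hgf⟩
    rw [← h.inj' hgf]
    exact hg
  · intro hf
    exact ⟨f, hf, rfl⟩

/-- the colon property of the Frobenius for one step -/
theorem colon_step {z1 z2 z3 : L} (h : IsTwoBasis z1 z2 z3) (I : Ideal L) (g v : L)
    (hv : v * g ^ 2 ∈ bracketPow I 2) : v ∈ bracketPow (Submodule.colon I {g}) 2 := by
  obtain ⟨f, rfl⟩ := h.surj v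
  have h1 : phi z1 z2 z3 f * g ^ 2 = phi z1 z2 z3 (fun i => f i * g) := by
    simp only [phi]; ring
  rw [h1, phi_mem_bracketPow_two h] at hv
  rw [phi_mem_bracketPow_two h]
  intro i
  rw [Submodule.mem_colon_singleton]
  exact hv i

/-- the colon property of the iterated Frobenius -/
theorem colon_pow {z1 z2 z3 : L} (h : IsTwoBasis z1 z2 z3) (I : Ideal L) (g : L) (e : ℕ) :
    ∀ v : L, v * g ^ (2 ^ e) ∈ bracketPow I (2 ^ e) →
      v ∈ bracketPow (Submodule.colon I {g}) (2 ^ e) := by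
  induction e with
  | zero =>
    intro v hv
    simp only [pow_zero, pow_one, bracketPow_one] at hv ⊢
    rwa [Submodule.mem_colon_singleton]
  | succ e ih =>
    intro v hv
    have h1 : (2 : ℕ) ^ (e + 1) = 2 ^ e * 2 := by ring
    rw [h1, ← bracketPow_two_mul] at hv ⊢
    rw [pow_mul] at hv
    have h2 := colon_step h _ _ _ hv
    refine bracketPow_mono ?_ 2 h2
    intro w hw
    rw [Submodule.mem_colon_singleton] at hw
    exact ih w hw

/-- In a Noetherian local domain with a two-basis all ideals are tightly closed (strong form: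
for a fixed nonzero multiplier). -/
theorem mem_of_forall_mul_pow_mem [IsLocalRing L] [IsNoetherianRing L] [IsDomain L]
    {z1 z2 z3 : L} (h : IsTwoBasis z1 z2 z3) (I : Ideal L) {c g : L} (hc : c ≠ 0)
    (hg : ∃ N : ℕ, ∀ e : ℕ, N ≤ e → c * g ^ (2 ^ e) ∈ bracketPow I (2 ^ e)) : g ∈ I := by
  by_contra hgI
  obtain ⟨N, hN⟩ := hg
  have hcolon : Submodule.colon I {g} ≤ maximalIdeal L := by
    refine IsLocalRing.le_maximalIdeal ?_
    intro htop
    have : (1 : L) ∈ Submodule.colon I {g} := by rw [htop]; trivial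
    rw [Submodule.mem_colon_singleton] at this
    apply hgI
    simpa using this
  have hall : ∀ e, N ≤ e → c ∈ maximalIdeal L ^ (2 ^ e) := by
    intro e he
    exact (bracketPow_le_pow _ _) (bracketPow_mono hcolon _ (colon_pow h I g e c (hN e he)))
  have hinf : c ∈ (⨅ i : ℕ, maximalIdeal L ^ i : Ideal L) := by
    rw [Ideal.mem_iInf]
    intro i
    have h1 : i ≤ 2 ^ (max N i) := le_trans (le_max_right N i) Nat.lt_two_pow_self.le
    exact Ideal.pow_le_pow_right h1 (hall _ (le_max_left _ _))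
  rw [Ideal.iInf_pow_eq_bot_of_isLocalRing _ (Ideal.IsPrime.ne_top inferInstance)] at hinf
  exact hc (by simpa using hinf)

theorem le_tightClosure (p : ℕ) {A : Type*} [CommRing A] (I : Ideal A) :
    (I : Set A) ⊆ tightClosure p I := by
  intro z hz
  refine ⟨1, ?_, 0, ?_⟩
  · intro P hP h1
    have := hP.1.1
    exact this.ne_top ((Ideal.eq_top_iff_one _).2 h1)
  · intro e _
    rw [one_mul]
    exact pow_mem_bracketPow hz _

theorem not_mem_minimalPrimes_iff {A : Type*} [CommRing A] [IsDomain A] {c : A} :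
    (∀ P ∈ minimalPrimes A, c ∉ P) ↔ c ≠ 0 := by
  rw [IsDomain.minimalPrimes_eq_singleton_bot]
  simp

/-- A Noetherian local domain with a two-basis is F-rational. -/
theorem isFRationalLocal_of_isTwoBasis [IsLocalRing L] [IsNoetherianRing L] [IsDomain L]
    {z1 z2 z3 : L} (h : IsTwoBasis z1 z2 z3) : IsFRationalLocal 2 L := by
  intro I _
  refine Set.Subset.antisymm ?_ (le_tightClosure 2 I)
  rintro g ⟨c, hc, hN⟩
  exact mem_of_forall_mul_pow_mem h I (not_mem_minimalPrimes_iff.1 hc) hN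

end TightClosure

end MP85340c
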